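import Pool.Agent.Rect.Herm.HMain

/-!
# The hidden scalar product: `D(p)` is self-adjoint and positive
-/

namespace Pool.Agent.Rect.Herm

open Pool.Agent.Helper9.DR HFam

section field

variable {K : Type*} [Field K] {V : Type*} [AddCommGroup V] [Module K V]

/-- `Dq` as a symmetric expression -/
theorem Dq_eq {p : K} (hp : c2 p ≠ 0) (l l' l'' : List Bool) : Dq p l l' l'' =
    kL p false * kR p false * gg p false false * (T p l l' false false * T p l'' l' false false) +
    kL p false * kR p true * gg p false true * (T p l l' false true * T p l'' l' false true) +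
    (kL p true * kR p false * gg p true false * (T p l l' true false * T p l'' l' true false) +
    kL p true * kR p true * gg p true true * (T p l l' true true * T p l'' l' true true)) := by
  rw [Dq, T2_eq hp, T2_eq hp, T2_eq hp, T2_eq hp]
  ring

theorem Dq_symm {p : K} (hp : c2 p ≠ 0) (l l' l'' : List Bool) : Dq p l l' l'' = Dq p l'' l' l := by
  rw [Dq_eq hp, Dq_eq hp]
  ring

theorem Dq_cons {p : K} {l l' l'' : List Bool} (h : Dq p l l' l'' ≠ 0) : cnt l = cnt l'' := by
  by_contra hne
  apply h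
  have key : ∀ μ ν : Bool, T p l l' μ ν * T2 p l' l'' μ ν = 0 := by
    intro μ ν
    by_contra h0
    have c1 := T_cons (left_ne_zero_of_mul h0)
    have c2 := T2_cons (right_ne_zero_of_mul h0)
    omega
  rw [Dq, key, key, key, key]
  ring

theorem Dp_symm {p : K} (hp : c2 p ≠ 0) (m : ℕ) (l l'' : List Bool) : Dp p m l l'' = Dp p m l'' l :=
  sm_congr fun l' _ => Dq_symm hp l l' l''

theorem Dp_cons {p : K} {m : ℕ} {l l'' : List Bool} (h : Dp p m l l'' ≠ 0) : cnt l = cnt l'' := by
  by_contra hne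
  apply h
  rw [Dp, sm_congr (g := fun _ => (0 : K)) fun l' _ => ?_, sm_zero]
  by_contra h0
  exact hne (Dq_cons h0)

namespace HFam

variable {Tw : Tower K V} {ld : ℕ} (H : HFam Tw ld)

/-- the hidden scalar product of the vectors with `m + 1` strands and `k` arcs -/
def Sf (m k : ℕ) (v w : V) : K := sm m (fun l => if cnt l = k then H.Fn 0 l v * H.Fn 0 l w else 0)

theorem Sf_symm (m k : ℕ) (v w : V) : H.Sf m k v w = H.Sf m k w v := by
  refine sm_congr fun l _ => ?_
  split_ifs
  · ring
  · rfl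

theorem Sf_add (m k : ℕ) (v v' w : V) : H.Sf m k (v + v') w = H.Sf m k v w + H.Sf m k v' w := by
  rw [Sf, Sf, Sf, ← sm_add]
  refine sm_congr fun l _ => ?_
  split_ifs
  · rw [map_add]; ring
  · ring

theorem Sf_smul (m k : ℕ) (c : K) (v w : V) : H.Sf m k (c • v) w = c * H.Sf m k v w := by
  rw [Sf, Sf, ← sm_mul]
  refine sm_congr fun l _ => ?_
  split_ifs
  · rw [map_smul, smul_eq_mul]; ring
  · ring

/-- the scalar product as a bilinear map -/
def SfL (m k : ℕ) : V →ₗ[K] V →ₗ[K] K :=
  LinearMap.mk₂ K (H.Sf m k) (H.Sf_add m k) (H.Sf_smul m k)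
    (fun v w w' => by rw [H.Sf_symm, H.Sf_add, H.Sf_symm m k w, H.Sf_symm m k w'])
    (fun c v w => by rw [H.Sf_symm, H.Sf_smul, H.Sf_symm m k w, smul_eq_mul])

theorem SfL_apply (m k : ℕ) (v w : V) : H.SfL m k v w = H.Sf m k v w := rfl

/-- `S (D v, w)` as a double sum -/
theorem Sf_D_eq (p : K) (hld : 1 ≤ ld) {k m : ℕ} (hm : m + 1 = ld + 2 * k) {v : V}
    (hv : v ∈ H.W (m + 1)) (w : V) : H.Sf m k (Tw.Dh (m + 1) 0 p v) w =
      sm m (fun l => sm m (fun l'' => if cnt l = k then
        Dp p m l l'' * H.Fn 0 l'' v * H.Fn 0 l w else 0)) := by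
  refine sm_congr fun l hl => ?_
  by_cases h : cnt l = k
  · rw [if_pos h, H.F_Dh p hld hm 0 hl h hv, ← sm_mul_right]
    exact sm_congr fun l'' _ => by rw [if_pos h]
  · rw [if_neg h, sm_congr (g := fun _ => (0 : K)) fun l'' _ => by rw [if_neg h], sm_zero]

/-- **the double row matrix is self-adjoint** -/
theorem Sf_D {p : K} (hp : c2 p ≠ 0) (hld : 1 ≤ ld) {k m : ℕ} (hm : m + 1 = ld + 2 * k) {v w : V}
    (hv : v ∈ H.W (m + 1)) (hw : w ∈ H.W (m + 1)) :
    H.Sf m k (Tw.Dh (m + 1) 0 p v) w = H.Sf m k v (Tw.Dh (m + 1) 0 p w) := by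
  rw [H.Sf_symm m k v, H.Sf_D_eq p hld hm hv, H.Sf_D_eq p hld hm hw, sm_comm]
  refine sm_congr fun l'' _ => sm_congr fun l _ => ?_
  by_cases h : Dp p m l l'' = 0
  · have h' : Dp p m l'' l = 0 := by rw [← Dp_symm hp, h]
    rw [h, h']
    split_ifs <;> ring
  · have hc := Dp_cons h
    rw [Dp_symm hp m l'' l, hc]
    split_ifs
    · ring
    · rfl

end HFam

end field

section real

variable {V : Type*} [AddCommGroup V] [Module ℝ V]

theorem c2_pos (p : ℝ) : 0 < c2 p := by
  unfold c2
  nlinarith [sq_nonneg (p - 1 / 2)]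

theorem sm_nonneg {m : ℕ} {f : List Bool → ℝ} (h : ∀ l, l.length = m → 0 ≤ f l) : 0 ≤ sm m f := by
  induction m generalizing f with
  | zero => exact h [] rfl
  | succ m ih =>
    rw [sm]
    exact add_nonneg (ih fun l hl => h _ (by simp [hl])) (ih fun l hl => h _ (by simp [hl]))

theorem sm_eq_zero {m : ℕ} {f : List Bool → ℝ} (h : ∀ l, l.length = m → 0 ≤ f l) (h0 : sm m f = 0) :
    ∀ l, l.length = m → f l = 0 := by
  induction m generalizing f with
  | zero =>
    intro l hl
    rw [List.length_eq_zero_iff] at hl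
    rw [hl]
    exact h0
  | succ m ih =>
    rw [sm] at h0
    have h1 : 0 ≤ sm m (fun l => f (false :: l)) := sm_nonneg fun l hl => h _ (by simp [hl])
    have h2 : 0 ≤ sm m (fun l => f (true :: l)) := sm_nonneg fun l hl => h _ (by simp [hl])
    have h3 : sm m (fun l => f (false :: l)) = 0 := by linarith
    have h4 : sm m (fun l => f (true :: l)) = 0 := by linarith
    intro l hl
    match l, hl with
    | false :: l, hl => exact ih (fun l hl => h _ (by simp [hl])) h3 l (by simpa using hl)
    | true :: l, hl => exact ih (fun l hl => h _ (by simp [hl])) h4 l (by simpa using hl)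

theorem gg_pos (p : ℝ) (μ ν : Bool) : 0 < gg p μ ν := by
  have h := c2_pos p
  cases μ <;> cases ν <;> simp [gg, h]

theorem kL_nonneg {p : ℝ} (h1 : p ≤ 1) (μ : Bool) : 0 ≤ kL p μ := by
  cases μ <;> simp [kL, h1]

theorem kR_nonneg {p : ℝ} (h0 : 0 ≤ p) (μ : Bool) : 0 ≤ kR p μ := by
  cases μ <;> simp [kR, h0]

theorem wt_nonneg {p : ℝ} (h0 : 0 ≤ p) (h1 : p ≤ 1) (n μ n' μ' : Bool) : 0 ≤ wt p n μ n' μ' := by
  have h := (c2_pos p).le
  cases n <;> cases μ <;> cases n' <;> cases μ' <;> simp [wt, h0, h1, h]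

theorem T_nonneg {p : ℝ} (h0 : 0 ≤ p) (h1 : p ≤ 1) : ∀ (x z : List Bool) (μ ν : Bool), 0 ≤ T p x z μ ν
  | [], [], μ, ν => by simp only [T]; split_ifs <;> norm_num
  | n :: l, n' :: l', μ, ν => by
    simp only [T]
    exact add_nonneg (mul_nonneg (wt_nonneg h0 h1 _ _ _ _) (T_nonneg h0 h1 _ _ _ _))
      (mul_nonneg (wt_nonneg h0 h1 _ _ _ _) (T_nonneg h0 h1 _ _ _ _))
  | [], _ :: _, _, _ => le_refl _
  | _ :: _, [], _, _ => le_refl _

theorem T2_nonneg {p : ℝ} (h0 : 0 ≤ p) (h1 : p ≤ 1) : ∀ (x z : List Bool) (μ ν : Bool), 0 ≤ T2 p x z μ ν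
  | [], [], μ, ν => by simp only [T2]; split_ifs <;> norm_num
  | n :: l, n' :: l', μ, ν => by
    simp only [T2]
    exact add_nonneg (mul_nonneg (wt_nonneg h0 h1 _ _ _ _) (T2_nonneg h0 h1 _ _ _ _))
      (mul_nonneg (wt_nonneg h0 h1 _ _ _ _) (T2_nonneg h0 h1 _ _ _ _))
  | [], _ :: _, _, _ => le_refl _
  | _ :: _, [], _, _ => le_refl _

/-- the entries of `D'` are nonnegative -/
theorem Dp_nonneg {p : ℝ} (h0 : 0 ≤ p) (h1 : p ≤ 1) (m : ℕ) (l l'' : List Bool) : 0 ≤ Dp p m l l'' := by
  refine sm_nonneg fun l' _ => ?_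
  have hT := fun x z μ ν => T_nonneg h0 h1 x z μ ν
  have hT2 := fun x z μ ν => T2_nonneg h0 h1 x z μ ν
  have hL := kL_nonneg h1
  have hR := kR_nonneg h0
  unfold Dq
  refine add_nonneg (mul_nonneg (hL _) (add_nonneg ?_ ?_)) (mul_nonneg (hL _) (add_nonneg ?_ ?_)) <;>
    exact mul_nonneg (hR _) (mul_nonneg (hT _ _ _ _) (hT2 _ _ _ _))

namespace HFam

variable {Tw : Tower ℝ V} {ld : ℕ} (H : HFam Tw ld)

/-- the image of `v` under the transposed row -/
noncomputable def Av (p : ℝ) (m k : ℕ) (v : V) (μ ν : Bool) (l' : List Bool) : ℝ :=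
  sm m (fun l => if cnt l = k then T p l l' μ ν * H.Fn 0 l v else 0)

theorem Sf_D_self (p : ℝ) (hld : 1 ≤ ld) {k m : ℕ} (hm : m + 1 = ld + 2 * k) {v : V}
    (hv : v ∈ H.W (m + 1)) : H.Sf m k (Tw.Dh (m + 1) 0 p v) v =
      sm m (fun l' =>
        kL p false * kR p false * gg p false false * H.Av p m k v false false l' ^ 2 +
        kL p false * kR p true * gg p false true * H.Av p m k v false true l' ^ 2 +
        (kL p true * kR p false * gg p true false * H.Av p m k v true false l' ^ 2 +
        kL p true * kR p true * gg p true true * H.Av p m k v true true l' ^ 2)) := by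
  have hp := (c2_pos p).ne'
  have hsq : ∀ (μ ν : Bool) (l' : List Bool), H.Av p m k v μ ν l' ^ 2 =
      sm m (fun l => sm m (fun l'' => if cnt l = k then
        T p l l' μ ν * T p l'' l' μ ν * H.Fn 0 l'' v * H.Fn 0 l v else 0)) := by
    intro μ ν l'
    rw [sq, Av, ← sm_mul_right]
    refine sm_congr fun l _ => ?_
    rw [← sm_mul]
    refine sm_congr fun l'' _ => ?_
    by_cases h : cnt l = k
    · rw [if_pos h, if_pos h]
      by_cases h' : cnt l'' = k
      · rw [if_pos h']; ring
      · rw [if_neg h', mul_zero]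
        have : T p l l' μ ν * T p l'' l' μ ν = 0 := by
          by_contra h0
          have c1 := T_cons (left_ne_zero_of_mul h0)
          have c2 := T_cons (right_ne_zero_of_mul h0)
          omega
        rw [this]; ring
    · rw [if_neg h, if_neg h, zero_mul]
  rw [H.Sf_D_eq p hld hm hv v]
  have e1 : ∀ l l'' : List Bool, (if cnt l = k then Dp p m l l'' * H.Fn 0 l'' v * H.Fn 0 l v else 0) =
      sm m (fun l' => if cnt l = k then Dq p l l' l'' * H.Fn 0 l'' v * H.Fn 0 l v else 0) := by
    intro l l''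
    split_ifs
    · rw [Dp, ← sm_mul_right, ← sm_mul_right]
    · rw [sm_zero]
  simp only [e1]
  rw [sm_congr fun l _ => sm_comm m m _, sm_comm]
  refine sm_congr fun l' _ => ?_
  rw [hsq, hsq, hsq, hsq]
  simp only [← sm_mul, ← sm_add]
  refine sm_congr fun l _ => sm_congr fun l'' _ => ?_
  split_ifs
  · rw [Dq_eq hp]; ring
  · ring

/-- **positivity** -/
theorem Sf_D_nonneg {p : ℝ} (h0 : 0 ≤ p) (h1 : p ≤ 1) (hld : 1 ≤ ld) {k m : ℕ}
    (hm : m + 1 = ld + 2 * k) {v : V} (hv : v ∈ H.W (m + 1)) :
    0 ≤ H.Sf m k (Tw.Dh (m + 1) 0 p v) v := by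
  rw [H.Sf_D_self p hld hm hv]
  refine sm_nonneg fun l' _ => ?_
  have hL := kL_nonneg h1
  have hR := kR_nonneg h0
  have hg := fun μ ν => (gg_pos p μ ν).le
  refine add_nonneg (add_nonneg ?_ ?_) (add_nonneg ?_ ?_) <;>
    exact mul_nonneg (mul_nonneg (mul_nonneg (hL _) (hR _)) (hg _ _)) (sq_nonneg _)

end HFam

/-- the row `T 0 0` is triangular with nonzero diagonal -/
theorem T00_inj {p : ℝ} (h0 : 0 < p) (h1 : p < 1) : ∀ (m : ℕ) (x : List Bool → ℝ),
    (∀ l', l'.length = m → sm m (fun l => x l * T p l l' false false) = 0) →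
      ∀ l, l.length = m → x l = 0 := by
  intro m
  induction m with
  | zero =>
    intro x h l hl
    rw [List.length_eq_zero_iff] at hl
    have := h [] rfl
    simp only [sm, T, if_true, mul_one] at this
    rw [hl]
    exact this
  | succ m ih =>
    intro x h
    have ht : ∀ t, t.length = m → x (true :: t) = 0 := by
      refine ih (fun t => x (true :: t)) fun t' ht' => ?_
      have := h (true :: t') (by simp [ht'])
      simp only [sm, T, wt, zero_mul, mul_zero, add_zero, sm_zero, zero_add] at this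
      have h2 : sm m (fun l => x (true :: l) * ((1 - p) * T p l t' false false)) =
          (1 - p) * sm m (fun l => x (true :: l) * T p l t' false false) := by
        rw [← sm_mul]
        exact sm_congr fun l _ => by ring
      rw [h2] at this
      exact (mul_eq_zero.1 this).resolve_left (by linarith)
    have hf : ∀ t, t.length = m → x (false :: t) = 0 := by
      refine ih (fun t => x (false :: t)) fun t' ht' => ?_
      have := h (false :: t') (by simp [ht'])
      simp only [sm] at this
      rw [sm_congr (f := fun l => x (true :: l) * T p (true :: l) (false :: t') false false)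
        (g := fun _ => (0 : ℝ)) fun l hl => by rw [ht l hl, zero_mul], sm_zero, add_zero] at this
      have h2 : sm m (fun l => x (false :: l) * T p (false :: l) (false :: t') false false) =
          p * sm m (fun l => x (false :: l) * T p l t' false false) := by
        rw [← sm_mul]
        exact sm_congr fun l _ => by simp only [T, wt]; ring
      rw [h2] at this
      exact (mul_eq_zero.1 this).resolve_left h0.ne'
    intro l hl
    match l, hl with
    | false :: l, hl => exact hf l (by simpa using hl)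
    | true :: l, hl => exact ht l (by simpa using hl)

namespace HFam

variable {Tw : Tower ℝ V} {ld : ℕ} (H : HFam Tw ld)

/-- **strict positivity**: if `S (D v, v) = 0` then all functionals vanish on `v` -/
theorem Sf_D_pos {p : ℝ} (h0 : 0 < p) (h1 : p < 1) (hld : 1 ≤ ld) {k m : ℕ}
    (hm : m + 1 = ld + 2 * k) {v : V} (hv : v ∈ H.W (m + 1)) (hS : 0 < H.Sf m k v v) :
    0 < H.Sf m k (Tw.Dh (m + 1) 0 p v) v := by
  refine lt_of_le_of_ne (H.Sf_D_nonneg h0.le h1.le hld hm hv) fun h => ?_
  rw [H.Sf_D_self p hld hm hv] at h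
  have hL := kL_nonneg h1.le
  have hR := kR_nonneg h0.le
  have hg := fun μ ν => (gg_pos p μ ν).le
  have hnn : ∀ (μ ν : Bool) (l' : List Bool),
      0 ≤ kL p μ * kR p ν * gg p μ ν * H.Av p m k v μ ν l' ^ 2 := fun μ ν l' =>
    mul_nonneg (mul_nonneg (mul_nonneg (hL _) (hR _)) (hg _ _)) (sq_nonneg _)
  have h2 := sm_eq_zero (fun l' _ => add_nonneg (add_nonneg (hnn false false l') (hnn false true l'))
    (add_nonneg (hnn true false l') (hnn true true l'))) h.symm
  have h3 : ∀ l', l'.length = m → H.Av p m k v false false l' = 0 := by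
    intro l' hl'
    have h4 := h2 l' hl'
    have h5 : kL p false * kR p false * gg p false false * H.Av p m k v false false l' ^ 2 = 0 := by
      have := hnn false false l'
      have := hnn false true l'
      have := hnn true false l'
      have := hnn true true l'
      linarith
    have h6 : 0 < kL p false * kR p false * gg p false false := by
      simp only [kL, kR, gg, if_true]
      linarith
    exact pow_eq_zero_iff (two_ne_zero) |>.1 ((mul_eq_zero.1 h5).resolve_left h6.ne')
  have h7 := T00_inj h0 h1 m (fun l => if cnt l = k then H.Fn 0 l v else 0) (by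
    intro l' hl'
    refine Eq.trans (sm_congr fun l _ => ?_) (h3 l' hl')
    split_ifs
    · ring
    · ring)
  have h8 : H.Sf m k v v = 0 := by
    rw [Sf, sm_congr (g := fun _ => (0 : ℝ)) fun l hl => ?_, sm_zero]
    have := h7 l hl
    split_ifs with hc
    · rw [if_pos hc] at this
      rw [this, mul_zero]
    · rfl
  exact hS.ne' h8

theorem Sf_nonneg (m k : ℕ) (v : V) : 0 ≤ H.Sf m k v v := by
  refine sm_nonneg fun l _ => ?_
  split_ifs
  · exact mul_self_nonneg _
  · exact le_refl _

theorem Sf_eq_zero {m k : ℕ} {v : V} (h : H.Sf m k v v = 0) (l : List Bool) (hl : l.length = m)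
    (hk : cnt l = k) : H.Fn 0 l v = 0 := by
  have := sm_eq_zero (f := fun l => if cnt l = k then H.Fn 0 l v * H.Fn 0 l v else 0) (fun l _ => by
    split_ifs
    · exact mul_self_nonneg _
    · exact le_refl _) h l hl
  rw [if_pos hk] at this
  exact mul_self_eq_zero.1 this

end HFam

end real

end Pool.Agent.Rect.Herm
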