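import Pool.Agent.Rect.Herm.Height
import Pool.Agent.Rect.Alg.Inst

/-!
# The height functionals on link patterns with two defects

For a pattern `f` on `N` strands and heights `H : ℕ → ℤ`
`Kfun f N H = kap (1 + ∑ H d) * ∏ kap (H (f s) - H s)`, the sum over the defects and the product over
the arcs `s < f s`.  `hfam K : HFam (patSys.tower K) 2` is the resulting family of functionals.
-/

set_option autoImplicit false

namespace RectAlg

/-- the arcs stay inside -/
theorem Pat.Gn.lt {l N : ℕ} {f : Pat} (h : Pat.Gn l N f) : ∀ s, s < N → f.fn s < N := by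
  induction h with
  | base => intro s hs; exact hs
  | @cup N i f _ hi ih =>
    intro s hs
    rw [Pat.fn_c]
    rcases up_cases i s with rfl | rfl | ⟨t, rfl⟩
    · rw [cupF_i]; omega
    · rw [cupF_i1]; omega
    · rw [cupF_up]
      have ht : t < N := by
        unfold up at hs
        split_ifs at hs <;> omega
      have := ih t ht
      unfold up
      split_ifs <;> omega

theorem Pat.lt_of_mem {l N : ℕ} {f : Pat} (h : f ∈ Pat.PN N l) {s : ℕ} (hs : s < N) : f.fn s < N :=
  (Pat.mem_PN.1 h).lt s hs

end RectAlg

namespace Pool.Agent.Rect.Herm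
open Pool.Agent.Helper9.DR RectAlg Finset

theorem kap_rec' (m : ℤ) : kap (m - 1) = kap m - kap (m + 1) := by
  rw [kap_rec]; ring

/-! ### sums and products over the strands -/

theorem range_up {N i : ℕ} (hi : i ≤ N) :
    range (N + 2) = insert i (insert (i + 1) ((range N).image (up i))) := by
  ext t
  simp only [mem_range, mem_insert, mem_image]
  constructor
  · intro h
    rcases up_cases i t with rfl | rfl | ⟨s, rfl⟩
    · exact Or.inl rfl
    · exact Or.inr (Or.inl rfl)
    · refine Or.inr (Or.inr ⟨s, ?_, rfl⟩)
      unfold up at h
      split_ifs at h <;> omega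
  · rintro (rfl | rfl | ⟨s, hs, rfl⟩)
    · omega
    · omega
    · unfold up
      split_ifs <;> omega

theorem prod_range_up {M : Type*} [CommMonoid M] {N i : ℕ} (hi : i ≤ N) (φ : ℕ → M) :
    ∏ t ∈ range (N + 2), φ t = φ i * (φ (i + 1) * ∏ s ∈ range N, φ (up i s)) := by
  rw [range_up hi, prod_insert, prod_insert, prod_image]
  · intro x _ y _ h
    exact up_inj.1 h
  · simp only [mem_image, not_exists, not_and]
    intro x _ h
    exact up_ne' i x h
  · simp only [mem_insert, mem_image, not_or, not_exists, not_and]
    refine ⟨by omega, fun x _ h => up_ne i x h⟩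

theorem sum_range_up {M : Type*} [AddCommMonoid M] {N i : ℕ} (hi : i ≤ N) (φ : ℕ → M) :
    ∑ t ∈ range (N + 2), φ t = φ i + (φ (i + 1) + ∑ s ∈ range N, φ (up i s)) := by
  rw [range_up hi, sum_insert, sum_insert, sum_image]
  · intro x _ y _ h
    exact up_inj.1 h
  · simp only [mem_image, not_exists, not_and]
    intro x _ h
    exact up_ne' i x h
  · simp only [mem_insert, mem_image, not_or, not_exists, not_and]
    refine ⟨by omega, fun x _ h => up_ne i x h⟩

/-! ### the functional on functions -/

/-- the value of the functional with heights `H` on the pattern `f` with `N` strands -/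
def Kfun (f : ℕ → ℕ) (N : ℕ) (H : ℕ → ℤ) : ℤ :=
  kap (1 + ∑ s ∈ range N, if f s = s then H s else 0) *
    ∏ s ∈ range N, if s < f s then kap (H (f s) - H s) else 1

theorem Kfun_congr {f : ℕ → ℕ} {N : ℕ} {H H' : ℕ → ℤ} (hf : ∀ s, s < N → f s < N)
    (h : ∀ s, s < N → H s = H' s) : Kfun f N H = Kfun f N H' := by
  unfold Kfun
  congr 1
  · congr 2
    refine sum_congr rfl fun s hs => ?_
    rw [h s (mem_range.1 hs)]
  · refine prod_congr rfl fun s hs => ?_
    rw [h s (mem_range.1 hs), h (f s) (hf s (mem_range.1 hs))]

theorem Kfun_cup {f : ℕ → ℕ} {N i : ℕ} (hi : i ≤ N) {H H' : ℕ → ℤ}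
    (h : ∀ s, H' (up i s) = H s) :
    Kfun (cupF i f) (N + 2) H' = kap (H' (i + 1) - H' i) * Kfun f N H := by
  unfold Kfun
  rw [sum_range_up hi, prod_range_up hi]
  simp only [cupF_i, cupF_i1, cupF_up, up_inj, h]
  rw [if_neg (by omega), if_neg (by omega), if_pos (by omega), if_neg (by omega)]
  have e : ∀ s, (up i s < up i (f s)) ↔ s < f s := fun s => by
    unfold up
    split_ifs <;> omega
  simp only [e]
  rw [zero_add, zero_add]
  ring

/-- dependence on one height -/
theorem Kfun_update {f : ℕ → ℕ} (hinv : ∀ s, f (f s) = s) {N i : ℕ} (hi : i < N)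
    (hf : ∀ s, s < N → f s < N) (H : ℕ → ℤ) :
    ∃ A B e : ℤ, (e = 1 ∨ e = -1) ∧
      ∀ x, Kfun f N (Function.update H i x) = A * kap (B + e * x) := by
  rcases Nat.lt_trichotomy (f i) i with h1 | h1 | h1
  · -- `i` closes an arc
    have hj : f i ∈ range N := mem_range.2 (hf i hi)
    refine ⟨kap (1 + ∑ s ∈ range N, if f s = s then H s else 0) *
      ∏ s ∈ (range N).erase (f i), if s < f s then kap (H (f s) - H s) else 1, -H (f i), 1,
      Or.inl rfl, fun x => ?_⟩
    unfold Kfun
    rw [← mul_prod_erase (range N) _ hj]
    rw [hinv i, if_pos h1, Function.update_self, Function.update_of_ne (by omega)]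
    have e1 : ∑ s ∈ range N, (if f s = s then Function.update H i x s else 0) =
        ∑ s ∈ range N, if f s = s then H s else 0 := by
      refine sum_congr rfl fun s _ => ?_
      split_ifs with h2
      · rw [Function.update_of_ne]
        rintro rfl
        omega
      · rfl
    have e2 : ∏ s ∈ (range N).erase (f i), (if s < f s then
        kap (Function.update H i x (f s) - Function.update H i x s) else 1) =
        ∏ s ∈ (range N).erase (f i), if s < f s then kap (H (f s) - H s) else 1 := by
      refine prod_congr rfl fun s hs => ?_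
      split_ifs with h2
      · have h3 : s ≠ i := by
          rintro rfl
          omega
        have h4 : f s ≠ i := by
          rintro rfl
          rw [hinv] at hs
          exact (mem_erase.1 hs).1 rfl
        rw [Function.update_of_ne h3, Function.update_of_ne h4]
      · rfl
    rw [e1, e2, show -H (f i) + 1 * x = x - H (f i) by ring]
    ring
  · -- `i` is a defect
    have hj : i ∈ range N := mem_range.2 hi
    refine ⟨∏ s ∈ range N, if s < f s then kap (H (f s) - H s) else 1,
      1 + ∑ s ∈ (range N).erase i, (if f s = s then H s else 0), 1,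
      Or.inl rfl, fun x => ?_⟩
    unfold Kfun
    rw [← add_sum_erase (range N) _ hj]
    rw [if_pos h1, Function.update_self]
    have e1 : ∑ s ∈ (range N).erase i, (if f s = s then Function.update H i x s else 0) =
        ∑ s ∈ (range N).erase i, if f s = s then H s else 0 := by
      refine sum_congr rfl fun s hs => ?_
      rw [Function.update_of_ne (mem_erase.1 hs).1]
    have e2 : ∏ s ∈ range N, (if s < f s then
        kap (Function.update H i x (f s) - Function.update H i x s) else 1) =
        ∏ s ∈ range N, if s < f s then kap (H (f s) - H s) else 1 := by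
      refine prod_congr rfl fun s _ => ?_
      split_ifs with h2
      · have h3 : s ≠ i := by
          rintro rfl
          omega
        have h4 : f s ≠ i := by
          intro h5
          have := hinv s
          rw [h5, h1] at this
          exact h3 this.symm
        rw [Function.update_of_ne h3, Function.update_of_ne h4]
      · rfl
    rw [e1, e2, show (1 + (x + ∑ s ∈ (range N).erase i, if f s = s then H s else 0)) =
      1 + (∑ s ∈ (range N).erase i, if f s = s then H s else 0) + 1 * x by ring]
    ring
  · -- `i` opens an arc
    have hj : i ∈ range N := mem_range.2 hi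
    refine ⟨kap (1 + ∑ s ∈ range N, if f s = s then H s else 0) *
      ∏ s ∈ (range N).erase i, if s < f s then kap (H (f s) - H s) else 1, H (f i), -1,
      Or.inr rfl, fun x => ?_⟩
    unfold Kfun
    rw [← mul_prod_erase (range N) _ hj]
    rw [if_pos h1, Function.update_self, Function.update_of_ne (by omega)]
    have e1 : ∑ s ∈ range N, (if f s = s then Function.update H i x s else 0) =
        ∑ s ∈ range N, if f s = s then H s else 0 := by
      refine sum_congr rfl fun s _ => ?_
      split_ifs with h2
      · rw [Function.update_of_ne]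
        rintro rfl
        omega
      · rfl
    have e2 : ∏ s ∈ (range N).erase i, (if s < f s then
        kap (Function.update H i x (f s) - Function.update H i x s) else 1) =
        ∏ s ∈ (range N).erase i, if s < f s then kap (H (f s) - H s) else 1 := by
      refine prod_congr rfl fun s hs => ?_
      split_ifs with h2
      · have h3 : s ≠ i := (mem_erase.1 hs).1
        have h4 : f s ≠ i := by
          intro h5
          have := hinv s
          rw [h5] at this
          omega
        rw [Function.update_of_ne h3, Function.update_of_ne h4]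
      · rfl
    rw [e1, e2, show H (f i) + -1 * x = H (f i) - x by ring]
    ring

/-! ### lists of heights -/

/-- the functional of a list of heights on patterns -/
def Fp (h : List ℤ) (f : Pat) : ℤ := Kfun f.fn h.length fun s => h.getD s 0

/-- the same on a pattern or zero -/
def Fo (h : List ℤ) (o : Option Pat) : ℤ := o.elim 0 (Fp h)

@[simp] theorem Fo_none (h : List ℤ) : Fo h none = 0 := rfl
@[simp] theorem Fo_some (h : List ℤ) (f : Pat) : Fo h (some f) = Fp h f := rfl

theorem getD_slot (p q : List ℤ) (a x : ℤ) (s : ℕ) :
    (p ++ x :: q).getD s 0 = Function.update (fun s => (p ++ a :: q).getD s 0) p.length x s := by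
  rcases Nat.lt_trichotomy s p.length with h | h | h
  · rw [Function.update_of_ne (by omega), List.getD_append _ _ _ _ h, List.getD_append _ _ _ _ h]
  · subst h
    rw [Function.update_self, List.getD_append_right _ _ _ _ le_rfl, Nat.sub_self,
      List.getD_cons_zero]
  · rw [Function.update_of_ne (by omega), List.getD_append_right _ _ _ _ (by omega),
      List.getD_append_right _ _ _ _ (by omega)]
    obtain ⟨t, ht⟩ : ∃ t, s - p.length = t + 1 := ⟨s - p.length - 1, by omega⟩
    rw [ht, List.getD_cons_succ, List.getD_cons_succ]

theorem getD_up (p q : List ℤ) (a b : ℤ) (s : ℕ) :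
    (p ++ a :: b :: q).getD (up p.length s) 0 = (p ++ q).getD s 0 := by
  unfold up
  split_ifs with h
  · rw [List.getD_append _ _ _ _ h, List.getD_append _ _ _ _ h]
  · rw [List.getD_append_right _ _ _ _ (by omega), List.getD_append_right _ _ _ _ (by omega)]
    have : s + 2 - p.length = (s - p.length) + 1 + 1 := by omega
    rw [this, List.getD_cons_succ, List.getD_cons_succ]

theorem Fp_slot {p q : List ℤ} {l : ℕ} {f : Pat} (hf : f ∈ Pat.PN (p.length + q.length + 1) l) :
    ∃ A B e : ℤ, (e = 1 ∨ e = -1) ∧ ∀ x, Fp (p ++ x :: q) f = A * kap (B + e * x) := by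
  obtain ⟨A, B, e, he, h⟩ := Kfun_update (f := f.fn) f.inv (N := p.length + q.length + 1)
    (i := p.length) (by omega) (fun s hs => Pat.lt_of_mem hf hs)
    (fun s => (p ++ 0 :: q).getD s 0)
  refine ⟨A, B, e, he, fun x => ?_⟩
  rw [← h x]
  unfold Fp
  have e1 : (p ++ x :: q).length = p.length + q.length + 1 := by
    rw [List.length_append, List.length_cons]; omega
  rw [e1]
  congr 1
  funext s
  exact getD_slot p q 0 x s

theorem Fp_rec {p q : List ℤ} {l : ℕ} {f : Pat} (hf : f ∈ Pat.PN (p.length + q.length + 1) l)
    (a : ℤ) : Fp (p ++ (a + 1) :: q) f = Fp (p ++ a :: q) f - Fp (p ++ (a - 1) :: q) f := by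
  obtain ⟨A, B, e, he, h⟩ := Fp_slot hf
  rw [h, h, h]
  rcases he with rfl | rfl
  · have := kap_rec (B + 1 * a)
    rw [show B + 1 * (a + 1) = B + 1 * a + 1 by ring, show B + 1 * (a - 1) = B + 1 * a - 1 by ring,
      this]
    ring
  · have := kap_rec' (B + -1 * a)
    rw [show B + -1 * (a + 1) = B + -1 * a - 1 by ring,
      show B + -1 * (a - 1) = B + -1 * a + 1 by ring, this]
    ring

theorem Fp_cup {p q : List ℤ} {f : Pat} (a b : ℤ) :
    Fp (p ++ a :: b :: q) (Pat.c p.length f) = kap (b - a) * Fp (p ++ q) f := by
  unfold Fp
  have e1 : (p ++ a :: b :: q).length = (p ++ q).length + 2 := by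
    rw [List.length_append, List.length_append, List.length_cons, List.length_cons]; omega
  rw [e1, Pat.fn_c, Kfun_cup (H := fun s => (p ++ q).getD s 0)
    (by rw [List.length_append]; omega) (fun s => getD_up p q a b s)]
  congr 3
  · rw [List.getD_append_right _ _ _ _ (by omega)]
    have : p.length + 1 - p.length = 0 + 1 := by omega
    rw [this, List.getD_cons_succ, List.getD_cons_zero]
  · rw [List.getD_append_right _ _ _ _ (by omega), Nat.sub_self, List.getD_cons_zero]

/-- solution of the recursion -/
theorem rec_solve {φ : ℤ → ℤ} (h : ∀ a, φ (a + 1) = φ a - φ (a - 1)) (g x : ℤ) :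
    φ x = kap (x - g) * φ g - kap (x - g - 1) * φ (g - 1) := by
  have key : ∀ n : ℕ, (φ (g + n) = kap n * φ g - kap (n - 1) * φ (g - 1) ∧
      φ (g + n - 1) = kap (n - 1) * φ g - kap (n - 2) * φ (g - 1)) ∧
      (φ (g - n) = kap (-n) * φ g - kap (-n - 1) * φ (g - 1) ∧
      φ (g - n - 1) = kap (-n - 1) * φ g - kap (-n - 2) * φ (g - 1)) := by
    intro n
    induction n with
    | zero => simp
    | succ n ih =>
      obtain ⟨⟨h1, h2⟩, h3, h4⟩ := ih
      refine ⟨⟨?_, ?_⟩, ?_, ?_⟩
      · have a1 := h (g + n)
        have a2 := kap_rec n
        have a3 := kap_rec (n - 1)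
        push_cast
        rw [show g + ((n : ℤ) + 1) = g + n + 1 by ring, a1, h1, h2, a2,
          show (n : ℤ) + 1 - 1 = n - 1 + 1 by ring, a3, show (n : ℤ) - 1 - 1 = n - 2 by ring]
        ring
      · push_cast
        rw [show g + ((n : ℤ) + 1) - 1 = g + n by ring, h1, show (n : ℤ) + 1 - 1 = n by ring,
          show (n : ℤ) + 1 - 2 = n - 1 by ring]
      · push_cast
        rw [show g - ((n : ℤ) + 1) = g - n - 1 by ring, h4,
          show -((n : ℤ) + 1) = -n - 1 by ring, show -(n : ℤ) - 1 - 1 = -n - 2 by ring]
      · have a1 := h (g - n - 1)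
        have a2 := kap_rec (-n - 1)
        have a3 := kap_rec (-n - 2)
        push_cast
        rw [show g - (n : ℤ) - 1 + 1 = g - n by ring] at a1
        rw [show -(n : ℤ) - 1 + 1 = -n by ring, show -(n : ℤ) - 1 - 1 = -n - 2 by ring] at a2
        rw [show -(n : ℤ) - 2 + 1 = -n - 1 by ring] at a3
        rw [show g - ((n : ℤ) + 1) - 1 = g - n - 1 - 1 by ring,
          show -((n : ℤ) + 1) - 1 = -n - 2 by ring, show -((n : ℤ) + 1) - 2 = -n - 2 - 1 by ring]
        have e1 : φ (g - n - 1 - 1) = φ (g - n - 1) - φ (g - n) := by rw [a1]; ring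
        have e2 : kap (-(n : ℤ) - 2) = kap (-n - 1) - kap (-n) := by rw [a2]; ring
        have e3 : kap (-(n : ℤ) - 2 - 1) = kap (-n - 2) - kap (-n - 1) := by rw [a3]; ring
        rw [e1, h4, h3, e3, e2]
        ring
  rcases le_total g x with hx | hx
  · obtain ⟨n, hn⟩ := Int.eq_ofNat_of_zero_le (sub_nonneg.2 hx)
    have := (key n).1.1
    rw [show x = g + n by rw [← hn]; ring, this]
    congr 3 <;> ring_nf
  · obtain ⟨n, hn⟩ := Int.eq_ofNat_of_zero_le (sub_nonneg.2 hx)
    have := (key n).2.1
    rw [show x = g - n by rw [← hn]; ring, this]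
    congr 3 <;> ring_nf

/-- the same from the right -/
theorem rec_solve' {φ : ℤ → ℤ} (h : ∀ a, φ (a + 1) = φ a - φ (a - 1)) (g x : ℤ) :
    φ x = kap (g - x) * φ g - kap (g - 1 - x) * φ (g + 1) := by
  have h2 : ∀ a, (fun y => φ (-y)) (a + 1) = (fun y => φ (-y)) a - (fun y => φ (-y)) (a - 1) := by
    intro a
    have := h (-a)
    dsimp only
    rw [show -(a + 1) = -a - 1 by ring, show -(a - 1) = -a + 1 by ring, this]
    ring
  have := rec_solve (φ := fun y => φ (-y)) h2 (-g) (-x)
  rw [neg_neg, neg_neg, show -(-g - 1) = g + 1 by ring, show -x - -g = g - x by ring,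
    show g - x - 1 = g - 1 - x by ring] at this
  exact this

theorem Fo_cup {p q : List ℤ} {o : Option Pat} (a b : ℤ) :
    Fo (p ++ a :: b :: q) (o.map (Pat.c p.length)) = kap (b - a) * Fo (p ++ q) o := by
  cases o with
  | none => simp
  | some f => simp only [Option.map_some, Fo_some, Fp_cup]

theorem Fp_vac (a b : ℤ) : Fp [a, b] Pat.vac = kap (1 + (a + b)) := by
  unfold Fp Kfun
  simp [Finset.sum_range_succ]

theorem Fp_cap : ∀ (N : ℕ) (f : Pat), f ∈ Pat.PN (N + 2) 2 → ∀ (p q : List ℤ) (g : ℤ),
    p.length + q.length = N →
    Fo (p ++ q) (Pat.k p.length f) =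
      Fp (p ++ g :: g :: q) f - Fp (p ++ (g - 1) :: (g + 1) :: q) f := by
  intro N
  induction N using Nat.strong_induction_on with
  | _ N ih =>
    intro f hf p q g hpq
    rcases Pat.PNind hf with ⟨h1, rfl, _⟩ | ⟨M, g', j, h1, hj, hg', rfl⟩
    · have hp : p = [] := List.eq_nil_of_length_eq_zero (by omega)
      have hq : q = [] := List.eq_nil_of_length_eq_zero (by omega)
      subst hp
      subst hq
      rw [Pat.k_vac, Fo_none, List.nil_append, List.nil_append, Fp_vac, Fp_vac,
        show g - 1 + (g + 1) = g + g by ring, sub_self]
    · have hM : M = N := by omega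
      subst hM
      have hM2 : 2 ≤ M := (Pat.mem_PN.1 hg').le
      obtain ⟨M', rfl⟩ : ∃ M', M = M' + 2 := ⟨M - 2, by omega⟩
      rcases Nat.lt_trichotomy p.length j with h2 | h2 | h2
      · rcases Nat.lt_or_ge (p.length + 1) j with h3 | h3
        · -- the cup is far to the right
          obtain ⟨t, rfl⟩ : ∃ t, j = p.length + t + 2 := ⟨j - p.length - 2, by omega⟩
          obtain ⟨q1, q', rfl, hq1⟩ : ∃ q1 q', q = q1 ++ q' ∧ q1.length = t :=
            ⟨q.take t, q.drop t, (List.take_append_drop t q).symm,
              List.length_take_of_le (by omega)⟩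
          rw [List.length_append] at hpq
          obtain ⟨a, q2, rfl⟩ : ∃ a q2, q' = a :: q2 := by
            cases q' with
            | nil => simp only [List.length_nil] at hpq; omega
            | cons a q2 => exact ⟨a, q2, rfl⟩
          obtain ⟨b, q2, rfl⟩ : ∃ b q3, q2 = b :: q3 := by
            cases q2 with
            | nil => simp only [List.length_nil, List.length_cons] at hpq; omega
            | cons b q3 => exact ⟨b, q3, rfl⟩
          rw [List.length_cons, List.length_cons] at hpq
          rw [Pat.k_c_gt (by omega)]
          have hl1 : (p ++ q1).length = p.length + t := by rw [List.length_append, hq1]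
          have hl2 : ∀ x y : ℤ, (p ++ x :: y :: q1).length = p.length + t + 2 := fun x y => by
            rw [List.length_append, List.length_cons, List.length_cons, hq1]; omega
          have e1 : Fo (p ++ (q1 ++ a :: b :: q2)) ((Pat.k p.length g').map (Pat.c (p.length + t))) =
              kap (b - a) * Fo (p ++ (q1 ++ q2)) (Pat.k p.length g') := by
            have := Fo_cup (p := p ++ q1) (q := q2) (o := Pat.k p.length g') a b
            rw [hl1] at this
            simpa only [List.append_assoc] using this
          have e2 : ∀ x y : ℤ, Fp (p ++ x :: y :: (q1 ++ a :: b :: q2))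
              (Pat.c (p.length + t + 2) g') = kap (b - a) * Fp (p ++ x :: y :: (q1 ++ q2)) g' := by
            intro x y
            have := Fp_cup (p := p ++ x :: y :: q1) (q := q2) (f := g') a b
            rw [hl2] at this
            simpa only [List.append_assoc, List.cons_append] using this
          have e3 := ih M' (by omega) g' hg' p (q1 ++ q2) g (by rw [List.length_append]; omega)
          rw [e1, e2, e2, e3]
          ring
        · -- the cup is at `i + 1`
          have hj1 : j = p.length + 1 := by omega
          subst hj1
          obtain ⟨x, q', rfl⟩ : ∃ a q2, q = a :: q2 := by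
            cases q with
            | nil => simp only [List.length_nil] at hpq; omega
            | cons a q2 => exact ⟨a, q2, rfl⟩
          rw [Pat.kcr, Fo_some]
          have e2 : ∀ y z : ℤ, Fp (p ++ y :: z :: x :: q') (Pat.c (p.length + 1) g') =
              kap (x - z) * Fp (p ++ y :: q') g' := by
            intro y z
            have := Fp_cup (p := p ++ [y]) (q := q') (f := g') z x
            simpa only [List.append_assoc, List.cons_append, List.nil_append, List.length_append,
              List.length_singleton] using this
          rw [e2, e2]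
          have hl : g' ∈ Pat.PN (p.length + q'.length + 1) 2 := by
            rw [List.length_cons] at hpq
            rw [show p.length + q'.length + 1 = M' + 2 by omega]
            exact hg'
          have := rec_solve (φ := fun y => Fp (p ++ y :: q') g') (fun a => Fp_rec hl a) g x
          rw [this, show x - (g + 1) = x - g - 1 by ring]
      · -- the cup is at `i`
        subst h2
        rw [Pat.kc, Fo_some, Fp_cup, Fp_cup, sub_self, show g + 1 - (g - 1) = 2 by ring, kap_zero,
          kap_two]
        ring
      · rcases Nat.lt_or_ge (j + 1) p.length with h3 | h3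
        · -- the cup is far to the left
          obtain ⟨p1, p', rfl, hp1⟩ : ∃ p1 p', p = p1 ++ p' ∧ p1.length = j :=
            ⟨p.take j, p.drop j, (List.take_append_drop j p).symm,
              List.length_take_of_le (by omega)⟩
          subst hp1
          rw [List.length_append] at hpq h2 h3
          obtain ⟨a, p2, rfl⟩ : ∃ a q2, p' = a :: q2 := by
            cases p' with
            | nil => simp only [List.length_nil] at h2; omega
            | cons a q2 => exact ⟨a, q2, rfl⟩
          obtain ⟨b, p2, rfl⟩ : ∃ b q3, p2 = b :: q3 := by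
            cases p2 with
            | nil => simp only [List.length_nil, List.length_cons] at h3; omega
            | cons b q3 => exact ⟨b, q3, rfl⟩
          rw [List.length_cons, List.length_cons] at hpq
          have hl : (p1 ++ a :: b :: p2).length = p1.length + p2.length + 2 := by
            rw [List.length_append, List.length_cons, List.length_cons]; omega
          rw [hl, Pat.k_c_lt (by omega)]
          have e1 : Fo (p1 ++ a :: b :: p2 ++ q)
              ((Pat.k (p1.length + p2.length) g').map (Pat.c p1.length)) =
              kap (b - a) * Fo (p1 ++ p2 ++ q) (Pat.k (p1.length + p2.length) g') := by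
            have := Fo_cup (p := p1) (q := p2 ++ q) (o := Pat.k (p1.length + p2.length) g') a b
            simpa only [List.append_assoc, List.cons_append] using this
          have e2 : ∀ x y : ℤ, Fp (p1 ++ a :: b :: p2 ++ x :: y :: q)
              (Pat.c p1.length g') = kap (b - a) * Fp (p1 ++ p2 ++ x :: y :: q) g' := by
            intro x y
            have := Fp_cup (p := p1) (q := p2 ++ x :: y :: q) (f := g') a b
            simpa only [List.append_assoc, List.cons_append] using this
          have e3 := ih M' (by omega) g' hg' (p1 ++ p2) q g (by rw [List.length_append]; omega)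
          rw [List.length_append] at e3
          rw [e1, e2, e2, e3]
          ring
        · -- the cup is at `i - 1`
          have hj1 : p.length = j + 1 := by omega
          obtain ⟨p', x, rfl⟩ : ∃ p' x, p = p' ++ [x] := by
            rcases List.eq_nil_or_concat p with rfl | ⟨p', x, h⟩
            · simp at hj1
            · exact ⟨p', x, by rw [h, List.concat_eq_append]⟩
          rw [List.length_append, List.length_singleton] at hj1 hpq
          have hj2 : j = p'.length := by omega
          subst hj2
          rw [List.length_append, List.length_singleton, Pat.kcl, Fo_some]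
          have e2 : ∀ y z : ℤ, Fp (p' ++ [x] ++ y :: z :: q) (Pat.c p'.length g') =
              kap (y - x) * Fp (p' ++ z :: q) g' := by
            intro y z
            have := Fp_cup (p := p') (q := z :: q) (f := g') x y
            simpa only [List.append_assoc, List.cons_append, List.nil_append] using this
          rw [e2, e2]
          have hl : g' ∈ Pat.PN (p'.length + q.length + 1) 2 := by
            rw [show p'.length + q.length + 1 = M' + 2 by omega]
            exact hg'
          have := rec_solve' (φ := fun y => Fp (p' ++ y :: q) g') (fun a => Fp_rec hl a) g x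
          have e4 : p' ++ [x] ++ q = p' ++ x :: q := by simp
          rw [e4, this]

/-! ### the family of functionals -/

variable (K : Type*) [Field K]

/-- the linear functional -/
noncomputable def FK (h : List ℤ) : (Pat →₀ K) →ₗ[K] K :=
  Finsupp.linearCombination K fun f => (Fp h f : K)

@[simp] theorem FK_single (h : List ℤ) (f : Pat) (a : K) :
    FK K h (Finsupp.single f a) = a * (Fp h f : K) := by
  rw [FK, Finsupp.linearCombination_single, smul_eq_mul]

theorem FK_toV (h : List ℤ) (o : Option Pat) : FK K h (_root_.Rect.Alg.toV K o) = (Fo h o : K) := by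
  cases o with
  | none => simp
  | some g => simp

/-- two linear functionals which agree on the patterns agree on the module -/
theorem eq_on_W {N l : ℕ} {A B : (Pat →₀ K) →ₗ[K] K}
    (h : ∀ f ∈ Pat.PN N l, A (Finsupp.single f 1) = B (Finsupp.single f 1)) {v : Pat →₀ K}
    (hv : v ∈ patSys.W K N l) : A v = B v := by
  rw [_root_.Rect.Alg.PatSys.W_eq_span] at hv
  refine LinearMap.eqOn_span ?_ hv
  rintro _ ⟨f, hf, rfl⟩
  exact h f hf

/-- the height functionals on the patterns with two defects -/
noncomputable def hfam : HFam (patSys.tower K) 2 where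
  W N := patSys.W K N 2
  F := FK K
  c_mem hv hi := patSys.c_mem K hi hv
  k_mem hv hi := patSys.k_mem K hi hv
  rec' p q a v hv := by
    have := eq_on_W K (N := p.length + q.length + 1) (l := 2) (A := FK K (p ++ (a + 1) :: q))
      (B := FK K (p ++ a :: q) - FK K (p ++ (a - 1) :: q)) (fun f hf => by
        rw [LinearMap.sub_apply, FK_single, FK_single, FK_single, Fp_rec hf]
        push_cast
        ring) hv
    rw [this, LinearMap.sub_apply]
  cup p q a b v hv := by
    have := eq_on_W K (N := p.length + q.length) (l := 2)
      (A := FK K (p ++ a :: b :: q) ∘ₗ (patSys.tower K).c p.length)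
      (B := (kap (b - a) : K) • FK K (p ++ q)) (fun f _ => by
        rw [LinearMap.comp_apply, patSys.tower_c, LinearMap.smul_apply, FK_single, FK_single]
        change 1 * ((Fp (p ++ a :: b :: q) (Pat.c p.length f) : ℤ) : K) = _
        rw [Fp_cup, smul_eq_mul]
        push_cast
        ring) hv
    rw [LinearMap.comp_apply, LinearMap.smul_apply, smul_eq_mul] at this
    exact this
  cap p q g v hv := by
    have := eq_on_W K (N := p.length + q.length + 2) (l := 2)
      (A := FK K (p ++ q) ∘ₗ (patSys.tower K).k p.length)
      (B := FK K (p ++ g :: g :: q) - FK K (p ++ (g - 1) :: (g + 1) :: q)) (fun f hf => by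
        rw [LinearMap.comp_apply, patSys.tower_k, one_smul, FK_toV, LinearMap.sub_apply,
          FK_single, FK_single]
        change ((Fo (p ++ q) (Pat.k p.length f) : ℤ) : K) = _
        rw [Fp_cap _ f hf p q g rfl]
        push_cast
        ring) hv
    rw [LinearMap.comp_apply, LinearMap.sub_apply] at this
    exact this
  gen k v hv := by
    rw [_root_.Rect.Alg.PatSys.W_eq_span] at hv
    refine Submodule.span_mono ?_ hv
    rintro _ ⟨f, hf, rfl⟩
    rcases Pat.PNind (show f ∈ Pat.PN (2 + 2 * (k + 1)) 2 from hf) with ⟨h1, _⟩ | ⟨M, g, i, h1, h2, h3, rfl⟩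
    · omega
    · have hM : M = 2 + 2 * k := by omega
      subst hM
      refine ⟨i, Finsupp.single g 1, h2, patSys.single_mem_W K h3 1, ?_⟩
      exact (patSys.tower_c K i g 1).symm

theorem hfam_W (N : ℕ) : (hfam K).W N = patSys.W K N 2 := rfl

theorem hfam_F_single (h : List ℤ) (f : Pat) :
    (hfam K).F h (Finsupp.single f 1) = (Fp h f : K) := by
  change FK K h _ = _
  rw [FK_single, one_mul]

end Pool.Agent.Rect.Herm
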