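import Pool.Agent.Rect.Herm.Inst
import Pool.Agent.Rect.Herm.HForm
import Pool.Agent.Rect.Alg.Gram

/-!
# The hidden scalar product on link patterns with two defects

`opn f s`: number of arcs of `f` which open before the strand `s`.
`Kfun_ne_zero_le`: if the functional of the heights `2 P s - s` (`P` monotone, `P ≤ k + D`) does not
vanish on the pattern `f` with `k` arcs, then `P s ≤ opn f s + D` (triangularity).
`inj_W`: a vector of `W N 2` killed by all functionals with `k` particles vanishes.
`Sf`: the scalar product `∑ F_x v F_x w`.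
-/

set_option autoImplicit false

namespace RectAlg

/-- number of arcs which open before the strand `s` -/
def opn (f : ℕ → ℕ) (s : ℕ) : ℤ := ∑ t ∈ Finset.range s, if t < f t then 1 else 0

theorem opn_zero (f : ℕ → ℕ) : opn f 0 = 0 := rfl

theorem opn_succ (f : ℕ → ℕ) (s : ℕ) : opn f (s + 1) = opn f s + if s < f s then 1 else 0 :=
  Finset.sum_range_succ _ _

theorem opn_mono (f : ℕ → ℕ) : Monotone (opn f) := by
  refine monotone_nat_of_le_succ fun s => ?_
  rw [opn_succ]
  split_ifs <;> omega

theorem opn_cup_le (f : ℕ → ℕ) {i s : ℕ} (h : s ≤ i) : opn (cupF i f) s = opn f s := by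
  unfold opn
  refine Finset.sum_congr rfl fun t ht => ?_
  have ht' : t < i := by have := Finset.mem_range.1 ht; omega
  have e : cupF i f t = up i (f t) := by
    have := cupF_up i f t
    rwa [up_lt ht'] at this
  rw [e]
  have e1 : (t < up i (f t)) ↔ t < f t := by
    unfold up
    split_ifs <;> omega
  simp only [e1]

theorem opn_cup_succ (f : ℕ → ℕ) (i : ℕ) : opn (cupF i f) (i + 1) = opn f i + 1 := by
  rw [opn_succ, opn_cup_le f le_rfl, cupF_i, if_pos (by omega)]

theorem opn_cup_add (f : ℕ → ℕ) {i s : ℕ} (h : i ≤ s) : opn (cupF i f) (s + 2) = opn f s + 1 := by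
  induction s, h using Nat.le_induction with
  | base => rw [opn_succ, opn_cup_succ, cupF_i1, if_neg (by omega)]; ring
  | succ s hs ih =>
    rw [show s + 1 + 2 = s + 2 + 1 by ring, opn_succ, ih, opn_succ]
    have e : cupF i f (s + 2) = up i (f s) := by
      have := cupF_up i f s
      rwa [up_ge hs] at this
    rw [e]
    have e1 : (s + 2 < up i (f s)) ↔ s < f s := by
      unfold up
      split_ifs <;> omega
    simp only [e1]
    ring

theorem Pat.Gn.opn_total {l N : ℕ} {f : Pat} (h : Pat.Gn l N f) :
    (l : ℤ) + 2 * opn f.fn N = N := by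
  induction h with
  | base =>
    have : opn Pat.vac.fn l = 0 := by
      unfold opn
      refine Finset.sum_eq_zero fun t _ => ?_
      rw [Pat.fn_vac, if_neg (by simp)]
    rw [this]
    ring
  | @cup N i f _ hi ih =>
    rw [Pat.fn_c, opn_cup_add _ hi]
    push_cast
    linarith

/-- an opening followed by something which is not an opening is a small arc -/
theorem Pat.Gn.small {l N : ℕ} {f : Pat} (h : Pat.Gn l N f) : ∀ {i : ℕ}, i < f.fn i →
    ¬ (i + 1 < f.fn (i + 1)) → ∃ g : Pat, f = Pat.c i g := by
  induction h with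
  | base => intro i h1 _; rw [Pat.fn_vac] at h1; exact absurd h1 (lt_irrefl i)
  | @cup N j f _ hj ih =>
    intro i h1 h2
    rw [Pat.fn_c] at h1 h2
    rcases Nat.lt_trichotomy i j with h3 | h3 | h3
    · rcases Nat.lt_or_ge (i + 1) j with h4 | h4
      · obtain ⟨j', rfl⟩ : ∃ j', j = j' + 2 := ⟨j - 2, by omega⟩
        have e1 : cupF (j' + 2) f.fn i = up (j' + 2) (f.fn i) := by
          have := cupF_up (j' + 2) f.fn i
          rwa [up_lt h3] at this
        have e2 : cupF (j' + 2) f.fn (i + 1) = up (j' + 2) (f.fn (i + 1)) := by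
          have := cupF_up (j' + 2) f.fn (i + 1)
          rwa [up_lt h4] at this
        rw [e1] at h1
        rw [e2] at h2
        have h1' : i < f.fn i := by
          unfold up at h1
          split_ifs at h1 <;> omega
        have h2' : ¬ (i + 1 < f.fn (i + 1)) := by
          intro h5
          apply h2
          unfold up
          split_ifs <;> omega
        obtain ⟨g, rfl⟩ := ih h1' h2'
        exact ⟨Pat.c j' g, (Pat.cc (by omega) g).symm⟩
      · have : j = i + 1 := by omega
        subst this
        rw [cupF_i] at h2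
        omega
    · subst h3
      exact ⟨f, rfl⟩
    · rcases Nat.lt_or_ge (j + 1) i with h4 | h4
      · obtain ⟨i', rfl⟩ : ∃ i', i = i' + 2 := ⟨i - 2, by omega⟩
        have e1 : cupF j f.fn (i' + 2) = up j (f.fn i') := by
          have := cupF_up j f.fn i'
          rwa [up_ge (by omega)] at this
        have e2 : cupF j f.fn (i' + 2 + 1) = up j (f.fn (i' + 1)) := by
          have := cupF_up j f.fn (i' + 1)
          rwa [up_ge (by omega)] at this
        rw [e1] at h1
        rw [e2] at h2
        have h1' : i' < f.fn i' := by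
          unfold up at h1
          split_ifs at h1 <;> omega
        have h2' : ¬ (i' + 1 < f.fn (i' + 1)) := by
          intro h5
          apply h2
          unfold up
          split_ifs <;> omega
        obtain ⟨g, rfl⟩ := ih h1' h2'
        exact ⟨Pat.c j g, Pat.cc (by omega) g⟩
      · have : i = j + 1 := by omega
        subst this
        rw [cupF_i1] at h1
        omega

/-- a planar pattern is determined by its openings -/
theorem Pat.Gn.ext_open {l N : ℕ} {f : Pat} (h : Pat.Gn l N f) : ∀ {f' : Pat}, Pat.Gn l N f' →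
    (∀ s, s < N → (s < f.fn s ↔ s < f'.fn s)) → f = f' := by
  induction h with
  | base =>
    intro f' h' _
    rcases h'.cases' with ⟨_, h2⟩ | ⟨M, g, i, h1, _, h3, _⟩
    · exact h2.symm
    · have := h3.le
      omega
  | @cup N i f hf hi ih =>
    intro f' h' ho
    have h1 : i < f'.fn i := by
      rw [← ho i (by omega), Pat.fn_c, cupF_i]
      omega
    have h2 : ¬ (i + 1 < f'.fn (i + 1)) := by
      rw [← ho (i + 1) (by omega), Pat.fn_c, cupF_i1]
      omega
    obtain ⟨g, rfl⟩ := h'.small h1 h2
    have hg : Pat.Gn l N g := h'.k rfl hi (Pat.kc i g)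
    have := ih hg fun s hs => by
      have h3 := ho (up i s) (by unfold up; split_ifs <;> omega)
      rw [Pat.fn_c, Pat.fn_c, cupF_up, cupF_up] at h3
      unfold up at h3
      split_ifs at h3 <;> omega
    rw [this]

theorem Pat.Gn.ext_opn {l N : ℕ} {f f' : Pat} (h : Pat.Gn l N f) (h' : Pat.Gn l N f')
    (ho : ∀ s, s ≤ N → opn f.fn s = opn f'.fn s) : f = f' := by
  refine h.ext_open h' fun s hs => ?_
  have h1 := ho s (by omega)
  have h2 := ho (s + 1) (by omega)
  rw [opn_succ, opn_succ, h1] at h2
  split_ifs at h2 with h3 h4 h4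
  · exact iff_of_true h3 h4
  · omega
  · omega
  · exact iff_of_false h3 h4

end RectAlg

namespace Pool.Agent.Rect.Herm
open Pool.Agent.Helper9.DR RectAlg Finset

/-- the heights of the particle numbers `P` -/
def hP (P : ℕ → ℤ) (s : ℕ) : ℤ := 2 * P s - s

/-- the particle numbers after the removal of a small arc -/
def rmP (i : ℕ) (P : ℕ → ℤ) (s : ℕ) : ℤ := if s < i then P s else P (s + 2) - 1

theorem hP_up (i : ℕ) (P : ℕ → ℤ) (s : ℕ) : hP P (up i s) = hP (rmP i P) s := by
  unfold hP up rmP
  split_ifs
  · rfl
  · push_cast; ring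

theorem Kfun_hP_cup {f : ℕ → ℕ} {N i : ℕ} (hi : i ≤ N) (P : ℕ → ℤ) :
    Kfun (cupF i f) (N + 2) (hP P) = kap (2 * (P (i + 1) - P i) - 1) * Kfun f N (hP (rmP i P)) := by
  rw [Kfun_cup hi (hP_up i P)]
  congr 2
  unfold hP
  push_cast
  ring

/-- **triangularity** -/
theorem Kfun_ne_zero_le {N : ℕ} {f : Pat} (h : Pat.Gn 2 N f) : ∀ {P : ℕ → ℤ} {D : ℤ},
    (∀ s, s + 1 < N → P s ≤ P (s + 1)) → (∀ s, s < N → P s ≤ opn f.fn N + D) →
    Kfun f.fn N (hP P) ≠ 0 → ∀ s, s < N → P s ≤ opn f.fn s + D := by
  induction h with
  | base =>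
    intro P D _ h2 _ s hs
    have e : ∀ s, opn Pat.vac.fn s = 0 := fun s => by
      unfold opn
      refine Finset.sum_eq_zero fun t _ => ?_
      rw [Pat.fn_vac, if_neg (by simp)]
    have := h2 s hs
    rw [e] at this ⊢
    exact this
  | @cup N i f hf hi ih =>
    intro P D h1 h2 h3
    rw [Pat.fn_c, Kfun_hP_cup hi] at h3
    have h4 : P i + 1 ≤ P (i + 1) := by
      have h5 := h1 i (by omega)
      rcases lt_or_eq_of_le h5 with h6 | h6
      · omega
      · exfalso
        apply h3
        rw [h6, sub_self, mul_zero, zero_sub, kap_neg_one, zero_mul]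
    rw [Pat.fn_c, opn_cup_add _ hi] at h2
    have hmono : ∀ s t, s ≤ t → t < N + 2 → P s ≤ P t := by
      intro s t hst
      induction t, hst using Nat.le_induction with
      | base => intro _; exact le_rfl
      | succ t _ ih2 => intro h5; exact (ih2 (by omega)).trans (h1 t (by omega))
    have key := ih (P := rmP i P) (D := D) (by
      intro s hs
      unfold rmP
      split_ifs with h5 h6 h6
      · exact h1 s (by omega)
      · have h7 := hmono s i (by omega) (by omega)
        have h8 := hmono (i + 1) (s + 1 + 2) (by omega) (by omega)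
        omega
      · omega
      · have := h1 (s + 2) (by omega)
        rw [show s + 1 + 2 = s + 2 + 1 by ring]
        omega) (by
      intro s hs
      unfold rmP
      split_ifs with h5
      · have h7 := hmono s i (by omega) (by omega)
        have h8 := h2 (i + 1) (by omega)
        omega
      · have h8 := h2 (s + 2) (by omega)
        omega) (right_ne_zero_of_mul h3)
    intro s hs
    rw [Pat.fn_c]
    rcases Nat.lt_or_ge s i with h5 | h5
    · rw [opn_cup_le _ h5.le]
      have := key s (by omega)
      unfold rmP at this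
      rwa [if_pos h5] at this
    · rcases Nat.lt_or_ge s (i + 2) with h6 | h6
      · -- the strands of the arc
        have hX : P (i + 1) ≤ opn f.fn i + 1 + D := by
          rcases Nat.lt_or_ge i N with h7 | h7
          · have h8 := key i h7
            unfold rmP at h8
            rw [if_neg (lt_irrefl i)] at h8
            have h9 := h1 (i + 1) (by omega)
            rw [show i + 1 + 1 = i + 2 by ring] at h9
            omega
          · have h8 := h2 (i + 1) (by omega)
            have : i = N := by omega
            subst this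
            exact h8
        rcases Nat.lt_or_ge s (i + 1) with h7 | h7
        · have : s = i := by omega
          subst this
          rw [opn_cup_le _ le_rfl]
          omega
        · have : s = i + 1 := by omega
          subst this
          rw [opn_cup_succ]
          exact hX
      · obtain ⟨t, rfl⟩ : ∃ t, s = t + 2 := ⟨s - 2, by omega⟩
        rw [opn_cup_add _ (by omega)]
        have h7 := key t (by omega)
        unfold rmP at h7
        rw [if_neg (by omega)] at h7
        omega

/-- **few particles**: the functional vanishes when there are less particles than arcs -/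
theorem Kfun_few {N : ℕ} {f : Pat} (h : Pat.Gn 2 N f) {P : ℕ → ℤ}
    (h1 : ∀ s, s + 1 < N → P s ≤ P (s + 1)) (h2 : P (N - 1) < P 0 + opn f.fn N) :
    Kfun f.fn N (hP P) = 0 := by
  by_contra hne
  have hN := h.le
  have hmono : ∀ s t, s ≤ t → t < N → P s ≤ P t := by
    intro s t hst
    induction t, hst using Nat.le_induction with
    | base => intro _; exact le_rfl
    | succ t _ ih2 => intro h5; exact (ih2 (by omega)).trans (h1 t (by omega))
  have := Kfun_ne_zero_le h (P := P) (D := P (N - 1) - opn f.fn N) h1 (fun s hs => by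
    have := hmono s (N - 1) (by omega) (by omega)
    omega) hne 0 (by omega)
  rw [opn_zero] at this
  omega

/-- the diagonal -/
theorem Kfun_opn {N : ℕ} {f : Pat} (h : Pat.Gn 2 N f) : Kfun f.fn N (hP (opn f.fn)) = 1 := by
  induction h with
  | base =>
    have e : ∀ s, opn (id : ℕ → ℕ) s = 0 := fun s => by
      unfold opn
      refine Finset.sum_eq_zero fun t _ => ?_
      rw [if_neg (by simp)]
    unfold Kfun hP
    simp [Finset.sum_range_succ, e]
  | @cup N i f hf hi ih =>
    have e : rmP i (opn (Pat.c i f).fn) = opn f.fn := by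
      funext s
      unfold rmP
      rw [Pat.fn_c]
      split_ifs with h1
      · exact opn_cup_le _ h1.le
      · rw [opn_cup_add _ (by omega)]
        ring
    rw [show (Pat.c i f).fn = cupF i f.fn from rfl] at e ⊢
    rw [Kfun_hP_cup hi, e, ih, opn_cup_succ, opn_cup_le _ le_rfl,
      show 2 * (opn f.fn i + 1 - opn f.fn i) - 1 = 1 by ring, kap_one, mul_one]

/-! ### lists of bits -/

theorem getD_hs (x : List Bool) : ∀ (a : ℤ) (s : ℕ), s ≤ x.length →
    (a :: hs a x).getD s 0 = a + 2 * cnt (x.take s) - s := by
  induction x with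
  | nil =>
    intro a s hs
    have : s = 0 := by simpa using hs
    subst this
    simp [cnt_nil]
  | cons n l ih =>
    intro a s hs'
    cases s with
    | zero => simp [cnt_nil]
    | succ s =>
      have h1 : s ≤ l.length := by simpa using hs'
      have h2 := ih (st a n) s h1
      rw [hs, List.getD_cons_succ, h2, List.take_succ_cons, cnt_cons]
      cases n
      · rw [st_false, bn_false]; push_cast; ring
      · rw [st_true, bn_true]; push_cast; ring

theorem cnt_take_succ (x : List Bool) : ∀ (s : ℕ), s < x.length →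
    cnt (x.take (s + 1)) = cnt (x.take s) + bn (x.getD s false) := by
  induction x with
  | nil => intro s hs'; simp at hs'
  | cons n l ih =>
    intro s hs'
    cases s with
    | zero => simp [cnt_cons, cnt_nil]
    | succ s =>
      rw [List.take_succ_cons, cnt_cons, ih s (by simpa using hs'), List.take_succ_cons, cnt_cons,
        List.getD_cons_succ]
      ring

theorem cnt_take_mono (x : List Bool) {s : ℕ} (hs' : s < x.length) :
    (cnt (x.take s) : ℤ) ≤ cnt (x.take (s + 1)) := by
  rw [cnt_take_succ x s hs']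
  push_cast
  exact le_add_of_nonneg_right (by positivity)

theorem cnt_take_le (x : List Bool) (s : ℕ) : cnt (x.take s) ≤ cnt x :=
  (List.take_sublist s x).count_le true

theorem Fp_eq (x : List Bool) {f : Pat} (hf : f ∈ Pat.PN (x.length + 1) 2) :
    Fp (0 :: hs 0 x) f = Kfun f.fn (x.length + 1) (hP fun s => cnt (x.take s)) := by
  unfold Fp
  rw [List.length_cons, hs_length]
  refine Kfun_congr (fun s hs' => Pat.lt_of_mem hf hs') fun s hs' => ?_
  rw [getD_hs x 0 s (by omega)]
  unfold hP
  ring

/-- the particles of a pattern -/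
def ox (f : ℕ → ℕ) (m : ℕ) : List Bool := (List.range m).map fun s => decide (s < f s)

theorem ox_length (f : ℕ → ℕ) (m : ℕ) : (ox f m).length = m := by simp [ox]

theorem cnt_ox (f : ℕ → ℕ) (m : ℕ) : (cnt (ox f m) : ℤ) = opn f m := by
  induction m with
  | zero => simp [ox, cnt_nil, opn_zero]
  | succ m ih =>
    rw [opn_succ, ← ih]
    have : ox f (m + 1) = ox f m ++ [decide (m < f m)] := by
      simp [ox, List.range_succ]
    rw [this]
    unfold cnt
    rw [List.count_append]
    by_cases h : m < f m
    · simp [h]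
    · simp [h]

theorem ox_take (f : ℕ → ℕ) {m s : ℕ} (h : s ≤ m) : (ox f m).take s = ox f s := by
  unfold ox
  rw [← List.map_take, List.take_range, min_eq_left h]

theorem last_not_open {l N : ℕ} {f : Pat} (h : f ∈ Pat.PN (N + 1) l) : ¬ (N < f.fn N) := by
  have := Pat.lt_of_mem h (s := N) (by omega)
  omega

theorem opn_top {N : ℕ} {f : Pat} (h : f ∈ Pat.PN (N + 1) 2) :
    2 + 2 * opn f.fn N = N + 1 := by
  have h1 := (Pat.mem_PN.1 h).opn_total
  rw [opn_succ, if_neg (last_not_open h)] at h1
  push_cast at h1
  linarith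

/-- the functional of the openings of `f` on `f` -/
theorem Fp_ox_self {m : ℕ} {f : Pat} (hf : f ∈ Pat.PN (m + 1) 2) :
    Fp (0 :: hs 0 (ox f.fn m)) f = 1 := by
  have hf' : f ∈ Pat.PN ((ox f.fn m).length + 1) 2 := by rwa [ox_length]
  rw [Fp_eq _ hf', ox_length, ← Kfun_opn (Pat.mem_PN.1 hf)]
  refine Kfun_congr (fun s hs' => Pat.lt_of_mem hf hs') fun s hs' => ?_
  unfold hP
  beta_reduce
  rw [ox_take _ (by omega), cnt_ox]

/-- triangularity for bits -/
theorem Fp_ne_zero_le {x : List Bool} {f : Pat} (hf : f ∈ Pat.PN (x.length + 1) 2)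
    (hc : 2 + 2 * cnt x = x.length + 1) (h : Fp (0 :: hs 0 x) f ≠ 0) :
    ∀ s, s ≤ x.length → (cnt (x.take s) : ℤ) ≤ opn f.fn s := by
  intro s hs'
  rw [Fp_eq x hf] at h
  have h1 := opn_top hf
  have := Kfun_ne_zero_le (Pat.mem_PN.1 hf) (P := fun s => cnt (x.take s)) (D := 0)
    (fun s hs' => cnt_take_mono x (by omega)) (fun s _ => by
      have h2 := cnt_take_le x s
      have h3 := opn_mono f.fn (Nat.le_succ x.length)
      have h4 : (cnt (x.take s) : ℤ) ≤ cnt x := by exact_mod_cast h2
      have h5 : (2 : ℤ) + 2 * cnt x = x.length + 1 := by exact_mod_cast hc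
      rw [Nat.succ_eq_add_one] at h3
      linarith) h s (by omega)
  simpa using this

theorem eq_of_cnt_take {x y : List Bool} (hl : x.length = y.length)
    (h : ∀ s, s ≤ x.length → cnt (x.take s) = cnt (y.take s)) : x = y := by
  refine List.ext_getElem hl fun s h1 h2 => ?_
  have e1 := h s h1.le
  have e2 := h (s + 1) h1
  rw [cnt_take_succ x s h1, cnt_take_succ y s h2, e1] at e2
  have e3 : bn (x.getD s false) = bn (y.getD s false) := by omega
  rw [List.getD_eq_getElem _ _ h1, List.getD_eq_getElem _ _ h2] at e3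
  revert e3
  cases x[s] <;> cases y[s] <;> simp [bn]

/-- **the functionals separate the vectors** -/
theorem inj_W (K : Type*) [Field K] [CharZero K] {m k : ℕ} (hm : m + 1 = 2 + 2 * k) {v : Pat →₀ K}
    (hv : v ∈ patSys.W K (m + 1) 2)
    (h : ∀ l : List Bool, l.length = m → cnt l = k → (hfam K).Fn 0 l v = 0) : v = 0 := by
  classical
  by_contra hne
  have hmem : ∀ f ∈ v.support, f ∈ Pat.PN (m + 1) 2 := fun f hf =>
    (patSys.mem_W K).1 hv f (Finsupp.mem_support_iff.1 hf)
  obtain ⟨w, hw, hmax⟩ := Finset.exists_max_image v.support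
    (fun f => ∑ s ∈ range (m + 1), opn f.fn s) (Finsupp.support_nonempty_iff.2 hne)
  have hwP := hmem w hw
  have hcw : cnt (ox w.fn m) = k := by
    have h1 := opn_top hwP
    rw [← cnt_ox] at h1
    have h2 : (m : ℤ) + 1 = 2 + 2 * k := by exact_mod_cast hm
    have : (cnt (ox w.fn m) : ℤ) = k := by linarith
    exact_mod_cast this
  have hval : (hfam K).Fn 0 (ox w.fn m) v = v w := by
    change FK K (0 :: hs 0 (ox w.fn m)) v = v w
    rw [FK, Finsupp.linearCombination_apply, Finsupp.sum, Finset.sum_eq_single w]
    · rw [Fp_ox_self hwP]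
      simp
    · intro f hf hfw
      have hfP := hmem f hf
      by_contra hF
      have hF' : Fp (0 :: hs 0 (ox w.fn m)) f ≠ 0 := by
        intro h0
        apply hF
        rw [h0]
        simp
      have hfP' : f ∈ Pat.PN ((ox w.fn m).length + 1) 2 := by rwa [ox_length]
      have hle := Fp_ne_zero_le hfP' (by rw [ox_length, hcw]; omega) hF'
      rw [ox_length] at hle
      have hle' : ∀ s ∈ range (m + 1), opn w.fn s ≤ opn f.fn s := fun s hs' => by
        have hs2 : s ≤ m := by have := mem_range.1 hs'; omega
        have := hle s hs2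
        rwa [ox_take _ hs2, cnt_ox] at this
      have heq := (Finset.sum_eq_sum_iff_of_le hle').1
        (le_antisymm (Finset.sum_le_sum hle') (hmax f hf))
      apply hfw
      refine (Pat.mem_PN.1 hfP).ext_opn (Pat.mem_PN.1 hwP) fun s hs' => ?_
      rcases Nat.lt_or_ge s (m + 1) with h1 | h1
      · exact (heq s (mem_range.2 h1)).symm
      · have : s = m + 1 := by omega
        subst this
        rw [opn_succ, opn_succ, if_neg (last_not_open hfP), if_neg (last_not_open hwP),
          heq m (mem_range.2 (by omega))]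
    · intro h0
      rw [Finsupp.notMem_support_iff.1 h0]
      simp
  rw [h _ (ox_length _ _) hcw] at hval
  exact (Finsupp.mem_support_iff.1 hw) hval.symm

/-- **the hidden scalar product is positive definite** -/
theorem Sf_pos {m k : ℕ} (hm : m + 1 = 2 + 2 * k) {v : Pat →₀ ℝ}
    (hv : v ∈ patSys.W ℝ (m + 1) 2) (hne : v ≠ 0) : 0 < (hfam ℝ).Sf m k v v := by
  refine lt_of_le_of_ne ((hfam ℝ).Sf_nonneg m k v) fun h0 => hne ?_
  exact inj_W ℝ hm hv fun l hl hc => (hfam ℝ).Sf_eq_zero h0.symm l hl hc

/-! ### the boundary vector -/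

/-- `|()()..()|` with `k` arcs -/
noncomputable def bk (k : ℕ) : Pat := patSys.bp k

theorem bk_zero : bk 0 = Pat.vac := rfl

theorem bk_succ (k : ℕ) : bk (k + 1) = Pat.c 1 (bk k) := patSys.bp_succ k

theorem bk_mem (k : ℕ) : bk k ∈ Pat.PN (2 * k + 2) 2 := patSys.bp_mem k

theorem c_bk {k j : ℕ} (h : j ≤ k) : Pat.c (2 * j + 1) (bk k) = bk (k + 1) := patSys.c_bp k j h

theorem opn_bk : ∀ (k s : ℕ), s ≤ 2 * k + 1 → opn (bk k).fn s = (s / 2 : ℕ) := by
  intro k
  induction k with
  | zero =>
    intro s hs'
    have e : ∀ s, opn (bk 0).fn s = 0 := fun s => by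
      unfold opn
      refine Finset.sum_eq_zero fun t _ => ?_
      rw [bk_zero, Pat.fn_vac, if_neg (by simp)]
    rw [e]
    have : s / 2 = 0 := by omega
    rw [this]
    rfl
  | succ k ih =>
    intro s hs'
    rw [bk_succ, Pat.fn_c]
    rcases Nat.lt_or_ge s 2 with h | h
    · rw [opn_cup_le _ (by omega), ih s (by omega)]
    · obtain ⟨t, rfl⟩ : ∃ t, s = t + 2 := ⟨s - 2, by omega⟩
      rcases Nat.eq_zero_or_pos t with h1 | h1
      · subst h1
        rw [zero_add, show (2 : ℕ) = 1 + 1 by rfl, opn_cup_succ, ih 1 (by omega)]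
        norm_num
      · rw [opn_cup_add _ h1, ih t (by omega)]
        push_cast
        omega

/-- the alternating heights see only `|()()..()|` -/
theorem Kfun_alt {N : ℕ} {f : Pat} (h : Pat.Gn 2 N f) :
    Kfun f.fn N (hP fun s => (s / 2 : ℕ)) = if f = bk ((N - 2) / 2) then 1 else 0 := by
  classical
  induction h with
  | base =>
    rw [if_pos (by rfl)]
    unfold Kfun hP
    simp [Finset.sum_range_succ]
  | @cup N i f hf hi ih =>
    have hN := hf.le
    have hpar : 2 ∣ N := by
      have := hf.opn_total
      omega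
    have e : rmP i (fun s => ((s / 2 : ℕ) : ℤ)) = fun s => ((s / 2 : ℕ) : ℤ) := by
      funext s
      unfold rmP
      split_ifs
      · rfl
      · beta_reduce
        omega
    rw [show (Pat.c i f).fn = cupF i f.fn from rfl, Kfun_hP_cup hi, e, ih]
    obtain ⟨k, rfl⟩ : ∃ k, N = 2 * k + 2 := ⟨(N - 2) / 2, by omega⟩
    rw [show (2 * k + 2 - 2) / 2 = k by omega, show (2 * k + 2 + 2 - 2) / 2 = k + 1 by omega]
    rcases Nat.even_or_odd' i with ⟨j, rfl | rfl⟩
    · -- even position
      have e1 : (((2 * j + 1) / 2 : ℕ) : ℤ) = ((2 * j / 2 : ℕ) : ℤ) := by omega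
      have hne : Pat.c (2 * j) f ≠ bk (k + 1) := by
        intro h1
        have h2 : opn (Pat.c (2 * j) f).fn (2 * j + 1) = opn (Pat.c (2 * j) f).fn (2 * j) + 1 := by
          rw [Pat.fn_c, opn_cup_succ, opn_cup_le _ le_rfl]
        rw [h1, opn_bk _ _ (by omega), opn_bk _ _ (by omega)] at h2
        omega
      rw [if_neg hne, e1, sub_self, mul_zero, zero_sub, kap_neg_one, zero_mul]
    · -- odd position
      have e1 : (((2 * j + 1 + 1) / 2 : ℕ) : ℤ) = (((2 * j + 1) / 2 : ℕ) : ℤ) + 1 := by omega
      have hiff : Pat.c (2 * j + 1) f = bk (k + 1) ↔ f = bk k := by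
        rw [← c_bk (show j ≤ k by omega)]
        constructor
        · intro h1
          have h2 := congrArg (Pat.k (2 * j + 1)) h1
          rw [Pat.kc, Pat.kc, Option.some.injEq] at h2
          exact h2
        · rintro rfl
          rfl
      simp only [hiff]
      rw [e1, show 2 * ((((2 * j + 1) / 2 : ℕ) : ℤ) + 1 - (((2 * j + 1) / 2 : ℕ) : ℤ)) - 1 = 1 by ring,
        kap_one, one_mul]

/-- the particles of `|()()..()|` -/
theorem Fp_bk {x : List Bool} {k : ℕ} (hx : x.length = 2 * k + 1) (hc : cnt x = k) :
    Fp (0 :: hs 0 x) (bk k) = if x = ox (bk k).fn (2 * k + 1) then 1 else 0 := by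
  classical
  have hb : bk k ∈ Pat.PN (2 * k + 1 + 1) 2 := bk_mem k
  split_ifs with h
  · rw [h]
    exact Fp_ox_self hb
  · by_contra hne
    apply h
    have hb' : bk k ∈ Pat.PN (x.length + 1) 2 := by rw [hx]; exact hb
    have h1 := Fp_ne_zero_le hb' (by omega) hne
    rw [Fp_eq x hb', hx] at hne
    -- every arc `(2 j + 1, 2 j + 2)` contains a particle
    have key : ∀ (k : ℕ) (P : ℕ → ℤ), Kfun (bk k).fn (2 * k + 1 + 1) (hP P) ≠ 0 → ∀ j, j < k →
        P (2 * j + 2) ≠ P (2 * j + 1) := by
      intro k
      induction k with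
      | zero => intro P _ j hj; omega
      | succ k ih =>
        intro P hP' j hj
        rw [bk_succ, Pat.fn_c, show 2 * (k + 1) + 1 + 1 = (2 * k + 1 + 1) + 2 by ring,
          Kfun_hP_cup (by omega)] at hP'
        cases j with
        | zero =>
          intro h2
          apply left_ne_zero_of_mul hP'
          rw [show 2 * 0 + 2 = 1 + 1 by rfl, show 2 * 0 + 1 = 1 by rfl] at h2
          rw [h2, sub_self, mul_zero, zero_sub, kap_neg_one]
        | succ j =>
          have h2 := ih _ (right_ne_zero_of_mul hP') j (by omega)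
          unfold rmP at h2
          rw [if_neg (by omega), if_neg (by omega)] at h2
          intro h3
          apply h2
          rw [show 2 * j + 2 + 2 = 2 * (j + 1) + 2 by ring, h3,
            show 2 * (j + 1) + 1 = 2 * j + 1 + 2 by ring]
    have h2 := key k _ hne
    -- hence the particle numbers are `s / 2`
    have h3 : ∀ j, j ≤ k → (j : ℤ) ≤ cnt (x.take (2 * j + 1)) := by
      intro j
      induction j with
      | zero => intro _; push_cast; positivity
      | succ j ih =>
        intro hj
        have h4 := ih (by omega)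
        have h5 := h2 j (by omega)
        have h6 := cnt_take_mono x (s := 2 * j + 1) (by omega)
        have h7 := cnt_take_mono x (s := 2 * j + 2) (by omega)
        rw [show 2 * (j + 1) + 1 = 2 * j + 2 + 1 by ring]
        rw [show 2 * j + 1 + 1 = 2 * j + 2 by ring] at h6
        push_cast at h5 h6 h7 ⊢
        omega
    refine eq_of_cnt_take (by rw [hx, ox_length]) fun s hs' => ?_
    rw [hx] at hs'
    have h4 : (cnt ((ox (bk k).fn (2 * k + 1)).take s) : ℤ) = (s / 2 : ℕ) := by
      rw [ox_take _ hs', cnt_ox, opn_bk k s hs']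
    have h5 := h1 s (by omega)
    rw [opn_bk k s hs'] at h5
    have h6 : ((s / 2 : ℕ) : ℤ) ≤ cnt (x.take s) := by
      rcases Nat.even_or_odd' s with ⟨j, rfl | rfl⟩
      · rcases Nat.eq_zero_or_pos j with h7 | h7
        · subst h7
          simp
        · obtain ⟨i, rfl⟩ : ∃ i, j = i + 1 := ⟨j - 1, by omega⟩
          have h8 := h3 i (by omega)
          have h9 := h2 i (by omega)
          have h10 := cnt_take_mono x (s := 2 * i + 1) (by omega)
          rw [show 2 * i + 1 + 1 = 2 * i + 2 by ring] at h10
          rw [show 2 * (i + 1) = 2 * i + 2 by ring, show (2 * i + 2) / 2 = i + 1 by omega]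
          push_cast at h9 h10 ⊢
          omega
      · have h8 := h3 j (by omega)
        rw [show (2 * j + 1) / 2 = j by omega]
        exact h8
    have h7 : (cnt (x.take s) : ℤ) = cnt ((ox (bk k).fn (2 * k + 1)).take s) := by
      rw [h4]
      exact le_antisymm h5 h6
    exact_mod_cast h7

theorem Fp_ox_bk {k : ℕ} {f : Pat} (hf : f ∈ Pat.PN (2 * k + 2) 2) :
    Fp (0 :: hs 0 (ox (bk k).fn (2 * k + 1))) f = if f = bk k then 1 else 0 := by
  have hf' : f ∈ Pat.PN ((ox (bk k).fn (2 * k + 1)).length + 1) 2 := by rwa [ox_length]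
  have h := Kfun_alt (Pat.mem_PN.1 hf)
  rw [show (2 * k + 2 - 2) / 2 = k by omega] at h
  rw [Fp_eq _ hf', ox_length, ← h]
  refine Kfun_congr (fun s hs' => Pat.lt_of_mem hf hs') fun s hs' => ?_
  unfold hP
  beta_reduce
  rw [ox_take _ (by omega), cnt_ox, opn_bk k s (by omega)]

theorem sm_single {K : Type*} [Field K] : ∀ (m : ℕ) (y : List Bool) (_ : y.length = m) (f : List Bool → K),
    sm m (fun x => if x = y then f x else 0) = f y := by
  intro m
  induction m with
  | zero =>
    intro y hy f
    have : y = [] := List.eq_nil_of_length_eq_zero hy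
    subst this
    simp [sm]
  | succ m ih =>
    intro y hy f
    cases y with
    | nil => simp at hy
    | cons n l =>
      have hl : l.length = m := by simpa using hy
      simp only [sm, List.cons.injEq]
      cases n
      · have e1 := ih l hl fun x => f (false :: x)
        simp only [true_and, Bool.true_eq_false, false_and, if_false]
        rw [e1, sm_zero, add_zero]
      · have e1 := ih l hl fun x => f (true :: x)
        simp only [true_and, Bool.false_eq_true, false_and, if_false]
        rw [e1, sm_zero, zero_add]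

/-- **the scalar product with the boundary vector is the coefficient of the boundary vector** -/
theorem Sf_bk (K : Type*) [Field K] [CharZero K] {k : ℕ} {v : Pat →₀ K}
    (hv : v ∈ patSys.W K (2 * k + 2) 2) :
    (hfam K).Sf (2 * k + 1) k (Finsupp.single (bk k) 1) v = v (bk k) := by
  classical
  have hb : bk k ∈ Pat.PN (2 * k + 1 + 1) 2 := bk_mem k
  have hcb : cnt (ox (bk k).fn (2 * k + 1)) = k := by
    have h1 := cnt_ox (bk k).fn (2 * k + 1)
    rw [opn_bk k _ le_rfl, show (2 * k + 1) / 2 = k by omega] at h1
    exact_mod_cast h1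
  have h1 : (hfam K).Sf (2 * k + 1) k (Finsupp.single (bk k) 1) v =
      sm (2 * k + 1) fun x => if x = ox (bk k).fn (2 * k + 1) then
        (hfam K).Fn 0 x v else 0 := by
    refine sm_congr fun x hx => ?_
    split_ifs with h2 h3 h3
    · have : (hfam K).Fn 0 x (Finsupp.single (bk k) 1) = (Fp (0 :: hs 0 x) (bk k) : K) :=
        hfam_F_single K _ _
      rw [this, Fp_bk hx h2, if_pos h3]
      simp
    · have : (hfam K).Fn 0 x (Finsupp.single (bk k) 1) = (Fp (0 :: hs 0 x) (bk k) : K) :=
        hfam_F_single K _ _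
      rw [this, Fp_bk hx h2, if_neg h3]
      simp
    · exact absurd (by rw [h3, hcb]) h2
    · rfl
  rw [h1, sm_single _ _ (ox_length _ _) fun x => (hfam K).Fn 0 x v]
  change FK K _ v = _
  have h2 := eq_on_W K (N := 2 * k + 2) (l := 2)
    (A := FK K (0 :: hs 0 (ox (bk k).fn (2 * k + 1)))) (B := Finsupp.lapply (bk k)) (fun f hf => by
      rw [FK_single, Fp_ox_bk hf, Finsupp.lapply_apply, Finsupp.single_apply]
      split_ifs <;> simp) hv
  rw [h2, Finsupp.lapply_apply]

end Pool.Agent.Rect.Herm
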