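import Mathlib

/-!
# Perron-Frobenius for operators with real spectrum

`h` has nonnegative off-diagonal entries in the basis `e`, is irreducible and has a real eigenbasis
`v`.  Then its largest eigenvalue is simple, with an eigenvector of positive coordinates, and this
vector dominates the spectrum of every commuting operator with nonnegative entries.
-/

namespace Pool.Agent.Rect.Herm

open Module Finset Filter Topology

variable {V : Type*} [AddCommGroup V] [Module ℝ V] {I : Type*} [Fintype I]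
  (e : Basis I ℝ V)

theorem repr_apply (T : V →ₗ[ℝ] V) (y : V) (i : I) :
    e.repr (T y) i = ∑ j, e.repr (T (e j)) i * e.repr y j := by
  conv_lhs => rw [← e.sum_repr y]
  simp only [map_sum, map_smul, Finsupp.coe_finsetSum, Finset.sum_apply, Finsupp.smul_apply,
    smul_eq_mul]
  exact sum_congr rfl fun j _ => mul_comm _ _

/-- a nonnegative eigenvector of an irreducible matrix is positive -/
theorem pos_of_irred {h : V →ₗ[ℝ] V} (hoff : ∀ i j, i ≠ j → 0 ≤ e.repr (h (e j)) i)
    (hirr : ∀ i j, Relation.ReflTransGen (fun a c => 0 < e.repr (h (e a)) c) i j)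
    {x : V} (hx : x ≠ 0) (hnn : ∀ i, 0 ≤ e.repr x i) {ρ : ℝ} (hρ : h x = ρ • x) :
    ∀ i, 0 < e.repr x i := by
  classical
  obtain ⟨i0, hi0⟩ : ∃ i0, 0 < e.repr x i0 := by
    by_contra hcon
    push Not at hcon
    exact hx (e.ext_elem fun i => by
      rw [map_zero, Finsupp.zero_apply]; exact le_antisymm (hcon i) (hnn i))
  intro j
  refine Relation.ReflTransGen.head_induction_on (motive := fun a _ => 0 < e.repr x a →
    0 < e.repr x j) (hirr i0 j) id ?_ hi0
  intro a c hac _ ih ha
  refine ih ?_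
  by_contra hc
  have hc0 : e.repr x c = 0 := le_antisymm (not_lt.1 hc) (hnn c)
  have hne : a ≠ c := by
    rintro rfl
    exact hc ha
  have h1 : e.repr (h x) c = 0 := by
    rw [hρ, map_smul, Finsupp.smul_apply, hc0, smul_zero]
  rw [repr_apply] at h1
  have h2 : ∀ k ∈ (univ : Finset I), 0 ≤ e.repr (h (e k)) c * e.repr x k := fun k _ => by
    by_cases hk : k = c
    · rw [hk, hc0, mul_zero]
    · exact mul_nonneg (hoff c k (Ne.symm hk)) (hnn k)
  have h3 := (sum_eq_zero_iff_of_nonneg h2).1 h1 a (mem_univ a)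
  exact (mul_pos hac ha).ne' h3

/-- an eigenvector with positive coordinates spans its eigenspace -/
theorem unique_of_pos {h : V →ₗ[ℝ] V} (hoff : ∀ i j, i ≠ j → 0 ≤ e.repr (h (e j)) i)
    (hirr : ∀ i j, Relation.ReflTransGen (fun a c => 0 < e.repr (h (e a)) c) i j)
    {x : V} (hx : ∀ i, 0 < e.repr x i) {ρ : ℝ} (hρ : h x = ρ • x) {y : V} (hy : h y = ρ • y) :
    ∃ r : ℝ, y = r • x := by
  classical
  rcases isEmpty_or_nonempty I with hI | hI
  · exact ⟨0, e.ext_elem fun i => (hI.false i).elim⟩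
  obtain ⟨i0, hi0⟩ := Finite.exists_min (fun i => e.repr y i / e.repr x i)
  set r := e.repr y i0 / e.repr x i0 with hr
  refine ⟨r, ?_⟩
  by_contra hne
  have hz : y - r • x ≠ 0 := fun h0 => hne (sub_eq_zero.1 h0)
  have hnn : ∀ i, 0 ≤ e.repr (y - r • x) i := fun i => by
    rw [map_sub, map_smul, Finsupp.sub_apply, Finsupp.smul_apply, smul_eq_mul, sub_nonneg]
    exact (le_div_iff₀ (hx i)).1 (hi0 i)
  have := pos_of_irred e hoff hirr hz hnn (ρ := ρ) (by
    rw [map_sub, map_smul, hy, hρ, smul_sub, smul_comm]) i0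
  rw [map_sub, map_smul, Finsupp.sub_apply, Finsupp.smul_apply, smul_eq_mul, hr,
    div_mul_cancel₀ _ (hx i0).ne', sub_self] at this
  exact lt_irrefl _ this

/-- **Perron-Frobenius** for an irreducible operator with a real eigenbasis -/
theorem perron {κ : Type*} [Fintype κ] [Nonempty κ] {h : V →ₗ[ℝ] V}
    (hoff : ∀ i j, i ≠ j → 0 ≤ e.repr (h (e j)) i)
    (hirr : ∀ i j, Relation.ReflTransGen (fun a c => 0 < e.repr (h (e a)) c) i j)
    (v : Basis κ ℝ V) (lam : κ → ℝ) (hv : ∀ k, h (v k) = lam k • v k) :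
    ∃ k0, (∀ k, k ≠ k0 → lam k < lam k0) ∧ ∃ r : ℝ, r ≠ 0 ∧ ∀ i, 0 < r * e.repr (v k0) i := by
  classical
  obtain ⟨k1, hk1⟩ := Finite.exists_max lam
  set ρ := lam k1 with hρdef
  set c : ℝ := 1 + ∑ i, |e.repr (h (e i)) i| + ∑ k, |lam k| with hc
  have hc1 : ∀ i, 0 ≤ e.repr (h (e i)) i + c := fun i => by
    have h1 := single_le_sum (f := fun i => |e.repr (h (e i)) i|) (fun j _ => abs_nonneg _)
      (mem_univ i)
    have h2 : 0 ≤ ∑ k, |lam k| := sum_nonneg fun k _ => abs_nonneg _
    have h3 := neg_abs_le (e.repr (h (e i)) i)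
    linarith
  have hc2 : ∀ k, 0 < lam k + c := fun k => by
    have h1 := single_le_sum (f := fun k => |lam k|) (fun j _ => abs_nonneg _) (mem_univ k)
    have h2 : 0 ≤ ∑ i, |e.repr (h (e i)) i| := sum_nonneg fun k _ => abs_nonneg _
    have h3 := neg_abs_le (lam k)
    linarith
  have hL : 0 < ρ + c := hc2 k1
  let M : V →ₗ[ℝ] V := h + c • 1
  have hM : ∀ i j, 0 ≤ e.repr (M (e j)) i := fun i j => by
    simp only [M, LinearMap.add_apply, LinearMap.smul_apply, Module.End.one_apply, map_add,
      map_smul, Finsupp.add_apply, Finsupp.smul_apply, Basis.repr_self, smul_eq_mul]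
    by_cases hij : i = j
    · subst hij; simpa using hc1 i
    · simpa [Finsupp.single_apply, Ne.symm hij] using hoff i j hij
  have hMpow : ∀ t : ℕ, ∀ x : V, (∀ i, 0 ≤ e.repr x i) → ∀ i, 0 ≤ e.repr ((M ^ t) x) i := by
    intro t
    induction t with
    | zero => intro x hx i; simpa using hx i
    | succ t ih =>
      intro x hx i
      rw [pow_succ', Module.End.mul_apply, repr_apply]
      exact sum_nonneg fun j _ => mul_nonneg (hM i j) (ih x hx j)
  have hMv : ∀ k, M (v k) = (lam k + c) • v k := fun k => by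
    simp [M, hv, add_smul]
  have hMvpow : ∀ t : ℕ, ∀ k, (M ^ t) (v k) = (lam k + c) ^ t • v k := by
    intro t
    induction t with
    | zero => intro k; simp
    | succ t ih =>
      intro k
      rw [pow_succ', Module.End.mul_apply, ih, map_smul, hMv, smul_smul, pow_succ]
  let P : V →ₗ[ℝ] V := v.constr ℝ (fun k => if lam k = ρ then v k else 0)
  have hPv : ∀ k, P (v k) = if lam k = ρ then v k else 0 := fun k => v.constr_basis ℝ _ k
  have hhP : ∀ x, h (P x) = ρ • P x := by
    intro x
    have : h ∘ₗ P = ρ • P := v.ext fun k => by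
      rw [LinearMap.comp_apply, LinearMap.smul_apply, hPv]
      split_ifs with hk
      · rw [hv, hk]
      · simp
    exact LinearMap.congr_fun this x
  -- the limit
  have hlim : ∀ x i, Tendsto (fun t : ℕ => e.repr ((M ^ t) x) i / (ρ + c) ^ t) atTop
      (𝓝 (e.repr (P x) i)) := by
    intro x i
    have h1 : ∀ t : ℕ, e.repr ((M ^ t) x) i / (ρ + c) ^ t =
        ∑ k, ((lam k + c) / (ρ + c)) ^ t * (v.repr x k * e.repr (v k) i) := by
      intro t
      conv_lhs => rw [← v.sum_repr x]
      simp only [map_sum, map_smul, hMvpow, Finsupp.coe_finsetSum, Finset.sum_apply,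
        Finsupp.smul_apply, smul_eq_mul]
      rw [sum_div]
      refine sum_congr rfl fun k _ => ?_
      rw [div_pow]; ring
    have h2 : e.repr (P x) i =
        ∑ k, (if lam k = ρ then 1 else 0) * (v.repr x k * e.repr (v k) i) := by
      conv_lhs => rw [← v.sum_repr x]
      simp only [map_sum, map_smul, hPv, Finsupp.coe_finsetSum, Finset.sum_apply,
        Finsupp.smul_apply, smul_eq_mul]
      refine sum_congr rfl fun k _ => ?_
      split_ifs <;> simp
    rw [h2]
    simp only [h1]
    refine tendsto_finsetSum _ fun k _ => Tendsto.mul_const _ ?_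
    split_ifs with hk
    · rw [hk, div_self hL.ne']
      exact tendsto_const_nhds.congr fun t => (one_pow t).symm
    · have hlt : lam k < ρ := lt_of_le_of_ne (hk1 k) hk
      refine tendsto_pow_atTop_nhds_zero_of_lt_one (div_nonneg (hc2 k).le hL.le) ?_
      rw [div_lt_one hL]
      linarith
  have hPnn : ∀ x, (∀ i, 0 ≤ e.repr x i) → ∀ i, 0 ≤ e.repr (P x) i := fun x hx i =>
    ge_of_tendsto' (hlim x i) fun t => div_nonneg (hMpow t x hx i) (pow_pos hL t).le
  obtain ⟨j, hj⟩ : ∃ j, P (e j) ≠ 0 := by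
    by_contra hcon
    push Not at hcon
    have : P = 0 := e.ext fun j => by rw [hcon j]; rfl
    have h1 := hPv k1
    rw [this, if_pos rfl] at h1
    exact v.ne_zero k1 h1.symm
  set x0 := P (e j) with hx0
  have hx0pos : ∀ i, 0 < e.repr x0 i := pos_of_irred e hoff hirr hj
    (hPnn _ fun i => by
      rw [Basis.repr_self, Finsupp.single_apply]
      split_ifs <;> norm_num) (hhP _)
  obtain ⟨r, hr⟩ := unique_of_pos e hoff hirr hx0pos (hhP _) (hv k1)
  have hr0 : r ≠ 0 := by
    rintro rfl
    rw [zero_smul] at hr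
    exact v.ne_zero k1 hr
  refine ⟨k1, fun k hk => lt_of_le_of_ne (hk1 k) fun heq => ?_, r⁻¹, inv_ne_zero hr0, fun i => ?_⟩
  · obtain ⟨r', hr'⟩ := unique_of_pos e hoff hirr hx0pos (hhP _) (y := v k) (by rw [hv, heq])
    have h1 : v k = (r' / r) • v k1 := by
      rw [hr, smul_smul, div_mul_cancel₀ _ hr0, hr']
    have h2 := congrArg (fun w => v.repr w k) h1
    simp only [map_smul, Basis.repr_self, Finsupp.smul_apply, Finsupp.single_eq_same,
      smul_eq_mul] at h2
    rw [Finsupp.single_apply, if_neg (Ne.symm hk), mul_zero] at h2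
    exact one_ne_zero h2
  · rw [hr, map_smul, Finsupp.smul_apply, smul_eq_mul, inv_mul_cancel_left₀ hr0]
    exact hx0pos i

/-- a positive eigenvector of a nonnegative matrix dominates its spectrum -/
theorem abs_le_of_pos {T : V →ₗ[ℝ] V} (hT : ∀ i j, 0 ≤ e.repr (T (e j)) i)
    {x : V} (hx : ∀ i, 0 < e.repr x i) {t : ℝ} (ht : T x = t • x) {y : V} (hy : y ≠ 0) {τ : ℝ}
    (hτ : T y = τ • y) : |τ| ≤ t := by
  classical
  rcases isEmpty_or_nonempty I with hI | hI
  · exact (hy (e.ext_elem fun i => (hI.false i).elim)).elim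
  obtain ⟨i0, hi0⟩ := Finite.exists_max (fun i => |e.repr y i| / e.repr x i)
  set c := |e.repr y i0| / e.repr x i0 with hc
  have hle : ∀ i, |e.repr y i| ≤ c * e.repr x i := fun i => (div_le_iff₀ (hx i)).1 (hi0 i)
  have hyi : 0 < |e.repr y i0| := by
    obtain ⟨j, hj⟩ : ∃ j, e.repr y j ≠ 0 := by
      by_contra hcon
      push Not at hcon
      exact hy (e.ext_elem fun i => by rw [hcon i, map_zero, Finsupp.zero_apply])
    have h1 : 0 < c := lt_of_lt_of_le (div_pos (abs_pos.2 hj) (hx j)) (hi0 j)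
    by_contra h2
    have h3 : |e.repr y i0| = 0 := le_antisymm (not_lt.1 h2) (abs_nonneg _)
    rw [hc, h3, zero_div] at h1
    exact lt_irrefl _ h1
  have h1 : |τ| * |e.repr y i0| ≤ t * |e.repr y i0| := by
    calc |τ| * |e.repr y i0| = |e.repr (T y) i0| := by
          rw [hτ, map_smul, Finsupp.smul_apply, smul_eq_mul, abs_mul]
      _ = |∑ j, e.repr (T (e j)) i0 * e.repr y j| := by rw [repr_apply]
      _ ≤ ∑ j, |e.repr (T (e j)) i0 * e.repr y j| := abs_sum_le_sum_abs _ _
      _ ≤ ∑ j, e.repr (T (e j)) i0 * (c * e.repr x j) := by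
          refine sum_le_sum fun j _ => ?_
          rw [abs_mul, abs_of_nonneg (hT i0 j)]
          exact mul_le_mul_of_nonneg_left (hle j) (hT i0 j)
      _ = c * e.repr (T x) i0 := by
          rw [repr_apply, mul_sum]
          exact sum_congr rfl fun j _ => by ring
      _ = t * (c * e.repr x i0) := by
          rw [ht, map_smul, Finsupp.smul_apply, smul_eq_mul]; ring
      _ = t * |e.repr y i0| := by rw [hc, div_mul_cancel₀ _ (hx i0).ne']
  exact le_of_mul_le_mul_right h1 hyi

/-- the eigenvalue of a positive eigenvector is at most the largest column sum -/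
theorem le_of_colsum {T : V →ₗ[ℝ] V} {x : V} (hx : ∀ i, 0 < e.repr x i) [Nonempty I] {t s : ℝ}
    (ht : T x = t • x) (hs : ∀ j, ∑ i, e.repr (T (e j)) i ≤ s) : t ≤ s := by
  have hone : 0 < ∑ i, e.repr x i := sum_pos (fun i _ => hx i) univ_nonempty
  refine le_of_mul_le_mul_right ?_ hone
  calc t * ∑ i, e.repr x i = ∑ i, e.repr (T x) i := by
        rw [ht, mul_sum]
        exact sum_congr rfl fun i _ => by rw [map_smul, Finsupp.smul_apply, smul_eq_mul]
    _ = ∑ j, (∑ i, e.repr (T (e j)) i) * e.repr x j := by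
        simp only [sum_mul]
        rw [sum_comm]
        exact sum_congr rfl fun i _ => repr_apply e T x i
    _ ≤ ∑ j, s * e.repr x j :=
        sum_le_sum fun j _ => mul_le_mul_of_nonneg_right (hs j) (hx j).le
    _ = s * ∑ i, e.repr x i := by rw [mul_sum]

/-- strict version -/
theorem lt_of_colsum {T : V →ₗ[ℝ] V} {x : V} (hx : ∀ i, 0 < e.repr x i) {t s : ℝ}
    (ht : T x = t • x) (hs : ∀ j, ∑ i, e.repr (T (e j)) i ≤ s)
    (hs' : ∃ j, ∑ i, e.repr (T (e j)) i < s) : t < s := by
  obtain ⟨j0, hj0⟩ := hs'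
  have : Nonempty I := ⟨j0⟩
  have hone : 0 < ∑ i, e.repr x i := sum_pos (fun i _ => hx i) univ_nonempty
  refine lt_of_mul_lt_mul_right ?_ hone.le
  calc t * ∑ i, e.repr x i = ∑ i, e.repr (T x) i := by
        rw [ht, mul_sum]
        exact sum_congr rfl fun i _ => by rw [map_smul, Finsupp.smul_apply, smul_eq_mul]
    _ = ∑ j, (∑ i, e.repr (T (e j)) i) * e.repr x j := by
        simp only [sum_mul]
        rw [sum_comm]
        exact sum_congr rfl fun i _ => repr_apply e T x i
    _ < ∑ j, s * e.repr x j :=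
        sum_lt_sum (fun j _ => mul_le_mul_of_nonneg_right (hs j) (hx j).le)
          ⟨j0, mem_univ _, mul_lt_mul_of_pos_right hj0 (hx j0)⟩
    _ = s * ∑ i, e.repr x i := by rw [mul_sum]

end Pool.Agent.Rect.Herm
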