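import Pool.Agent.Rect.Herm.Lin
import Pool.Agent.Rect.Herm.Perron

/-!
# From a Hermitian family of operators to the numbers `μ, γ, d`

`Fam` collects what is needed about the double row matrices on link patterns: a positive definite
form `B` and the Gram form `F` for both of which all `D p` are self-adjoint, nonnegativity of
`D (1/2)`, irreducibility of the Hamiltonian `h` with `D'(1) = c - h`.  `Fam.exists_spec` gives a
joint eigenbasis; `Spec.word`, `Spec.wordF`, `Spec.wordZ` are the spectral representations (H1) and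
of the auxiliary expectation of the vector `z`; `Spec.mu_zero`, `Spec.g_zero`, `Spec.top`,
`Spec.min` are (H4).
-/

namespace Pool.Agent.Rect.Herm

open Module Polynomial Finset

/-- a polynomial family of commuting operators with a hidden scalar product `B` -/
structure Fam (V : Type*) [AddCommGroup V] [Module ℝ V] (I : Type*) [Fintype I] (m : ℕ) where
  /-- basis of link patterns -/
  e : Basis I ℝ V
  /-- the hidden scalar product -/
  B : V →ₗ[ℝ] V →ₗ[ℝ] ℝ
  symm : ∀ x y, B x y = B y x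
  pos : ∀ x, x ≠ 0 → 0 < B x x
  /-- the Gram form -/
  F : V →ₗ[ℝ] V →ₗ[ℝ] ℝ
  Fsymm : ∀ x y, F x y = F y x
  /-- double row matrices -/
  D : ℝ → V →ₗ[ℝ] V
  /-- their coefficients -/
  C : ℕ → V →ₗ[ℝ] V
  hD : ∀ p, D p = ∑ j ∈ range (m + 1), p ^ j • C j
  comm : ∀ p q, Commute (D p) (D q)
  sa : ∀ p x y, B (D p x) y = B x (D p y)
  Fsa : ∀ p x y, F (D p x) y = F x (D p y)
  /-- `D'(1) = c - h` -/
  c : ℝ
  /-- the Hamiltonian -/
  h : V →ₗ[ℝ] V
  der : ∀ (f : V →ₗ[ℝ] ℝ) (x : V), HasDerivAt (fun p => f (D p x)) (c * f x - f (h x)) 1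
  off : ∀ i j, i ≠ j → 0 ≤ e.repr (h (e j)) i
  irr : ∀ i j, Relation.ReflTransGen (fun a c => 0 < e.repr (h (e a)) c) i j
  T : ∀ i j, 0 ≤ e.repr (D (1 / 2) (e j)) i
  /-- the boundary vector -/
  b : V
  Bb : ∀ i, 0 ≤ B b (e i)
  Bb' : ∃ i, B b (e i) ≠ 0
  Fb : ∀ i, 0 ≤ F b (e i)
  Fb' : ∃ i, F b (e i) ≠ 0

variable {V : Type*} [AddCommGroup V] [Module ℝ V] {I : Type*} [Fintype I] {m : ℕ}

theorem functional_pos (e : Basis I ℝ V) (f : V →ₗ[ℝ] ℝ) (hf : ∀ i, 0 ≤ f (e i))
    (hf' : ∃ i, f (e i) ≠ 0) {x : V} {r : ℝ} (hx : ∀ i, 0 < r * e.repr x i) : 0 < r * f x := by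
  have h1 : r * f x = ∑ i, (r * e.repr x i) * f (e i) := by
    conv_lhs => rw [← e.sum_repr x]
    simp only [map_sum, map_smul, smul_eq_mul, mul_sum]
    exact sum_congr rfl fun i _ => by ring
  obtain ⟨i, hi⟩ := hf'
  rw [h1]
  exact sum_pos' (fun i _ => mul_nonneg (hx i).le (hf i))
    ⟨i, mem_univ i, mul_pos (hx i) (lt_of_le_of_ne (hf i) (Ne.symm hi))⟩

/-- a joint eigenbasis of a Hermitian family, with the Perron index `k0` -/
structure Spec (H : Fam V I m) where
  v : Basis (Fin (finrank ℝ V)) ℝ V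
  ort : ∀ k l, H.B (v k) (v l) = if k = l then 1 else 0
  d : Fin (finrank ℝ V) → ℝ[X]
  deg : ∀ k, (d k).natDegree ≤ m
  ev : ∀ k p, H.D p (v k) = (d k).eval p • v k
  coeff : ∀ k j, j ≤ m → H.C j (v k) = (d k).coeff j • v k
  g : Fin (finrank ℝ V) → ℝ
  Fg : ∀ k x, H.F (v k) x = g k * H.B (v k) x
  hv : ∀ k, H.h (v k) = (H.c - (derivative (d k)).eval 1) • v k
  k0 : Fin (finrank ℝ V)
  min : ∀ k, k ≠ k0 → (derivative (d k0)).eval 1 < (derivative (d k)).eval 1
  r : ℝ
  hr : r ≠ 0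
  pos0 : ∀ i, 0 < r * H.e.repr (v k0) i

theorem Fam.exists_spec (H : Fam V I m) : Nonempty (Spec H) := by
  classical
  have hfd : FiniteDimensional ℝ V := Module.Finite.of_basis H.e
  obtain ⟨G, hG1, hG2, hG3⟩ := exists_gamma H.B H.symm H.pos H.F H.Fsymm
  obtain ⟨v, d, g, ho, hdeg, hev, hg, hcoeff⟩ := spec_form H.B H.symm H.pos H.D H.C H.hD H.sa H.comm
    G hG2 fun p => hG3 (H.D p) (H.sa p) (H.Fsa p)
  have hF : ∀ k x, H.F (v k) x = g k * H.B (v k) x := fun k x => by
    rw [← hG1, ← hG2, hg, map_smul, LinearMap.smul_apply, smul_eq_mul]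
  obtain ⟨i0, -⟩ := H.Bb'
  have hne : Nonempty (Fin (finrank ℝ V)) := by
    have : Nontrivial V := ⟨H.e i0, 0, H.e.ne_zero i0⟩
    exact ⟨⟨0, finrank_pos⟩⟩
  -- the Hamiltonian on the eigenbasis
  have hh : ∀ k, H.h (v k) = (H.c - (derivative (d k)).eval 1) • v k := by
    intro k
    refine v.ext_elem fun i => ?_
    have h1 := H.der (v.coord i) (v k)
    have h2 : HasDerivAt (fun p => v.coord i (H.D p (v k)))
        ((derivative (d k)).eval 1 * v.coord i (v k)) 1 := by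
      have : (fun p => v.coord i (H.D p (v k))) = fun p => (d k).eval p * v.coord i (v k) := by
        funext p
        rw [hev, map_smul, smul_eq_mul]
      rw [this]
      exact ((d k).hasDerivAt 1).mul_const _
    have h3 := h1.unique h2
    simp only [Basis.coord_apply] at h3
    rw [map_smul, Finsupp.smul_apply, smul_eq_mul]
    linear_combination -h3
  obtain ⟨k0, hk0, r, hr, hpos⟩ := perron H.e H.off H.irr v _ hh
  exact ⟨⟨v, ho, d, hdeg, hev, hcoeff, g, hF, hh, k0, fun k hk => by linarith [hk0 k hk], r, hr,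
    hpos⟩⟩

namespace Spec

variable {H : Fam V I m} (S : Spec H)

/-- spectral weights -/
noncomputable def mu (k : Fin (finrank ℝ V)) : ℝ := H.B (S.v k) H.b ^ 2

/-- `L k = d_k'(1)`, eigenvalue of `c - h` -/
noncomputable def L (k : Fin (finrank ℝ V)) : ℝ := (derivative (S.d k)).eval 1

theorem mu_nonneg (k) : 0 ≤ S.mu k := sq_nonneg _

theorem L_min (k) : S.L S.k0 ≤ S.L k := by
  by_cases hk : k = S.k0
  · rw [hk]
  · exact (S.min k hk).le

theorem expand (f : V →ₗ[ℝ] ℝ) (x : V) : f x = ∑ k, H.B (S.v k) x * f (S.v k) := by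
  conv_lhs => rw [← S.v.sum_repr x]
  simp only [map_sum, map_smul, smul_eq_mul, repr_form S.ort]

/-- spectral representation of any functional of a word of operators -/
theorem word_gen (f : V →ₗ[ℝ] ℝ) (l : List ℝ) (x : V) : f ((l.map H.D).prod x) =
    ∑ k, H.B (S.v k) x * f (S.v k) * (l.map fun p => (S.d k).eval p).prod := by
  have h := S.expand (f ∘ₗ (l.map H.D).prod) x
  rw [LinearMap.comp_apply] at h
  rw [h]
  refine sum_congr rfl fun k _ => ?_
  rw [LinearMap.comp_apply, list_apply S.ev, map_smul, smul_eq_mul]; ring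

/-- (H1) for the coefficient of `b` -/
theorem word (l : List ℝ) : H.B H.b ((l.map H.D).prod H.b) =
    ∑ k, S.mu k * (l.map fun p => (S.d k).eval p).prod := by
  rw [S.word_gen]
  refine sum_congr rfl fun k _ => ?_
  rw [mu, H.symm H.b]; ring

theorem Fb_v (k) : H.F H.b (S.v k) = S.g k * H.B (S.v k) H.b := by
  rw [H.Fsymm, S.Fg]

/-- (H1) for the crossing probability -/
theorem wordF (l : List ℝ) : H.F H.b ((l.map H.D).prod H.b) =
    ∑ k, S.g k * S.mu k * (l.map fun p => (S.d k).eval p).prod := by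
  rw [S.word_gen]
  refine sum_congr rfl fun k _ => ?_
  rw [mu, S.Fb_v]; ring

theorem sum_mu : ∑ k, S.mu k = H.B H.b H.b := by
  have := S.word []
  simpa using this.symm

/-- a vector `z` whose `B`-functional is `F b ∘ (c - h)` -/
theorem z_eig {z : V} (hz : ∀ x, H.B z x = H.F H.b (H.c • x - H.h x)) (k) :
    H.F z (S.v k) = S.g k ^ 2 * S.L k * H.B (S.v k) H.b := by
  rw [H.Fsymm, S.Fg, H.symm, hz, S.hv, ← sub_smul, sub_sub_cancel, map_smul, S.Fb_v, L, smul_eq_mul]
  ring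

/-- the auxiliary expectation of helper86 -/
theorem wordZ {z : V} (hz : ∀ x, H.B z x = H.F H.b (H.c • x - H.h x)) (l : List ℝ) :
    H.F z ((l.map H.D).prod H.b) =
      ∑ k, S.g k ^ 2 * S.L k * S.mu k * (l.map fun p => (S.d k).eval p).prod := by
  rw [S.word_gen]
  refine sum_congr rfl fun k _ => ?_
  rw [mu, S.z_eig hz]; ring

/-- scaled version of `wordZ` -/
theorem wordZs {s : ℝ} {z : V} (hz : ∀ x, H.B z x = s * H.F H.b (H.c • x - H.h x)) (l : List ℝ) :
    H.F z ((l.map H.D).prod H.b) =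
      ∑ k, S.g k ^ 2 * (s * S.L k) * S.mu k * (l.map fun p => (S.d k).eval p).prod := by
  rw [S.word_gen]
  refine sum_congr rfl fun k _ => ?_
  have : H.F z (S.v k) = S.g k ^ 2 * (s * S.L k) * H.B (S.v k) H.b := by
    rw [H.Fsymm, S.Fg, H.symm, hz, S.hv, ← sub_smul, sub_sub_cancel, map_smul, S.Fb_v, L,
      smul_eq_mul]
    ring
  rw [mu, this]; ring

theorem pos_vec (i) : 0 < H.e.repr (S.r • S.v S.k0) i := by
  rw [map_smul, Finsupp.smul_apply, smul_eq_mul]; exact S.pos0 i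

theorem r_B_pos : 0 < S.r * H.B H.b (S.v S.k0) :=
  functional_pos H.e (H.B H.b) H.Bb H.Bb' S.pos0

theorem mu_zero : 0 < S.mu S.k0 := by
  have h := S.r_B_pos
  have : H.B (S.v S.k0) H.b ≠ 0 := by
    rw [H.symm]
    rintro h0
    rw [h0, mul_zero] at h
    exact lt_irrefl _ h
  unfold mu
  positivity

theorem g_zero : 0 < S.g S.k0 := by
  have h0 := S.r_B_pos
  have h1 : 0 < S.r * H.F H.b (S.v S.k0) := functional_pos H.e (H.F H.b) H.Fb H.Fb' S.pos0
  rw [S.Fb_v, H.symm (S.v S.k0)] at h1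
  have : 0 < S.g S.k0 * (S.r * H.B H.b (S.v S.k0)) := by linarith [h1]
  exact (pos_iff_pos_of_mul_pos this).2 h0

/-- the Perron eigenvalue of an operator with nonnegative entries of which all `v k` are
eigenvectors -/
theorem absle {A : V →ₗ[ℝ] V} (hA : ∀ i j, 0 ≤ H.e.repr (A (H.e j)) i) {a : ℝ}
    (ha : A (S.v S.k0) = a • S.v S.k0) {k} {a' : ℝ} (ha' : A (S.v k) = a' • S.v k) : |a'| ≤ a :=
  abs_le_of_pos H.e hA S.pos_vec (by rw [map_smul, ha, smul_comm]) (S.v.ne_zero k) ha'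

/-- (H4): `|d_k(1/2)| ≤ d_0(1/2)` -/
theorem top (k) : |(S.d k).eval (1 / 2)| ≤ (S.d S.k0).eval (1 / 2) :=
  S.absle H.T (S.ev _ _) (S.ev _ _)

/-- `D p` has nonnegative entries for one more value of `p` -/
theorem top_of {p : ℝ} (hp : ∀ i j, 0 ≤ H.e.repr (H.D p (H.e j)) i) (k) :
    |(S.d k).eval p| ≤ (S.d S.k0).eval p :=
  S.absle hp (S.ev _ _) (S.ev _ _)

/-- strict dominance: `ε (1 + h) ≤ D p` entrywise and `h` has nonnegative entries -/
theorem top_strict {p ε : ℝ} (hε : 0 < ε) (hh : ∀ i j, 0 ≤ H.e.repr (H.h (H.e j)) i)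
    (hp : ∀ i j, ε * (H.e.repr (H.h (H.e j)) i + H.e.repr (H.e j) i) ≤
      H.e.repr (H.D p (H.e j)) i) (k) (hk : k ≠ S.k0) :
    |(S.d k).eval p| < (S.d S.k0).eval p := by
  classical
  have hR : ∀ i j, 0 ≤ H.e.repr ((H.D p - ε • (H.h + 1)) (H.e j)) i := fun i j => by
    have := hp i j
    simp only [LinearMap.sub_apply, LinearMap.smul_apply, LinearMap.add_apply,
      Module.End.one_apply, map_sub, map_smul, map_add, Finsupp.sub_apply, Finsupp.smul_apply,
      Finsupp.add_apply, smul_eq_mul]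
    linarith
  have hRv : ∀ k, (H.D p - ε • (H.h + 1)) (S.v k) =
      ((S.d k).eval p - ε * (H.c - S.L k + 1)) • S.v k := fun k => by
    simp only [LinearMap.sub_apply, LinearMap.smul_apply, LinearMap.add_apply,
      Module.End.one_apply, S.ev, S.hv, L]
    module
  have h1 := S.absle hR (hRv _) (hRv k)
  have h2 := S.absle hh (a := H.c - S.L S.k0) (a' := H.c - S.L k) (S.hv _) (S.hv k)
  have h3 : S.L S.k0 < S.L k := S.min k hk
  rw [abs_le] at h1 h2
  rw [abs_lt]
  have h4 : 0 < ε * (S.L k - S.L S.k0) := mul_pos hε (sub_pos.2 h3)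
  have h5 : 0 ≤ ε * ((H.c - S.L S.k0) + (H.c - S.L k)) := mul_nonneg hε.le (by linarith [h2.1])
  constructor <;> nlinarith [h1.1, h1.2, h4, h5]

/-- column sums at most one -/
theorem top_le_one {p : ℝ} (hp : ∀ j, ∑ i, H.e.repr (H.D p (H.e j)) i ≤ 1) :
    (S.d S.k0).eval p ≤ 1 := by
  obtain ⟨i, -⟩ := H.Bb'
  have : Nonempty I := ⟨i⟩
  exact le_of_colsum H.e S.pos_vec (t := (S.d S.k0).eval p) (by rw [map_smul, S.ev, smul_comm]) hp

/-- positivity of the smallest `L` -/
theorem L_zero (h1 : ∀ j, ∑ i, H.e.repr (H.h (H.e j)) i ≤ H.c)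
    (h2 : ∃ j, ∑ i, H.e.repr (H.h (H.e j)) i < H.c) : 0 < S.L S.k0 := by
  have := lt_of_colsum H.e S.pos_vec (t := H.c - S.L S.k0) (T := H.h)
    (by rw [map_smul, S.hv, smul_comm]; rfl) h1 h2
  linarith

/-- positivity of the eigenvalues from positivity of `B (D p x) x` -/
theorem nonneg_of_psd {p : ℝ} (hp : ∀ x, 0 ≤ H.B x (H.D p x)) (k) : 0 ≤ (S.d k).eval p := by
  have := hp (S.v k)
  rw [S.ev, map_smul, S.ort, if_pos rfl, smul_eq_mul, mul_one] at this
  exact this

/-- an eigenvalue identity on the states seen by `b`: if `B b (A x) = B z x` where `z` is the image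
of `b` under an operator diagonal in the basis -/
theorem eig_of_functional {A : V →ₗ[ℝ] V} {k} {a : ℝ} (hA : A (S.v k) = a • S.v k) {s : ℝ}
    (h : H.F H.b (A (S.v k)) = s * H.B H.b (S.v k)) (hmu : S.mu k ≠ 0) : a * S.g k = s := by
  have hne : H.B (S.v k) H.b ≠ 0 := fun h0 => hmu (by rw [mu, h0]; norm_num)
  rw [hA, map_smul, S.Fb_v, smul_eq_mul, H.symm H.b] at h
  exact mul_right_cancel₀ hne (by linear_combination h)

end Spec

end Pool.Agent.Rect.Herm
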