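import Pool.Agent.Helper78.DR.Braid

/-!
# Double row matrices of a tower: derivative at `p = 1`, and real joint eigenvectors

* `Dh_hasDerivAt`: `d/dp f (Dh (n+1) k p x)` at `p = 1` is `2 ∑_{i<n} f (x - e_{k+i} x)`;
* `sol_real`, `braid_real`: if a vector of a complex tower is a joint eigenvector for all REAL `p`
  with eigenvalue a real polynomial `d`, then `d` solves `DR.Sol` and has the known value at the
  braid points.
-/

namespace Pool.Agent.Rect.Herm

open Module Finset Pool.Agent.Helper9.DR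

section Taylor

variable {K : Type*} [Field K] {E : Type*} [Ring E] [Algebra K E]

/-- first order expansion at `p = 1` with polynomial remainder -/
def Tay (F : K → E) (A B : E) : Prop :=
  ∃ (d : ℕ) (R : K → E), PF d R ∧ ∀ p, F p = A + (p - 1) • B + (p - 1) ^ 2 • R p

theorem Tay.const (A : E) : Tay (K := K) (fun _ => A) A 0 :=
  ⟨0, fun _ => 0, PF.const 0, fun p => by simp⟩

theorem pf_q : PF (K := K) (E := K) 1 (fun p => p - 1) := by
  have := PF.poly' (K := K) (d := 1) (Polynomial.X - 1) (by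
    refine (Polynomial.natDegree_sub_le _ _).trans ?_
    simp)
  simpa using this

theorem Tay.mul {F G : K → E} {A B A' B' : E} (h : Tay F A B) (h' : Tay G A' B') :
    Tay (fun p => F p * G p) (A * A') (A * B' + B * A') := by
  obtain ⟨d, R, hR, hF⟩ := h
  obtain ⟨d', R', hR', hG⟩ := h'
  have c : ∀ X : E, PF (K := K) 0 (fun _ => X) := PF.const
  refine ⟨d + d' + 2, fun p => B * B' + (A * R' p + R p * A') + (p - 1) • (B * R' p + R p * B') +
    (p - 1) ^ 2 • (R p * R' p), ?_, fun p => ?_⟩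
  · have q1 : PF (K := K) (E := K) 1 (fun p => p - 1) := pf_q
    have q2 : PF (K := K) (E := K) 2 (fun p => (p - 1) ^ 2) := by
      simpa using q1.pow 2
    have t1 := (c B).mul (c B')
    have t2 := (c A).mul hR'
    have t3 := hR.mul (c A')
    have t4 := (c B).mul hR'
    have t5 := hR.mul (c B')
    have t6 := hR.mul hR'
    have t7 := q1.smul ((t4.mono (show 0 + d' ≤ d + d' by omega)).add
      (t5.mono (show d + 0 ≤ d + d' by omega)))
    have t8 := q2.smul t6
    exact (((t1.mono (by omega)).add ((t2.mono (show _ ≤ d + d' + 2 by omega)).add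
      (t3.mono (by omega)))).add (t7.mono (by omega))).add (t8.mono (by omega))
  · simp only [hF, hG, mul_add, add_mul, smul_mul_assoc, mul_smul_comm]
    module

theorem Tay.congr {F G : K → E} {A B A' B' : E} (h : Tay F A B) (h1 : ∀ p, G p = F p)
    (h2 : A' = A) (h3 : B' = B) : Tay G A' B' := by
  obtain ⟨d, R, hR, hF⟩ := h
  exact ⟨d, R, hR, fun p => by rw [h1, hF, h2, h3]⟩

end Taylor

section Deriv

variable {V : Type*} [AddCommGroup V] [Module ℝ V]

/-- weak derivative from a Taylor expansion -/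
theorem Tay.hasDerivAt {F : ℝ → End ℝ V} {A B : End ℝ V} (h : Tay F A B) (f : V →ₗ[ℝ] ℝ) (x : V) :
    HasDerivAt (fun p => f (F p x)) (f (B x)) 1 := by
  obtain ⟨d, R, hR, hF⟩ := h
  obtain ⟨M, hM⟩ := hR.exists_coeff
  have h1 : (fun p => f (F p x)) = fun p => f (A x) + (p - 1) * f (B x) +
      (p - 1) ^ 2 * ∑ i ∈ range (d + 1), p ^ i * f (M i x) := by
    funext p
    rw [hF, hM]
    simp only [LinearMap.add_apply, LinearMap.smul_apply, map_add, map_smul, smul_eq_mul,
      LinearMap.sum_apply, map_sum]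
  rw [h1]
  have h2 : HasDerivAt (fun p : ℝ => p - 1) 1 1 := (hasDerivAt_id 1).sub_const 1
  have h3 : DifferentiableAt ℝ (fun p : ℝ => ∑ i ∈ range (d + 1), p ^ i * f (M i x)) 1 := by
    fun_prop
  have h4 := ((h2.mul_const (f (B x))).const_add (f (A x))).add ((h2.pow 2).mul h3.hasDerivAt)
  refine h4.congr_deriv ?_
  norm_num

end Deriv

section TowerTay

variable {K : Type*} [Field K] {V : Type*} [AddCommGroup V] [Module K V] (T : Tower K V)

theorem tay_X (i : ℕ) : Tay (fun p => T.X i p) 1 (1 - T.e i) :=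
  ⟨0, fun _ => 0, PF.const 0, fun p => by simp only [Tower.X_def]; module⟩

theorem tay_Ah (n : ℕ) : ∀ k, Tay (T.Ah n k) 1 ((2 : K) • ∑ i ∈ range n, (1 - T.e (k + i))) := by
  induction n with
  | zero =>
    intro k
    exact (Tay.const 1).congr (fun p => rfl) rfl (by simp)
  | succ n ih =>
    intro k
    refine (((tay_X T k).mul (ih (k + 1))).mul (tay_X T k)).congr (fun p => T.Ah_succ n k p)
      (by simp) ?_
    have : ∑ i ∈ range n, (1 - T.e (k + 1 + i)) = ∑ i ∈ range n, (1 - T.e (k + (i + 1))) :=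
      sum_congr rfl fun i _ => by rw [add_assoc, add_comm 1 i]
    rw [sum_range_succ', ← this]
    simp only [mul_one, one_mul, add_zero]
    module

theorem tay_Dh (n k : ℕ) : Tay (T.Dh (n + 1) k) 1 ((2 : K) • ∑ i ∈ range n, (1 - T.e (k + i))) := by
  obtain ⟨d, R, hR, hF⟩ := tay_Ah T n k
  refine ⟨d + 2 * n, fun p => R p + (T.Dh n (k + 1) p - T.Ah n k p), ?_, fun p => ?_⟩
  · exact (hR.mono (by omega)).add (((T.Dh_pf n (k + 1)).mono (by omega)).sub
      ((T.Ah_pf n k).mono (by omega)))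
  · rw [Tower.Dh_succ]
    have := hF p
    have e : (1 - (1 - p) * (1 - p)) • T.Ah n k p + ((1 - p) * (1 - p)) • T.Dh n (k + 1) p =
        T.Ah n k p + (p - 1) ^ 2 • (T.Dh n (k + 1) p - T.Ah n k p) := by module
    rw [e]
    nth_rw 1 [this]
    module

/-- **derivative of the double row matrix at `p = 1`** -/
theorem Dh_hasDerivAt {V : Type*} [AddCommGroup V] [Module ℝ V] (T : Tower ℝ V) (n k : ℕ)
    (f : V →ₗ[ℝ] ℝ) (x : V) : HasDerivAt (fun p => f (T.Dh (n + 1) k p x))
      (2 * n * f x - f (∑ i ∈ range n, (2 : ℝ) • T.e (k + i) x)) 1 := by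
  refine ((tay_Dh T n k).hasDerivAt f x).congr_deriv ?_
  have e1 : ((2 : ℝ) • ∑ i ∈ range n, (1 - T.e (k + i))) x =
      (2 * n : ℝ) • x - ∑ i ∈ range n, (2 : ℝ) • T.e (k + i) x := by
    rw [LinearMap.smul_apply, LinearMap.sum_apply, smul_sum]
    simp only [LinearMap.sub_apply, Module.End.one_apply, smul_sub, sum_sub_distrib, sum_const,
      card_range]
    rw [← Nat.cast_smul_eq_nsmul ℝ, smul_smul, mul_comm (n : ℝ)]
  rw [e1, map_sub, map_smul, smul_eq_mul]

end TowerTay

section Real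

open Polynomial

variable {V : Type*} [AddCommGroup V] [Module ℂ V] (T : Tower ℂ V)

/-- an eigenvalue equation for real parameters extends to complex parameters -/
theorem extend_real {n k : ℕ} {w : V} {d : ℝ[X]}
    (h : ∀ p : ℝ, T.Dh n k (p : ℂ) w = ((d.eval p : ℝ) : ℂ) • w) (p : ℂ) :
    T.Dh n k p w = (d.map (algebraMap ℝ ℂ)).eval p • w := by
  obtain ⟨M, hM⟩ := T.Dh_coeff n k
  rw [← sub_eq_zero, ← Module.forall_dual_apply_eq_zero_iff ℂ]
  intro φ
  have h1 : ∀ p : ℂ, φ (T.Dh n k p w - (d.map (algebraMap ℝ ℂ)).eval p • w) =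
      (∑ i ∈ range (2 * n + 1), Polynomial.C (φ (M i w)) * X ^ i -
        d.map (algebraMap ℝ ℂ) * Polynomial.C (φ w) : ℂ[X]).eval p := by
    intro p
    rw [hM, eval_sub, eval_mul, eval_C, eval_finsetSum, map_sub, map_smul, smul_eq_mul]
    congr 1
    simp only [LinearMap.sum_apply, LinearMap.smul_apply, map_sum, map_smul, smul_eq_mul]
    refine sum_congr rfl fun i _ => ?_
    rw [eval_C_mul, eval_X_pow, mul_comm]
  have h2 : (∑ i ∈ range (2 * n + 1), Polynomial.C (φ (M i w)) * X ^ i -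
        d.map (algebraMap ℝ ℂ) * Polynomial.C (φ w) : ℂ[X]) = 0 := by
    refine Polynomial.eq_zero_of_infinite_isRoot _ ?_
    refine (Set.infinite_range_of_injective Complex.ofReal_injective).mono ?_
    rintro _ ⟨p, rfl⟩
    change Polynomial.eval _ _ = 0
    rw [← h1, h]
    have : (d.map (algebraMap ℝ ℂ)).eval (p : ℂ) = ((d.eval p : ℝ) : ℂ) := by
      rw [eval_map]
      exact (Polynomial.eval₂_at_apply (algebraMap ℝ ℂ) p)
    rw [this, sub_self, map_zero]
  rw [h1, h2, eval_zero]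

/-- (H2) for a real eigenvalue polynomial -/
theorem sol_real {n k : ℕ} {w : V} (hw : w ≠ 0) {d : ℝ[X]} (hd : d.natDegree ≤ 2 * n)
    (h : ∀ p : ℝ, T.Dh n k (p : ℂ) w = ((d.eval p : ℝ) : ℂ) • w) :
    _root_.DR.Sol n (d.map (algebraMap ℝ ℂ)) :=
  sol_of_joint T (natDegree_map_le.trans hd) hw (extend_real T h)

/-- the braid value for a real eigenvalue polynomial -/
theorem braid_real {n k l : ℕ} {w : V} (hw : w ≠ 0) {d : ℝ[X]}
    (h : ∀ p : ℝ, T.Dh n k (p : ℂ) w = ((d.eval p : ℝ) : ℂ) • w)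
    (hG : w ∈ Submodule.span ℂ {v | _root_.DR.Braid.Gen T k l n v}) {p : ℂ}
    (hp : p ^ 2 - p + 1 = 0) :
    (d.map (algebraMap ℝ ℂ)).eval p = if l % 3 = 2 then -2 else 1 := by
  have h4 : T.Dh n k p w = _root_.DR.Braid.theta p l • w := by
    clear h hw
    induction hG using Submodule.span_induction with
    | mem x hx => exact _root_.DR.Braid.Dh_gen T hp hx
    | zero => simp
    | add x y _ _ hx hy => rw [map_add, hx, hy, smul_add]
    | smul a x _ hx => rw [map_smul, hx, smul_comm]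
  rw [extend_real T h, _root_.DR.Braid.theta_mod hp] at h4
  have h5 : ((d.map (algebraMap ℝ ℂ)).eval p - if l % 3 = 2 then -2 else 1) • w = 0 := by
    rw [sub_smul, h4, sub_self]
  exact sub_eq_zero.1 ((smul_eq_zero.1 h5).resolve_right hw)

end Real

end Pool.Agent.Rect.Herm
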