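import Pool.Agent.Rect.Alg.Lin
import Pool.Agent.Rect.Herm.Tower
import Pool.Agent.Rect.Herm.Fam

/-!
# Real joint eigenvectors of the double row matrices on link patterns

`toC`: base change of vectors from `ℝ` to `ℂ`; it intertwines the towers of the link patterns.
`sol_W`, `braid_W`: the eigenvalue polynomial of a real joint eigenvector in `S.W ℝ N l` solves
`DR.Sol N` and has the value `1, 1, -2` (`l ≡ 0, 1, 2 mod 3`) at the braid points.
-/

set_option autoImplicit false

namespace Rect.Alg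
open Module Finset Pool.Agent.Helper9.DR Polynomial

section base
variable {P : Type*}

/-- base change of vectors -/
noncomputable def toC : (P →₀ ℝ) →+ (P →₀ ℂ) :=
  Finsupp.mapRange.addMonoidHom (Complex.ofRealHom : ℝ →+* ℂ).toAddMonoidHom

theorem toC_apply (v : P →₀ ℝ) (f : P) : toC v f = ((v f : ℝ) : ℂ) := rfl

theorem toC_smul (a : ℝ) (v : P →₀ ℝ) : toC (a • v) = (a : ℂ) • toC v := by
  refine Finsupp.ext fun f => ?_
  rw [toC_apply, Finsupp.smul_apply, Finsupp.smul_apply, toC_apply, smul_eq_mul, smul_eq_mul,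
    Complex.ofReal_mul]

theorem toC_injective : Function.Injective (toC : (P →₀ ℝ) →+ (P →₀ ℂ)) := by
  intro v w h
  refine Finsupp.ext fun f => ?_
  have := DFunLike.congr_fun h f
  rw [toC_apply, toC_apply] at this
  exact Complex.ofReal_injective this

theorem toC_ne {v : P →₀ ℝ} (hv : v ≠ 0) : toC v ≠ 0 := fun h =>
  hv (toC_injective (h.trans (map_zero toC).symm))

theorem toC_single (f : P) (a : ℝ) : toC (Finsupp.single f a) = Finsupp.single f (a : ℂ) := by
  refine Finsupp.ext fun g => ?_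
  rw [toC_apply]
  classical
  rw [Finsupp.single_apply, Finsupp.single_apply]
  split_ifs <;> simp

theorem toC_toV (o : Option P) : toC (toV ℝ o) = toV ℂ o := by
  cases o with
  | none => simp
  | some g => rw [toV_some, toV_some, toC_single, Complex.ofReal_one]

theorem toC_lin (m : P → Option P) (v : P →₀ ℝ) : toC (lin ℝ m v) = lin ℂ m (toC v) := by
  induction v using Finsupp.induction_linear with
  | zero => simp
  | add v w hv hw => rw [map_add, map_add, map_add, map_add, hv, hw]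
  | single f a => rw [lin_single, toC_smul, toC_toV, toC_single, lin_single]

end base

namespace PatSys
variable {P : Type*} (S : PatSys P)

theorem toC_e (i : ℕ) (v : P →₀ ℝ) : toC ((S.tower ℝ).e i v) = (S.tower ℂ).e i (toC v) := by
  rw [tower_e_lin, tower_e_lin, toC_lin]

theorem toC_X (i : ℕ) (p : ℝ) (v : P →₀ ℝ) :
    toC ((S.tower ℝ).X i p v) = (S.tower ℂ).X i (p : ℂ) (toC v) := by
  rw [Tower.X_def, Tower.X_def]
  simp only [LinearMap.add_apply, LinearMap.smul_apply, Module.End.one_apply, map_add, toC_smul,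
    toC_e, Complex.ofReal_sub, Complex.ofReal_one]

theorem toC_Ah (n : ℕ) : ∀ (k : ℕ) (p : ℝ) (v : P →₀ ℝ),
    toC ((S.tower ℝ).Ah n k p v) = (S.tower ℂ).Ah n k (p : ℂ) (toC v) := by
  induction n with
  | zero => intro k p v; rfl
  | succ n ih =>
    intro k p v
    rw [Tower.Ah_succ, Tower.Ah_succ]
    simp only [Module.End.mul_apply]
    rw [toC_X, ih, toC_X]

/-- **base change for the double row matrix** -/
theorem toC_Dh (n : ℕ) : ∀ (k : ℕ) (p : ℝ) (v : P →₀ ℝ),
    toC ((S.tower ℝ).Dh n k p v) = (S.tower ℂ).Dh n k (p : ℂ) (toC v) := by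
  induction n with
  | zero => intro k p v; rfl
  | succ n ih =>
    intro k p v
    rw [Tower.Dh_succ, Tower.Dh_succ]
    simp only [LinearMap.add_apply, LinearMap.smul_apply, map_add, toC_smul, toC_Ah, ih,
      Complex.ofReal_sub, Complex.ofReal_one, Complex.ofReal_mul]

theorem toC_mem {N l : ℕ} {v : P →₀ ℝ} (hv : v ∈ S.W ℝ N l) : toC v ∈ S.W ℂ N l := by
  rw [mem_W] at hv ⊢
  intro f hf
  refine hv f fun h => hf ?_
  rw [toC_apply, h, Complex.ofReal_zero]

variable {S} {N l : ℕ} {v : S.W ℝ N l} {d : ℝ[X]}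

theorem eigen_C (h : ∀ p : ℝ, S.DW ℝ N l p v = d.eval p • v) (p : ℝ) :
    (S.tower ℂ).Dh N 0 (p : ℂ) (toC (v : P →₀ ℝ)) = ((d.eval p : ℝ) : ℂ) • toC (v : P →₀ ℝ) := by
  rw [← toC_Dh, ← DW_coe, h, Submodule.coe_smul, toC_smul]

/-- **the eigenvalue polynomial of a real joint eigenvector solves `DR.Sol`** -/
theorem sol_W (hv : v ≠ 0) (hd : d.natDegree ≤ 2 * N)
    (h : ∀ p : ℝ, S.DW ℝ N l p v = d.eval p • v) : DR.Sol N (d.map (algebraMap ℝ ℂ)) :=
  Pool.Agent.Rect.Herm.sol_real (S.tower ℂ)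
    (toC_ne fun h0 => hv (Subtype.ext h0)) hd (eigen_C h)

/-- **its value at the braid points** -/
theorem braid_W (hv : v ≠ 0) (h : ∀ p : ℝ, S.DW ℝ N l p v = d.eval p • v) {p : ℂ}
    (hp : p ^ 2 - p + 1 = 0) :
    (d.map (algebraMap ℝ ℂ)).eval p = if l % 3 = 2 then -2 else 1 :=
  Pool.Agent.Rect.Herm.braid_real (S.tower ℂ)
    (toC_ne fun h0 => hv (Subtype.ext h0)) (eigen_C h)
    (S.W_le_gen ℂ N l (S.toC_mem v.2)) hp

end PatSys

/-! ### The joint eigenvalues of a Hermitian family on `S.W ℝ N l` -/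

section fam
open Pool.Agent.Rect.Herm
variable {P : Type*} {S : PatSys P} {N l : ℕ} {J : Type*} [Fintype J]
  {H : Fam (S.W ℝ N l) J (2 * N)} (Sp : Spec H)
include Sp

theorem spec_sol (hD : ∀ p v, H.D p v = S.DW ℝ N l p v) (k) :
    DR.Sol N ((Sp.d k).map (algebraMap ℝ ℂ)) :=
  PatSys.sol_W (Sp.v.ne_zero k) (Sp.deg k) fun p => by rw [← hD, Sp.ev]

theorem spec_braid (hD : ∀ p v, H.D p v = S.DW ℝ N l p v) (k) {p : ℂ} (hp : p ^ 2 - p + 1 = 0) :
    ((Sp.d k).map (algebraMap ℝ ℂ)).eval p = if l % 3 = 2 then -2 else 1 :=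
  PatSys.braid_W (Sp.v.ne_zero k) (fun p => by rw [← hD, Sp.ev]) hp

end fam

end Rect.Alg
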