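import Pool.Agent.Rect.Herm.Strong
import Pool.Agent.Rect.Herm.HForm
import Pool.Agent.Rect.Herm.SForm
import Pool.Agent.Rect.Herm.Inst
import Pool.Agent.Rect.Herm.SolW
import Pool.Agent.Rect.Herm.Tower
import Pool.Agent.Rect.Alg.Irr
import Pool.Agent.Rect.Alg.Zvec
import Pool.Agent.Rect.Alg.InstU
import Pool.Agent.Rect.Perc.Word

/-!
# The Hermitian family of the standard module with two defects

`famW p`: the structure `Fam` for `W (2 p + 2) 2`; `inputW`: the structure `Fam.Input`;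
`hermData_of`: the data `HermData (p + 1)`.  `HInput p`, the form against `z`, is a hypothesis here.
-/

set_option autoImplicit false

namespace Pool.Agent.Rect.Herm

open Module Polynomial Finset Pool.Agent.Helper9.DR _root_.Rect.Alg RectAlg

/-- the hidden scalar product of patterns with `p` arcs and two defects -/
noncomputable def Sp (p : ℕ) : (Pat →₀ ℝ) →ₗ[ℝ] (Pat →₀ ℝ) →ₗ[ℝ] ℝ := (hfam ℝ).SfL (2 * p + 1) p

/-- the fact on the hidden scalar product which is proved in another file -/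
structure HInput (p : ℕ) : Prop where
  /-- the product with `z` -/
  z : ∀ w ∈ patSys.W ℝ (2 * p + 2) 2, (hfam ℝ).Sf (2 * p + 1) p (patSys.zvec ℝ p) w =
    tot ℝ ((2 * p + 1 : ℝ) • w - ∑ i ∈ range (2 * p + 1), (patSys.tower ℝ).e i w)

/-- a form on the tower restricted to a submodule -/
noncomputable def resF {E : Type*} [AddCommGroup E] [Module ℝ E] (W : Submodule ℝ E)
    (B : E →ₗ[ℝ] E →ₗ[ℝ] ℝ) : W →ₗ[ℝ] W →ₗ[ℝ] ℝ := (W.subtype.dualMap ∘ₗ B) ∘ₗ W.subtype

theorem resF_apply {E : Type*} [AddCommGroup E] [Module ℝ E] (W : Submodule ℝ E)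
    (B : E →ₗ[ℝ] E →ₗ[ℝ] ℝ) (v w : W) : resF W B v w = B v w := rfl

/-- functionals on a submodule extend -/
theorem exists_ext {E : Type*} [AddCommGroup E] [Module ℝ E] (W : Submodule ℝ E) (f : W →ₗ[ℝ] ℝ) :
    ∃ g : E →ₗ[ℝ] ℝ, ∀ v : W, g v = f v := by
  obtain ⟨r, hr⟩ := LinearMap.exists_leftInverse_of_injective (K := ℝ) (V := W)
    (V' := E) W.subtype (Submodule.ker_subtype W)
  exact ⟨f ∘ₗ r, fun v => congrArg f (LinearMap.congr_fun hr v)⟩

variable {p : ℕ}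

/-- the product with `b` is the coefficient of `b` -/
theorem Sp_b {w : Pat →₀ ℝ} (hw : w ∈ patSys.W ℝ (2 * p + 2) 2) :
    Sp p (Finsupp.single (patSys.bp p) 1) w = w (patSys.bp p) := Sf_bk ℝ hw

theorem derW (f : patSys.W ℝ (2 * p + 2) 2 →ₗ[ℝ] ℝ) (x : patSys.W ℝ (2 * p + 2) 2) :
    HasDerivAt (fun t => f (patSys.DW ℝ (2 * p + 2) 2 t x))
      ((2 * (2 * p + 1) : ℝ) * f x - f (patSys.hW ℝ (2 * p + 2) 2 x)) 1 := by
  obtain ⟨g, hg⟩ := exists_ext _ f
  have h := Dh_hasDerivAt (patSys.tower ℝ) (2 * p + 1) 0 g (x : Pat →₀ ℝ)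
  have e1 : (fun t => g ((patSys.tower ℝ).Dh (2 * p + 1 + 1) 0 t x)) =
      fun t => f (patSys.DW ℝ (2 * p + 2) 2 t x) := by
    funext t
    rw [← hg, PatSys.DW_coe]
  rw [e1] at h
  refine h.congr_deriv ?_
  have e2 : (∑ i ∈ range (2 * p + 1), (2 : ℝ) • (patSys.tower ℝ).e (0 + i) (x : Pat →₀ ℝ)) =
      ((patSys.hW ℝ (2 * p + 2) 2 x : patSys.W ℝ (2 * p + 2) 2) : Pat →₀ ℝ) := by
    rw [PatSys.hW_coe, PatSys.hT_apply, Finset.smul_sum]
    refine sum_congr rfl fun i _ => ?_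
    rw [Nat.zero_add]
  rw [e2, hg, hg]
  push_cast
  ring

/-- **the Hermitian family** -/
noncomputable def famW (p : ℕ) :
    Fam (patSys.W ℝ (2 * p + 2) 2) (patSys.PN (2 * p + 2) 2) (2 * (2 * p + 2)) where
  e := patSys.basis ℝ (2 * p + 2) 2
  B := resF _ (Sp p)
  symm x y := by rw [resF_apply, resF_apply]; exact (hfam ℝ).Sf_symm _ _ _ _
  pos x hx := by
    rw [resF_apply]
    exact Sf_pos (m := 2 * p + 1) (k := p) (by omega) x.2 fun h => hx (Subtype.ext h)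
  F := patSys.GW ℝ (2 * p + 2) 2
  Fsymm x y := patSys.GW_symm ℝ patSys_hU _ _ x y
  D := patSys.DW ℝ (2 * p + 2) 2
  C := (patSys.DW_coeff ℝ (2 * p + 2) 2).choose
  hD := (patSys.DW_coeff ℝ (2 * p + 2) 2).choose_spec
  comm t s := patSys.DW_comm ℝ _ _ t s
  sa t x y := by
    rw [resF_apply, resF_apply, PatSys.DW_coe, PatSys.DW_coe]
    exact (hfam ℝ).Sf_D (c2_pos t).ne' (by norm_num) (m := 2 * p + 1) (by omega) x.2 y.2
  Fsa t x y := patSys.GW_DW ℝ patSys_hU _ _ t x y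
  c := 2 * (2 * p + 1)
  h := patSys.hW ℝ (2 * p + 2) 2
  der f x := derW f x
  off i j _ := patSys.h_nonneg i j
  irr i j := patSys.h_irr i j
  T i j := patSys.D_nonneg (by norm_num) (by norm_num) i j
  b := ⟨Finsupp.single (patSys.bp p) 1, patSys.single_mem_W ℝ (patSys.bp_mem p) 1⟩
  Bb i := by
    rw [resF_apply, PatSys.basis_apply]
    rw [Sp_b (patSys.single_mem_W ℝ i.2 1)]
    exact Finsupp.single_nonneg.2 zero_le_one _
  Bb' := ⟨⟨patSys.bp p, patSys.bp_mem p⟩, by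
    rw [resF_apply, PatSys.basis_apply]
    rw [Sp_b (patSys.single_mem_W ℝ (patSys.bp_mem p) 1), Finsupp.single_eq_same]
    exact one_ne_zero⟩
  Fb i := by
    rw [PatSys.GW_apply, PatSys.basis_apply]
    rw [patSys.gram_bp ℝ patSys_hU p (patSys.single_mem_W ℝ i.2 1), tot_single]
    exact zero_le_one
  Fb' := ⟨⟨patSys.bp p, patSys.bp_mem p⟩, by
    rw [PatSys.GW_apply, PatSys.basis_apply]
    rw [patSys.gram_bp ℝ patSys_hU p (patSys.single_mem_W ℝ (patSys.bp_mem p) 1), tot_single]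
    exact one_ne_zero⟩

theorem bb_eq : ∀ n : ℕ, H81Rect.bb n = patSys.bp n
  | 0 => rfl
  | n + 1 => by
    rw [PatSys.bp_succ, ← bb_eq n]
    rfl

theorem PmT_eq : ∀ m : ℕ, H81Rect.PmT m = PP (patSys.tower ℝ) m
  | 0 => rfl
  | k + 1 => by
    rw [PP_succ, ← PmT_eq k]
    rfl

theorem DW_pow_coe (N l : ℕ) (t : ℝ) (M : ℕ) (v : patSys.W ℝ N l) :
    (((patSys.DW ℝ N l t ^ M) v : patSys.W ℝ N l) : Pat →₀ ℝ) =
      ((patSys.tower ℝ).Dh N 0 t ^ M) v := by
  induction M generalizing v with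
  | zero => rfl
  | succ M ih =>
    rw [pow_succ, pow_succ, Module.End.mul_apply, Module.End.mul_apply, ih, PatSys.DW_coe]

/-- the remaining input -/
theorem inputW (X : HInput p) : (famW p).Input (p + 1) where
  psd x := by
    change 0 ≤ Sp p x (((patSys.DW ℝ (2 * p + 2) 2 (1 / 2) x) : patSys.W ℝ (2 * p + 2) 2) : Pat →₀ ℝ)
    rw [PatSys.DW_coe]
    have h := (hfam ℝ).Sf_D_nonneg (p := 1 / 2) (by norm_num) (by norm_num) (by norm_num)
      (k := p) (m := 2 * p + 1) (by omega) (v := (x : Pat →₀ ℝ)) x.2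
    rw [(hfam ℝ).Sf_symm] at h
    exact h
  hnn i j := patSys.h_nonneg i j
  big := ⟨PatSys.epsD (2 * p + 2) (1 / 2), PatSys.epsD_pos _ (by norm_num) (by norm_num),
    fun i j => patSys.D_dom (by norm_num) (by norm_num) i j⟩
  col j := by
    have h := patSys.h_colsum (N := 2 * p + 2) (by omega) j
    refine h.trans (le_of_eq ?_)
    change _ = (2 * (2 * p + 1) : ℝ)
    push_cast
    ring
  col' := by
    have h := patSys.h_colsum_strict (l := 2) le_rfl p
    rw [show 2 + 2 * p = 2 * p + 2 by ring] at h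
    obtain ⟨g, hg⟩ := h
    refine ⟨g, hg.trans_le (le_of_eq ?_)⟩
    change _ = (2 * (2 * p + 1) : ℝ)
    push_cast
    ring
  sol v d hv hd hev := by
    have e : 2 * (p + 1) = 2 * p + 2 := by ring
    rw [e]
    refine ⟨PatSys.sol_W (S := patSys) (N := 2 * p + 2) (l := 2) hv hd hev, fun q hq => ?_⟩
    have := PatSys.braid_W (S := patSys) (N := 2 * p + 2) (l := 2) hv hev hq
    rw [this, if_pos (by norm_num)]
  all M := by
    rw [H81Rect.pA_dict (by omega)]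
    change _ = Sp p (Finsupp.single (patSys.bp p) 1)
      ((((patSys.DW ℝ (2 * p + 2) 2 (1 / 2)) ^ M) _ : patSys.W ℝ (2 * p + 2) 2) : Pat →₀ ℝ)
    rw [Sp_b (Subtype.property _), DW_pow_coe, Nat.add_sub_cancel, bb_eq, one_div]
    have e : 2 * (p + 1) = 2 * p + 2 := by ring
    rw [e, H81Rect.vb, Nat.add_sub_cancel, bb_eq]
    rfl
  cross M := by
    rw [H81Rect.P_dict (by omega)]
    change _ = patSys.GW ℝ (2 * p + 2) 2 _ (((patSys.DW ℝ (2 * p + 2) 2 (1 / 2)) ^ M) _)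
    rw [PatSys.GW_apply]
    refine Eq.trans ?_ (patSys.gram_bp ℝ patSys_hU p (Subtype.property _)).symm
    rw [DW_pow_coe, one_div]
    have e : 2 * (p + 1) = 2 * p + 2 := by ring
    rw [e, H81Rect.vb, Nat.add_sub_cancel, bb_eq]
    rfl
  merge := by
    refine ⟨1 / 2, ⟨patSys.zvec ℝ p, patSys.zvec_mem ℝ p⟩, by norm_num, fun x => ?_, fun M => ?_⟩
    · change (hfam ℝ).Sf (2 * p + 1) p (patSys.zvec ℝ p) x =
        1 / 2 * patSys.GW ℝ (2 * p + 2) 2 _ _
      have e3 : patSys.GW ℝ (2 * p + 2) 2 (famW p).b ((famW p).c • x - (famW p).h x) =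
          tot ℝ ((2 * (2 * p + 1) : ℝ) • (x : Pat →₀ ℝ) - patSys.hT ℝ (2 * p + 2) x) :=
        patSys.gram_bp ℝ patSys_hU p ((famW p).c • x - (famW p).h x).2
      refine (X.z _ x.2).trans ?_
      refine Eq.trans ?_ (congrArg (fun t => 1 / 2 * t) e3).symm
      rw [PatSys.hT_apply]
      have e4 : (2 * (2 * p + 1) : ℝ) • (x : Pat →₀ ℝ) -
          (2 : ℝ) • ∑ i ∈ range (2 * p + 2 - 1), (patSys.tower ℝ).e i x =
          (2 : ℝ) • ((2 * p + 1 : ℝ) • (x : Pat →₀ ℝ) -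
            ∑ i ∈ range (2 * p + 1), (patSys.tower ℝ).e i x) := by
        rw [smul_sub, smul_smul]
        rfl
      rw [e4, map_smul, smul_eq_mul, ← mul_assoc]
      norm_num
    · change _ = patSys.GW ℝ (2 * p + 2) 2 _ (((patSys.DW ℝ (2 * p + 2) 2 (1 / 2)) ^ M) _)
      rw [PatSys.GW_apply, H47Perc.RC.pB, H81Rect.sum_pI_dict (by omega)]
      refine Eq.trans ?_ (patSys.gram_zvec ℝ patSys_hU p (Subtype.property _)).symm
      rw [DW_pow_coe, one_div]
      have e : 2 * (p + 1) = 2 * p + 2 := by ring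
      rw [e, H81Rect.vb, Nat.add_sub_cancel, bb_eq, PmT_eq]
      rfl

/-- **the spectral data of the rectangles** -/
theorem hermData_of (X : ∀ p, HInput p) (n : ℕ) (hn : 1 ≤ n) : Nonempty (H47Perc.RC.HermData n) := by
  obtain ⟨p, rfl⟩ : ∃ p, n = p + 1 := ⟨n - 1, by omega⟩
  exact (inputW (X p)).data

end Pool.Agent.Rect.Herm
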