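import Pool.Agent.Rect.Herm.ToLattice
import Pool.Agent.Helper40.A4.SpecQuant

/-!
The field `spec` of `RectMod.Lattice` from the spectral data and the quantisation theorem
`A4.spec_quant_A`; the levels are bounded below by duality and RSW.
-/

set_option autoImplicit false

namespace H47Perc.RC
open Finset H47Perc Filter Polynomial

/-- all levels are bounded below -/
theorem HermData.lam_le_exp {n : ℕ} (D : HermData n) (hn : 1 ≤ n) {c : ℝ} (h : P n (n + 1) ≤ 1 - c)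
    (hc : 0 ≤ c) (k : D.K) : D.lam k ≤ Real.exp (-(c / ((2 * n : ℕ) : ℝ))) := by
  refine (D.lam_le k).trans ?_
  have h1 := D.lam0_pow_le (fun M => P_pos n M hn) (n + 1)
  have h2 : 1 - c ≤ Real.exp (-c) := by have := Real.add_one_le_exp (-c); linarith
  have h3 : D.lam D.k0 ^ (n + 1) ≤ Real.exp (-c) := h1.trans (h.trans h2)
  have hn0 : (0 : ℝ) < n := by exact_mod_cast hn
  by_contra hcon
  push Not at hcon
  have h4 : Real.exp (-(c / (2 * n : ℕ))) ^ (n + 1) < D.lam D.k0 ^ (n + 1) :=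
    pow_lt_pow_left₀ hcon (Real.exp_pos _).le (by omega)
  rw [← Real.exp_nat_mul] at h4
  have h5 : -c ≤ ((n + 1 : ℕ) : ℝ) * -(c / (2 * n : ℕ)) := by
    push_cast
    have e : ((n : ℝ) + 1) * -(c / (2 * n)) = -(c * ((n + 1) / (2 * n))) := by ring
    rw [e, neg_le_neg_iff]
    have h6 : ((n : ℝ) + 1) / (2 * n) ≤ 1 := by
      rw [div_le_one (by positivity)]
      have : (1 : ℝ) ≤ n := by exact_mod_cast hn
      linarith
    nlinarith
  have h7 := Real.exp_le_exp.2 h5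
  linarith

/-- **the field `spec` of `RectMod.Lattice`** -/
theorem spec_of_data (hD : ∀ n : ℕ, 1 ≤ n → Nonempty (HermData n))
    (hdual : ∀ n M : ℕ, 1 ≤ n → 1 ≤ M → P n M ≤ 1 - P (M - 1) n) :
    ∃ (K : ℕ → Type) (_ : ∀ n, Fintype (K n)) (c d : ∀ n, K n → ℝ),
    (∀ n k, 1 ≤ n → 0 < d n k ∧ d n k ≤ 1) ∧
    (∀ n M, 1 ≤ n → 1 ≤ M → P n M = ∑ k, c n k * d n k ^ M) ∧
    (∀ n M, 1 ≤ n → 1 ≤ M → ∑ k, |c n k| * d n k ^ M ≤ 1 / P M n) ∧
    ∀ K₀ δ : ℝ, 0 < δ → ∀ᶠ n : ℕ in atTop, ∀ k, c n k ≠ 0 → -(n * Real.log (d n k)) ≤ K₀ →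
      ∃ m : ℕ, |-(n * Real.log (d n k)) - RectMod.lev m| < δ := by
  classical
  obtain ⟨c₀, hc₀, hrsw⟩ := rsw
  have hP : ∀ n : ℕ, 1 ≤ n → P n (n + 1) ≤ 1 - c₀ := by
    intro n hn
    have h1 := hdual n (n + 1) hn (by omega)
    have h2 := (hrsw n hn).trans (P_anti (n := n) (show n ≤ 2 * n by omega))
    rw [Nat.add_sub_cancel] at h1
    linarith
  have key : ∀ n : ℕ, ∃ (K : Type) (_ : Fintype K) (c : K → ℝ) (q : K → ℝ[X]), 1 ≤ n →
      (∀ k, 0 < (q k).eval (1 / 2) ∧ (q k).eval (1 / 2) ≤ 1) ∧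
      (∀ M, 1 ≤ M → P n M = ∑ k, c k * (q k).eval (1 / 2) ^ M) ∧
      (∀ M, 1 ≤ M → ∑ k, |c k| * (q k).eval (1 / 2) ^ M ≤ 1 / P M n) ∧
      (∀ k, DR.Sol (2 * n) ((q k).map (algebraMap ℝ ℂ))) ∧
      (∀ k (p : ℂ), p ^ 2 - p + 1 = 0 → ((q k).map (algebraMap ℝ ℂ)).eval p = -2) ∧
      (∀ k, (q k).eval (1 / 2) ≤ Real.exp (-(c₀ / ((2 * n : ℕ) : ℝ)))) := by
    intro n
    by_cases h : 1 ≤ n
    · obtain ⟨D⟩ := hD n h
      have key2 : ∀ (f : D.K → ℝ) (M : ℕ), 1 ≤ M →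
          ∑ k : {k : D.K // 0 < D.lam k}, f k * D.lam k ^ M = ∑ k, f k * D.lam k ^ M := by
        intro f M hM
        have h1 : ∑ k : {k : D.K // 0 < D.lam k}, f k * D.lam k ^ M =
            ∑ k ∈ univ.filter (fun k : D.K => 0 < D.lam k), f k * D.lam k ^ M := by
          rw [← Finset.sum_subtype_eq_sum_filter]
          exact (Finset.sum_congr (by ext; simp) fun _ _ => rfl)
        rw [h1]
        apply Finset.sum_filter_of_ne
        intro k _ hk
        rcases (D.lam_nn k).lt_or_eq with h | h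
        · exact h
        · exfalso
          apply hk
          rw [← h, zero_pow (by omega), mul_zero]
      refine ⟨{k : D.K // 0 < D.lam k}, inferInstance, fun k => D.c k, fun k => D.d k, fun _ =>
        ⟨fun k => ⟨k.2, D.lam_le_one (fun M => P_pos n M h) k⟩,
        fun M hM => (D.P_eq M).trans (key2 D.c M hM).symm,
        fun M hM => le_trans (le_of_eq (key2 (fun k => |D.c k|) M hM)) (D.bound h hM),
        fun k => D.sol k, fun k => D.braid k, fun k => D.lam_le_exp h (hP n h) hc₀.le k⟩⟩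
    · exact ⟨Empty, inferInstance, fun _ => 0, fun _ => 0, fun h' => absurd h' h⟩
  choose K hK c q h using key
  refine ⟨K, hK, c, fun n k => (q n k).eval (1 / 2), fun n k hn => (h n hn).1 k,
    fun n M hn hM => (h n hn).2.1 M hM, fun n M hn hM => (h n hn).2.2.1 M hM, ?_⟩
  intro K₀ δ hδ
  have h2 : Tendsto (fun n : ℕ => 2 * n) atTop atTop :=
    tendsto_atTop_mono (fun n => (by show n ≤ 2 * n; omega)) tendsto_id
  filter_upwards [h2.eventually (A4.spec_quant_A (K := 2 * K₀) (c := c₀) (δ := 2 * δ) hc₀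
    (by linarith)), eventually_ge_atTop 1] with n h3 hn
  intro k _ hk
  obtain ⟨h4, -, -, h5, h6, h8⟩ := h n hn
  have h7 : 0 < (q n k).eval (1 / 2) := (h4 k).1
  have hn0 : (0 : ℝ) < n := by exact_mod_cast hn
  obtain ⟨m, hm⟩ := h3 (q n k) (h5 k) (h6 k) (by
    rw [← Real.le_log_iff_exp_le h7]
    push_cast
    rw [mul_div_mul_left _ _ (two_ne_zero), ← neg_div, div_le_iff₀ hn0]
    linarith) (h8 k)
  refine ⟨m, ?_⟩
  unfold RectMod.lev
  push_cast at hm
  rw [abs_lt] at hm ⊢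
  constructor <;> linarith [hm.1, hm.2]

end H47Perc.RC
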