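import Pool.Agent.Rect.Herm.Z2g
import Pool.Agent.Rect.Herm.Inst
import Pool.Agent.Rect.Alg.Zvec

/-!
# `S(zvec, w) = (1 | (N - 1 - sum e_i) w)` on the link patterns
-/

set_option autoImplicit false

namespace Pool.Agent.Rect.Herm

open Pool.Agent.Helper9.DR Pool.Agent.Helper30.Rect Rect.Alg Module

section T

variable {K : Type*} [Field K] {V : Type*} [AddCommGroup V] [Module K V] (T : Tower K V)

/-- `(1 - e_2) ... (1 - e_{2k})` -/
def Q2 : ℕ → End K V
  | 0 => 1
  | k + 1 => Q2 k * (1 - T.e (2 * k + 2))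

/-- `(1 + e_{2k+1}) ... (1 + e_3)` -/
def P3 : ℕ → End K V
  | 0 => 1
  | k + 1 => (1 + T.e (2 * k + 3)) * P3 k

theorem QQ_eq (k : ℕ) : QQ T (k + 1) = (1 - T.e 0) * Q2 T k := by
  induction k with
  | zero => simp [QQ, Q2]
  | succ k ih =>
    rw [QQ_succ, ih, Q2, mul_assoc, show 2 * (k + 1) = 2 * k + 2 by ring]

theorem Q2_c1 (k : ℕ) : Q2 T (k + 1) * T.c 1 = (T.c 1 - T.c 2) * Q2 T k := by
  induction k with
  | zero =>
    have h : T.e 2 * T.c 1 = T.c 2 := T.e1c 1
    simp only [Q2, mul_zero, zero_add, one_mul, mul_one, sub_mul, h]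
  | succ k ih =>
    have h : T.e (2 * (k + 1) + 2) * T.c 1 = T.c 1 * T.e (2 * k + 2) := T.ec (by omega)
    have h2 : (1 - T.e (2 * (k + 1) + 2)) * T.c 1 = T.c 1 * (1 - T.e (2 * k + 2)) := by
      rw [sub_mul, one_mul, h, mul_sub, mul_one]
    rw [Q2, mul_assoc, h2, ← mul_assoc, ih, mul_assoc]
    rfl

theorem P3_c1 (k : ℕ) : P3 T (k + 1) * T.c 1 = T.c 1 * ((1 + T.e 1) * P3 T k) := by
  induction k with
  | zero =>
    have h : T.e 3 * T.c 1 = T.c 1 * T.e 1 := T.ec le_rfl
    simp only [P3, mul_zero, zero_add, mul_one, add_mul, mul_add, one_mul, h]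
  | succ k ih =>
    have h : T.e (2 * (k + 1) + 3) * T.c 1 = T.c 1 * T.e (2 * k + 3) := by
      have := T.ec (i := 1) (j := 2 * k + 3) (by omega)
      rw [← this]
      rfl
    have h2 : (1 + T.e (2 * (k + 1) + 3)) * T.c 1 = T.c 1 * (1 + T.e (2 * k + 3)) := by
      rw [add_mul, one_mul, h, mul_add, mul_one]
    have h3 : T.e (2 * k + 3) * T.e 1 = T.e 1 * T.e (2 * k + 3) := T.ecomm (by omega)
    have h4 : (1 + T.e (2 * k + 3)) * (1 + T.e 1) = (1 + T.e 1) * (1 + T.e (2 * k + 3)) := by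
      rw [mul_add, mul_add, add_mul, add_mul, h3]
      noncomm_ring
    rw [P3, mul_assoc, ih, ← mul_assoc, h2, mul_assoc, ← mul_assoc (1 + T.e (2 * k + 3)), h4,
      mul_assoc]
    rfl

theorem P3_c2 (k : ℕ) : P3 T (k + 1) * T.c 2 = (T.c 2 + T.c 3) * P3 T k := by
  induction k with
  | zero =>
    have h : T.e 3 * T.c 2 = T.c 3 := T.e1c 2
    simp only [P3, mul_zero, zero_add, mul_one, add_mul, one_mul, h]
  | succ k ih =>
    have h2 : ∀ i, i ≤ 3 → (1 + T.e (2 * (k + 1) + 3)) * T.c i = T.c i * (1 + T.e (2 * k + 3)) := by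
      intro i hi
      have h : T.e (2 * (k + 1) + 3) * T.c i = T.c i * T.e (2 * k + 3) := by
        have := T.ec (i := i) (j := 2 * k + 3) (by omega)
        rw [← this]
        rfl
      rw [add_mul, one_mul, h, mul_add (T.c i), mul_one]
    rw [P3, mul_assoc, ih, ← mul_assoc, mul_add, h2 2 (by omega), h2 3 (by omega), ← add_mul,
      mul_assoc]
    rfl

theorem PP_eq (k : ℕ) : PP T (k + 1) = (1 + T.e 1) * P3 T k := by
  induction k with
  | zero => simp [PP, P3]
  | succ k ih =>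
    have h3 : T.e (2 * k + 3) * T.e 1 = T.e 1 * T.e (2 * k + 3) := T.ecomm (by omega)
    have h4 : (1 + T.e (2 * k + 3)) * (1 + T.e 1) = (1 + T.e 1) * (1 + T.e (2 * k + 3)) := by
      rw [mul_add, mul_add, add_mul, add_mul, h3]
      noncomm_ring
    rw [PP_succ, ih, show 2 * (k + 1) + 1 = 2 * k + 3 by ring, ← mul_assoc, h4, mul_assoc]
    rfl

theorem P3_e0 (k : ℕ) : P3 T k * (1 - T.e 0) = (1 - T.e 0) * P3 T k := by
  induction k with
  | zero => simp [P3]
  | succ k ih =>
    have h3 : T.e (2 * k + 3) * T.e 0 = T.e 0 * T.e (2 * k + 3) := T.ecomm (by omega)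
    have h4 : (1 + T.e (2 * k + 3)) * (1 - T.e 0) = (1 - T.e 0) * (1 + T.e (2 * k + 3)) := by
      simp only [mul_sub (1 + T.e (2 * k + 3)), mul_add (1 - T.e 0), add_mul, sub_mul, mul_one,
        one_mul, h3]
      abel
    rw [P3, mul_assoc, ih, ← mul_assoc, h4, mul_assoc]

theorem tau_eq (Om : V) (k : ℕ) : tau2 T Om (k + 1) =
    (-1 : K) ^ (k + 1) • (P3 T k * Q2 T (k + 1)) ((T.c 1 ^ (k + 1)) Om) := by
  induction k with
  | zero =>
    have h := LinearMap.congr_fun (Q2_c1 T 0) Om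
    simp only [Module.End.mul_apply] at h
    rw [P3, one_mul, zero_add, pow_one, pow_one, h]
    simp only [Q2, Module.End.one_apply, LinearMap.sub_apply, neg_smul, one_smul, neg_sub]
    rfl
  | succ k ih =>
    set b := (T.c 1 ^ (k + 1)) Om with hb
    set s := (Q2 T (k + 1)) b with hs
    have e1 : (T.c 1 ^ (k + 1 + 1)) Om = T.c 1 b := by
      rw [pow_succ', Module.End.mul_apply]
    have h := LinearMap.congr_fun (Q2_c1 T (k + 1)) b
    have h1 := LinearMap.congr_fun (P3_c1 T k) s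
    have h2 := LinearMap.congr_fun (P3_c2 T k) s
    simp only [Module.End.mul_apply, LinearMap.add_apply, LinearMap.sub_apply,
      Module.End.one_apply, map_add] at h h1 h2
    have e2 : tau2 T Om (k + 1 + 1) = T.c 2 (tau2 T Om (k + 1)) + T.c 3 (tau2 T Om (k + 1)) -
      T.c 1 (tau2 T Om (k + 1)) - T.c 1 (T.e 1 (tau2 T Om (k + 1))) := rfl
    rw [e2, e1, Module.End.mul_apply, h, map_sub, ← hs, h1, h2, ih, Module.End.mul_apply, ← hs]
    simp only [map_smul, pow_succ (-1 : K) (k + 1)]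
    module

theorem zz_eq {Om : V} (h0 : T.k 0 Om = 0) (k : ℕ) : zz2 T Om k =
    PP T k ((-1 : K) ^ k • QQ T (k + 1) ((T.c 1 ^ k) Om)) := by
  cases k with
  | zero =>
    have h1 : T.e 0 Om = 0 := by rw [T.e_def, Module.End.mul_apply, h0, map_zero]
    rw [zz2, QQ_eq, PP, Q2, mul_one, pow_zero, one_smul, pow_zero, Module.End.one_apply,
      Module.End.one_apply, LinearMap.sub_apply, Module.End.one_apply, h1, sub_zero]
  | succ k =>
    have h1 := LinearMap.congr_fun (P3_e0 T k) (Q2 T (k + 1) ((T.c 1 ^ (k + 1)) Om))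
    simp only [Module.End.mul_apply] at h1
    rw [zz2, uu2, tau_eq, PP_eq, QQ_eq]
    simp only [Module.End.mul_apply, map_smul, h1]
    simp only [LinearMap.add_apply, LinearMap.sub_apply, Module.End.one_apply, map_sub, map_smul]
    module

end T

section Pat
open RectAlg

variable (K : Type*) [Field K]

theorem zz_eq_zvec (k : ℕ) :
    zz2 (patSys.tower K) (Finsupp.single Pat.vac 1) k = patSys.zvec K k := by
  have h0 : (patSys.tower K).k 0 (Finsupp.single Pat.vac 1) = 0 := by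
    rw [patSys.tower_k, one_smul]
    change toV K (Pat.k 0 Pat.vac) = 0
    rw [Pat.k_vac]
    rfl
  have h1 : ∀ k, ((patSys.tower K).c 1 ^ k) (Finsupp.single Pat.vac 1) =
      Finsupp.single (patSys.bp k) 1 := by
    intro k
    induction k with
    | zero => rfl
    | succ k ih =>
      rw [pow_succ', Module.End.mul_apply, ih, patSys.tower_c, patSys.bp_succ]
  rw [zz_eq _ h0, h1]
  rfl

theorem Fp_zero (f : Pat) : ∀ N, Fp (List.replicate N 0) f = 1 := by
  intro N
  unfold Fp Kfun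
  simp

/-- **(Z2) on the patterns** -/
theorem Sf_zvec (k : ℕ) {w : Pat →₀ K} (hw : w ∈ patSys.W K (2 * k + 2) 2) :
    (hfam K).Sf (2 * k + 1) k (patSys.zvec K k) w =
      tot K ((2 * k + 1 : K) • w - ∑ i ∈ Finset.range (2 * k + 1), (patSys.tower K).e i w) := by
  have hOm : (Finsupp.single Pat.vac 1 : Pat →₀ K) ∈ (hfam K).W 2 :=
    patSys.single_mem_W K (patSys.Om_mem 2) 1
  have hF : ∀ a b, (hfam K).F [a, b] (Finsupp.single Pat.vac 1) = (kap (a + b + 1) : K) := by
    intro a b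
    rw [hfam_F_single, Fp_vac, add_comm 1]
  have hW : ∀ v ∈ (hfam K).W 2, ∃ c : K, v = c • (Finsupp.single Pat.vac 1 : Pat →₀ K) := by
    intro v hv
    rw [hfam_W, PatSys.W_eq_span] at hv
    induction hv using Submodule.span_induction with
    | mem x hx =>
      obtain ⟨f, hf, rfl⟩ := hx
      refine ⟨1, ?_⟩
      rw [one_smul, patSys.PN_two hf]
      rfl
    | zero => exact ⟨0, by simp⟩
    | add x y _ _ hx hy =>
      obtain ⟨a, rfl⟩ := hx
      obtain ⟨b, rfl⟩ := hy
      exact ⟨a + b, by rw [add_smul]⟩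
    | smul a x _ hx =>
      obtain ⟨b, rfl⟩ := hx
      exact ⟨a * b, by rw [mul_smul]⟩
  have hw' : w ∈ (hfam K).W (2 * k + 2) := hw
  rw [← zz_eq_zvec, (hfam K).Sf_zz_eq hOm hF hW k hw']
  generalize (2 * k + 1 : K) • w - ∑ i ∈ Finset.range (2 * k + 1), (patSys.tower K).e i w = x
  induction x using Finsupp.induction_linear with
  | zero => simp
  | add x y hx hy => rw [map_add, map_add, hx, hy]
  | single f a =>
    have : Finsupp.single f a = a • (Finsupp.single f 1 : Pat →₀ K) := by simp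
    rw [this, map_smul, map_smul, hfam_F_single, Fp_zero, tot_single]
    simp

end Pat

end Pool.Agent.Rect.Herm
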