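import Mathlib

/-!
# Linear algebra of block HERM: joint diagonalisation and spectral measures

`V` is a real finite dimensional space with a positive definite symmetric form `B`; a family of
commuting `B`-self-adjoint operators has a joint `B`-orthonormal eigenbasis.  For an operator
polynomial `D p = ∑ p ^ j • C j` the eigenvalues are real polynomials.
-/

namespace Pool.Agent.Rect.Herm

open Module Polynomial Finset

section Joint

open Module.End in
/-- a commuting family of symmetric operators has a joint orthonormal eigenbasis -/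
theorem joint_inner {E : Type*} [NormedAddCommGroup E] [InnerProductSpace ℝ E]
    [FiniteDimensional ℝ E] {J : Type*} (A : J → E →ₗ[ℝ] E) (hs : ∀ j, (A j).IsSymmetric)
    (hc : ∀ i j, Commute (A i) (A j)) :
    ∃ (v : OrthonormalBasis (Fin (finrank ℝ E)) ℝ E) (lam : J → Fin (finrank ℝ E) → ℝ),
      ∀ j k, A j (v k) = lam j k • v k := by
  classical
  have hint := LinearMap.IsSymmetric.directSum_isInternal_of_pairwise_commute hs
    (fun i j _ => hc i j)
  have horth := LinearMap.IsSymmetric.orthogonalFamily_iInf_eigenspaces hs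
  set W : (J → ℝ) → Submodule ℝ E := fun γ => ⨅ j, eigenspace (A j) (γ j) with hW
  have hfin : {γ | W γ ≠ ⊥}.Finite :=
    WellFoundedGT.finite_ne_bot_of_iSupIndep hint.submodule_iSupIndep
  have : Fintype {γ // W γ ≠ ⊥} := hfin.fintype
  have hint' : DirectSum.IsInternal (fun γ : {γ // W γ ≠ ⊥} => W γ) :=
    DirectSum.isInternal_ne_bot_iff.mpr hint
  have horth' : OrthogonalFamily ℝ (fun γ : {γ // W γ ≠ ⊥} => W γ)
      fun γ => (W γ).subtypeₗᵢ := horth.comp Subtype.val_injective
  refine ⟨hint'.subordinateOrthonormalBasis rfl horth',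
    fun j k => (hint'.subordinateOrthonormalBasisIndex rfl k horth').1 j, fun j k => ?_⟩
  have hk := hint'.subordinateOrthonormalBasis_subordinate rfl k horth'
  have hk' := (Submodule.mem_iInf _).1 hk j
  exact mem_eigenspace_iff.1 hk'

variable {V : Type*} [AddCommGroup V] [Module ℝ V] [FiniteDimensional ℝ V]

/-- the same for a positive definite symmetric bilinear form -/
theorem joint_form (B : V →ₗ[ℝ] V →ₗ[ℝ] ℝ) (hs : ∀ x y, B x y = B y x)
    (hp : ∀ x, x ≠ 0 → 0 < B x x) {J : Type*} (A : J → V →ₗ[ℝ] V)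
    (hA : ∀ j x y, B (A j x) y = B x (A j y)) (hc : ∀ i j, Commute (A i) (A j)) :
    ∃ (v : Basis (Fin (finrank ℝ V)) ℝ V) (lam : J → Fin (finrank ℝ V) → ℝ),
      (∀ k l, B (v k) (v l) = if k = l then 1 else 0) ∧ ∀ j k, A j (v k) = lam j k • v k := by
  have hnn : ∀ x, 0 ≤ B x x := fun x => by
    by_cases hx : x = 0
    · simp [hx]
    · exact (hp x hx).le
  let cd : InnerProductSpace.Core ℝ V :=
    { inner := fun x y => B x y
      conj_inner_symm := fun x y => by simpa using hs y x
      re_inner_nonneg := fun x => by simpa using hnn x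
      add_left := fun x y z => by simp
      smul_left := fun x y r => by simp
      definite := fun x hx => by
        by_contra h
        exact (hp x h).ne' hx }
  let i1 : NormedAddCommGroup V := cd.toNormedAddCommGroup
  let i2 : InnerProductSpace ℝ V := InnerProductSpace.ofCore cd.toCore
  have hinner : ∀ x y : V, inner ℝ x y = B x y := fun x y => rfl
  obtain ⟨v, lam, h⟩ := joint_inner (E := V) A (fun j x y => by rw [hinner, hinner]; exact hA j x y) hc
  refine ⟨v.toBasis, lam, fun k l => ?_, fun j k => ?_⟩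
  · have := (orthonormal_iff_ite.1 v.orthonormal) k l
    rw [hinner] at this
    simpa using this
  · simpa using h j k

/-- **joint spectral theorem for an operator polynomial.** `D p = ∑ p ^ j • C j` self-adjoint and
commuting for all real `p`, and a further commuting self-adjoint operator `G` -/
theorem spec_form (B : V →ₗ[ℝ] V →ₗ[ℝ] ℝ) (hs : ∀ x y, B x y = B y x)
    (hp : ∀ x, x ≠ 0 → 0 < B x x) {m : ℕ} (D : ℝ → V →ₗ[ℝ] V) (C : ℕ → V →ₗ[ℝ] V)
    (hD : ∀ p, D p = ∑ j ∈ range (m + 1), p ^ j • C j)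
    (hsa : ∀ p x y, B (D p x) y = B x (D p y)) (hcomm : ∀ p q, Commute (D p) (D q))
    (G : V →ₗ[ℝ] V) (hG : ∀ x y, B (G x) y = B x (G y)) (hDG : ∀ p, Commute (D p) G) :
    ∃ (v : Basis (Fin (finrank ℝ V)) ℝ V) (d : Fin (finrank ℝ V) → ℝ[X])
      (g : Fin (finrank ℝ V) → ℝ),
      (∀ k l, B (v k) (v l) = if k = l then 1 else 0) ∧ (∀ k, (d k).natDegree ≤ m) ∧
      (∀ k p, D p (v k) = (d k).eval p • v k) ∧ (∀ k, G (v k) = g k • v k) ∧
      (∀ k j, j ≤ m → C j (v k) = (d k).coeff j • v k) := by
  obtain ⟨v, lam, h1, h2⟩ := joint_form B hs hp (J := Option ℝ)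
    (fun o => o.elim G D) (by rintro (_ | p) x y; exacts [hG x y, hsa p x y])
    (by
      rintro (_ | p) (_ | q)
      exacts [Commute.refl _, (hDG q).symm, hDG p, hcomm p q])
  have hdeg : ∀ k, (∑ j ∈ range (m + 1),
      Polynomial.C (B (C j (v k)) (v k)) * X ^ j : ℝ[X]).natDegree ≤ m := fun k => by
    refine natDegree_sum_le_of_forall_le _ _ fun j hj => ?_
    exact (natDegree_C_mul_X_pow_le _ _).trans (Nat.lt_succ_iff.1 (mem_range.1 hj))
  have hev : ∀ k p, D p (v k) = (∑ j ∈ range (m + 1),
      Polynomial.C (B (C j (v k)) (v k)) * X ^ j : ℝ[X]).eval p • v k := fun k p => by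
    have e1 := h2 (some p) k
    simp only [Option.elim] at e1
    have e2 : B (D p (v k)) (v k) = lam (some p) k := by
      rw [e1]; simp [h1]
    rw [e1, ← e2, hD]
    congr 1
    simp only [LinearMap.sum_apply, LinearMap.smul_apply, map_sum, map_smul, smul_eq_mul,
      eval_finsetSum, eval_mul, eval_C, eval_pow, eval_X]
    exact sum_congr rfl fun j _ => mul_comm _ _
  refine ⟨v, _, fun k => lam none k, h1, hdeg, hev, fun k => h2 none k, fun k j hj => ?_⟩
  -- compare coefficients
  refine v.ext_elem fun i => ?_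
  set P : ℝ[X] := ∑ j ∈ range (m + 1), Polynomial.C (B (C j (v k)) (v k)) * X ^ j with hP
  have key : (∑ j ∈ range (m + 1), Polynomial.C (v.repr (C j (v k)) i) * X ^ j : ℝ[X]) =
      P * Polynomial.C (v.repr (v k) i) := by
    refine Polynomial.funext fun p => ?_
    have e := congrArg (fun w => v.repr w i) (hev k p)
    rw [hD] at e
    simp only [LinearMap.sum_apply, LinearMap.smul_apply, map_sum, map_smul, Finsupp.coe_finsetSum,
      Finset.sum_apply, Finsupp.smul_apply, smul_eq_mul] at e
    rw [eval_mul, eval_C, ← e]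
    simp only [eval_finsetSum, eval_mul, eval_C, eval_pow, eval_X]
    exact sum_congr rfl fun j _ => mul_comm _ _
  have key' := congrArg (fun Q => Polynomial.coeff Q j) key
  simp only [coeff_mul_C, finsetSum_coeff, coeff_C_mul, coeff_X_pow] at key'
  simp only [mul_ite, mul_one, mul_zero, sum_ite_eq, mem_range, Nat.lt_succ_iff, hj,
    if_true] at key'
  rw [map_smul, Finsupp.smul_apply, smul_eq_mul, ← key']

end Joint

section Expand

variable {V : Type*} [AddCommGroup V] [Module ℝ V] {K : Type*} [Fintype K] [DecidableEq K]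
  {B : V →ₗ[ℝ] V →ₗ[ℝ] ℝ} {v : Basis K ℝ V}

/-- coordinates in an orthonormal basis -/
theorem repr_form (ho : ∀ k l, B (v k) (v l) = if k = l then 1 else 0) (x : V) (k : K) :
    v.repr x k = B (v k) x := by
  conv_rhs => rw [← v.sum_repr x]
  simp only [map_sum, map_smul, ho, smul_eq_mul, mul_ite, mul_one, mul_zero, sum_ite_eq,
    mem_univ, if_true]

theorem form_expand (ho : ∀ k l, B (v k) (v l) = if k = l then 1 else 0)
    (hs : ∀ x y, B x y = B y x) {A : V →ₗ[ℝ] V} {a : K → ℝ} (hA : ∀ k, A (v k) = a k • v k)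
    (x y : V) : B x (A y) = ∑ k, a k * (B (v k) x * B (v k) y) := by
  conv_lhs => rw [← v.sum_repr y]
  simp only [map_sum, map_smul, hA, smul_eq_mul, repr_form ho]
  refine sum_congr rfl fun k _ => ?_
  rw [hs x (v k)]; ring

omit [Fintype K] [DecidableEq K] in
theorem list_apply {D : ℝ → V →ₗ[ℝ] V} {d : K → ℝ[X]} (hD : ∀ k p, D p (v k) = (d k).eval p • v k)
    (l : List ℝ) (k : K) :
    (l.map D).prod (v k) = (l.map fun p => (d k).eval p).prod • v k := by
  induction l with
  | nil => simp
  | cons p l ih =>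
    rw [List.map_cons, List.prod_cons, Module.End.mul_apply, ih, map_smul, hD, List.map_cons,
      List.prod_cons, smul_smul, mul_comm]

/-- the spectral measure of a word of operators -/
theorem word (ho : ∀ k l, B (v k) (v l) = if k = l then 1 else 0)
    (hs : ∀ x y, B x y = B y x) {D : ℝ → V →ₗ[ℝ] V} {d : K → ℝ[X]}
    (hD : ∀ k p, D p (v k) = (d k).eval p • v k) (b : V) (l : List ℝ) :
    B b ((l.map D).prod b) = ∑ k, B (v k) b ^ 2 * (l.map fun p => (d k).eval p).prod := by
  rw [form_expand ho hs (list_apply hD l)]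
  exact sum_congr rfl fun k _ => by ring

theorem word_gamma (ho : ∀ k l, B (v k) (v l) = if k = l then 1 else 0)
    (hs : ∀ x y, B x y = B y x) {D : ℝ → V →ₗ[ℝ] V} {d : K → ℝ[X]}
    (hD : ∀ k p, D p (v k) = (d k).eval p • v k) {G : V →ₗ[ℝ] V} {g : K → ℝ}
    (hG : ∀ k, G (v k) = g k • v k) (b : V) (l : List ℝ) :
    B b (G ((l.map D).prod b)) =
      ∑ k, g k * B (v k) b ^ 2 * (l.map fun p => (d k).eval p).prod := by
  have := form_expand ho hs (A := G * (l.map D).prod)
    (a := fun k => (l.map fun p => (d k).eval p).prod * g k) (fun k => by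
      rw [Module.End.mul_apply, list_apply hD, map_smul, hG, smul_smul]) b b
  rw [Module.End.mul_apply] at this
  rw [this]
  exact sum_congr rfl fun k _ => by ring

end Expand

section Gamma

variable {V : Type*} [AddCommGroup V] [Module ℝ V] [FiniteDimensional ℝ V]

/-- a second symmetric form is `B x (G y)` for a unique self-adjoint operator `G`; it commutes with
every operator that is self-adjoint for both forms -/
theorem exists_gamma (B : V →ₗ[ℝ] V →ₗ[ℝ] ℝ) (hs : ∀ x y, B x y = B y x)
    (hp : ∀ x, x ≠ 0 → 0 < B x x) (F : V →ₗ[ℝ] V →ₗ[ℝ] ℝ) (hF : ∀ x y, F x y = F y x) :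
    ∃ G : V →ₗ[ℝ] V, (∀ x y, B x (G y) = F x y) ∧ (∀ x y, B (G x) y = B x (G y)) ∧
      ∀ A : V →ₗ[ℝ] V, (∀ x y, B (A x) y = B x (A y)) → (∀ x y, F (A x) y = F x (A y)) →
        Commute A G := by
  have hinj : Function.Injective B := by
    rw [← LinearMap.ker_eq_bot, LinearMap.ker_eq_bot']
    intro x hx
    by_contra h
    exact (hp x h).ne' (by rw [hx]; rfl)
  have hdim : finrank ℝ V = finrank ℝ (Module.Dual ℝ V) := (Subspace.dual_finrank_eq).symm
  let e : V ≃ₗ[ℝ] Module.Dual ℝ V := LinearEquiv.ofInjectiveOfFinrankEq B hinj hdim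
  have he : ∀ x, e x = B x := fun x => rfl
  let G : V →ₗ[ℝ] V := e.symm.toLinearMap ∘ₗ F
  have h1 : ∀ x y, B (G x) y = F x y := fun x y => by
    rw [← he]
    simp [G]
  have h2 : ∀ x y, B x (G y) = F x y := fun x y => by rw [hs, h1, hF]
  refine ⟨G, h2, fun x y => by rw [h1, h2], fun A hA hFA => ?_⟩
  refine LinearMap.ext fun y => hinj (LinearMap.ext fun x => ?_)
  rw [Module.End.mul_apply, Module.End.mul_apply, hA, h1, h1, hFA]

end Gamma

end Pool.Agent.Rect.Herm
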