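import Pool.Agent.Rect.Perc.Abs
import Pool.Agent.Rect.Perc.Fekete
import Pool.Agent.Helper78.DR.Scalar

/-!
The spectral data of the rectangles with `n` open sites (`N = 2n` strands) and the bound (C):
the absolute spectral sum of `M` double rows is at most `1 / P M n`.
-/

set_option autoImplicit false

namespace H47Perc.RC
open Finset H47Perc Filter Polynomial

/-- the spectral data: joint eigenvalues `d k` of the double row matrices, weights `μ k ≥ 0`, the ratios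
`γ k` of the two forms and the eigenvalues `L k` of `N - 1 - h`; `k0` is the Perron index -/
structure HermData (n : ℕ) where
  K : Type
  fin : Fintype K
  μ : K → ℝ
  γ : K → ℝ
  L : K → ℝ
  d : K → ℝ[X]
  k0 : K
  sol : ∀ k, DR.Sol (2 * n) ((d k).map (algebraMap ℝ ℂ))
  braid : ∀ k (p : ℂ), p ^ 2 - p + 1 = 0 → ((d k).map (algebraMap ℝ ℂ)).eval p = -2
  μ_nonneg : ∀ k, 0 ≤ μ k
  μ_pos : 0 < μ k0
  γ_pos : 0 < γ k0
  L_pos : 0 < L k0
  L_le : ∀ k, L k0 ≤ L k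
  lam_nonneg : ∀ k, 0 ≤ (d k).eval (1 / 2)
  dom : ∀ k, k ≠ k0 → (d k).eval (1 / 2) < (d k0).eval (1 / 2)
  all_eq : ∀ M : ℕ, pA n M = ∑ k, μ k * (d k).eval (1 / 2) ^ M
  cross_eq : ∀ M : ℕ, P n M = ∑ k, γ k * μ k * (d k).eval (1 / 2) ^ M
  merge_eq : ∀ M : ℕ, pB n M = ∑ k, γ k ^ 2 * L k * μ k * (d k).eval (1 / 2) ^ M

namespace HermData
variable {n : ℕ} (D : HermData n)

instance : Fintype D.K := D.fin

/-- the eigenvalues of the double row at the critical point -/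
noncomputable def lam (k : D.K) : ℝ := (D.d k).eval (1 / 2)

/-- the coefficients of the crossing probability -/
noncomputable def c (k : D.K) : ℝ := D.γ k * D.μ k

theorem lam_nn (k : D.K) : 0 ≤ D.lam k := D.lam_nonneg k

theorem P_eq (M : ℕ) : P n M = ∑ k, D.c k * D.lam k ^ M := D.cross_eq M

theorem pA_eq (M : ℕ) : pA n M = ∑ k, D.μ k * D.lam k ^ M := D.all_eq M

theorem c0_pos : 0 < D.c D.k0 := mul_pos D.γ_pos D.μ_pos

theorem lam_le (k : D.K) : D.lam k ≤ D.lam D.k0 := by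
  by_cases h : k = D.k0
  · rw [h]
  · exact (D.dom k h).le

theorem sum_c_le_one : ∑ k, D.c k ≤ 1 := by
  have h := D.P_eq 0
  simp only [pow_zero, mul_one] at h
  rw [← h]
  exact P_le_one' n 0

/-- the Perron eigenvalue is positive -/
theorem lam0_pos (h : ∃ M, 1 ≤ M ∧ 0 < P n M) : 0 < D.lam D.k0 := by
  rcases (D.lam_nn D.k0).lt_or_eq with h0 | h0
  · exact h0
  · exfalso
    obtain ⟨M, hM, hP⟩ := h
    have h1 : P n M = 0 := by
      rw [D.P_eq]
      refine sum_eq_zero fun k _ => ?_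
      have h2 : D.lam k = 0 := le_antisymm ((D.lam_le k).trans h0.symm.le) (D.lam_nn k)
      rw [h2, zero_pow (by omega), mul_zero]
    rw [h1] at hP
    exact lt_irrefl _ hP

/-- **(C)** -/
theorem abs_le {M : ℕ} (hP : 0 < P M n) (h1 : ∃ M', 1 ≤ M' ∧ 0 < P n M')
    (hF : ∀ M' : ℕ, M ≤ M' → ∀ I, I ⊆ range (n - 1) → pI n M I * P M n * P n M' ≤ pI n M' I) :
    ∑ k, |D.c k| * D.lam k ^ M ≤ 1 / P M n := by
  have h0 : 0 < D.lam D.k0 := D.lam0_pos h1
  have key := abs_spec_le (n := n) (M := M) (μ := D.μ) (γ := D.γ) (d := D.lam) (L := D.L) (k0 := D.k0)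
    h0 (fun k hk => by rw [abs_of_nonneg (D.lam_nn k)]; exact D.dom k hk) D.μ_nonneg D.μ_pos D.γ_pos
    D.L_pos D.L_le (fun k => pow_nonneg (D.lam_nn k) M) hP (fun M' _ => D.all_eq M')
    (fun M' _ => D.cross_eq M') (fun M' _ => D.merge_eq M') hF
  refine le_trans (le_of_eq ?_) key
  refine sum_congr rfl fun k _ => ?_
  rw [abs_of_nonneg (D.lam_nn k)]
  rfl

/-- **(C)** for the crossing probabilities of all heights -/
theorem abs_le' {M : ℕ} (hpos : ∀ n M, 1 ≤ n → 0 < P n M) (hn : 1 ≤ n) (hM : 1 ≤ M)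
    (hF : ∀ M' : ℕ, M ≤ M' → ∀ I, I ⊆ range (n - 1) → pI n M I * P M n * P n M' ≤ pI n M' I) :
    ∑ k, |D.c k| * D.lam k ^ M ≤ 1 / P M n :=
  D.abs_le (hpos M n hM) ⟨1, le_rfl, hpos n 1 hn⟩ hF

/-- the exact lower bound of the crossing probability by the Perron eigenvalue -/
theorem lam0_pow_le (hpos : ∀ M, 0 < P n M) (M : ℕ) : D.lam D.k0 ^ M ≤ P n M := by
  classical
  have h0 : 0 < D.lam D.k0 := D.lam0_pos ⟨1, le_rfl, hpos 1⟩
  obtain ⟨δ, hδ, h⟩ := spectral_lower D.c0_pos h0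
    (fun k hk => by rw [abs_of_nonneg (D.lam_nn k)]; exact D.dom k hk) D.P_eq hpos
  exact pow_le_of_submul (fun M => (hpos M).le) (P_add_le n) h0 hδ h M

theorem lam0_le_one (hpos : ∀ M, 0 < P n M) : D.lam D.k0 ≤ 1 := by
  have h := D.lam0_pow_le hpos 1
  rw [pow_one] at h
  exact h.trans (P_le_one' n 1)

theorem lam_le_one (hpos : ∀ M, 0 < P n M) (k : D.K) : D.lam k ≤ 1 :=
  (D.lam_le k).trans (D.lam0_le_one hpos)

/-- upper bound of the crossing probability: the constant is the absolute sum at height `M` -/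
theorem P_le_of_abs {M j : ℕ} {A : ℝ} (hA : ∑ k, |D.c k| * D.lam k ^ M ≤ A) :
    P n (M + j) ≤ A * D.lam D.k0 ^ j := by
  rw [D.P_eq]
  calc ∑ k, D.c k * D.lam k ^ (M + j) ≤ ∑ k, |D.c k| * D.lam k ^ M * D.lam D.k0 ^ j := by
        refine sum_le_sum fun k _ => ?_
        rw [pow_add, ← mul_assoc]
        exact mul_le_mul (mul_le_mul_of_nonneg_right (le_abs_self _) (pow_nonneg (D.lam_nn k) M))
          (pow_le_pow_left₀ (D.lam_nn k) (D.lam_le k) j) (pow_nonneg (D.lam_nn k) j)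
          (mul_nonneg (abs_nonneg _) (pow_nonneg (D.lam_nn k) M))
    _ = (∑ k, |D.c k| * D.lam k ^ M) * D.lam D.k0 ^ j := by rw [sum_mul]
    _ ≤ A * D.lam D.k0 ^ j :=
        mul_le_mul_of_nonneg_right hA (pow_nonneg (D.lam_nn D.k0) j)

/-- **the Perron level is bounded** -/
theorem lam0_ge {c : ℝ} (hc : 0 ≤ c) (h : ∀ n : ℕ, 1 ≤ n → c ≤ P n (2 * n)) (hn : 1 ≤ n)
    (h0 : 0 < D.lam D.k0) : c ^ 2 ≤ D.lam D.k0 ^ n := by
  refine le_pow_of_le (a := fun M => P n M) (C := ∑ k, |D.c k|) h0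
    (fun k hk => P_long hc h hn hk) fun M => ?_
  have h1 := D.P_le_of_abs (M := 0) (j := M) (A := ∑ k, |D.c k|) (by simp)
  rwa [zero_add] at h1

end HermData

/-- positivity from the RSW bound -/
theorem P_pos_of_rsw {c : ℝ} (hc : 0 < c) (h : ∀ n : ℕ, 1 ≤ n → c ≤ P n (2 * n)) (n M : ℕ)
    (hn : 1 ≤ n) : 0 < P n M := by
  have h1 := P_long hc.le h hn (k := M + 1) (by omega)
  have h2 : 0 < P n ((M + 1) * n) := lt_of_lt_of_le (by positivity) h1
  exact h2.trans_le (P_anti (by nlinarith))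

end H47Perc.RC
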