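import Pool.Agent.Rect.Herm.FamW
import Pool.Agent.Rect.Herm.Z2h

/-!
# The spectral data of the rectangles, unconditional
-/

set_option autoImplicit false

namespace Pool.Agent.Rect.Herm

/-- the input of `hermData_of` -/
theorem hInput (p : ℕ) : HInput p where
  z _ hw := Sf_zvec ℝ p hw

/-- **the spectral data of the rectangles** -/
theorem hermData (n : ℕ) (hn : 1 ≤ n) : Nonempty (H47Perc.RC.HermData n) :=
  hermData_of hInput n hn

end Pool.Agent.Rect.Herm
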