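import Pool.Agent.Rect.Herm.HRow

/-!
# `F_{h(n)} ∘ D(p) = ∑ D'(n, n'') F_{h(n'')}`
-/

namespace Pool.Agent.Rect.Herm

open Pool.Agent.Helper9.DR

/-! ### few particles -/

/-- consecutive heights differ by an odd number `≥ -1` -/
def Ch : List ℤ → Prop
  | [] => True
  | [_] => True
  | a :: b :: t => (a - 1 ≤ b ∧ (b - a) % 2 = 1) ∧ Ch (b :: t)

/-- the first height -/
def fs : List ℤ → ℤ
  | [] => 0
  | a :: _ => a

/-- the last height -/
def ls : List ℤ → ℤ
  | [] => 0
  | [a] => a
  | _ :: b :: t => ls (b :: t)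

theorem ls_cons (a : ℤ) {t : List ℤ} (h : t ≠ []) : ls (a :: t) = ls t := by
  cases t with
  | nil => exact absurd rfl h
  | cons b t => rfl

theorem Ch_tail {a : ℤ} {t : List ℤ} (h : Ch (a :: t)) : Ch t := by
  cases t with
  | nil => trivial
  | cons b t => exact h.2

/-- removing two neighbouring heights `x < y` -/
theorem Ch_remove : ∀ (p : List ℤ) {x y : ℤ} {q : List ℤ}, Ch (p ++ x :: y :: q) →
    (x - 1 ≤ y ∧ (y - x) % 2 = 1) ∧ (x + 1 ≤ y → p ++ q ≠ [] → Ch (p ++ q) ∧
      fs (p ++ x :: y :: q) ≤ fs (p ++ q) ∧ ls (p ++ q) ≤ ls (p ++ x :: y :: q))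
  | [], x, y, q, h => by
    refine ⟨h.1, fun hxy hne => ?_⟩
    cases q with
    | nil => exact absurd rfl hne
    | cons z q =>
      have h1 : (y - 1 ≤ z ∧ (z - y) % 2 = 1) ∧ Ch (z :: q) := h.2
      refine ⟨h1.2, ?_, le_of_eq rfl⟩
      simp only [List.nil_append, fs]
      omega
  | [z], x, y, q, h => by
    have h1 : (z - 1 ≤ x ∧ (x - z) % 2 = 1) ∧ (x - 1 ≤ y ∧ (y - x) % 2 = 1) ∧ Ch (y :: q) := h
    refine ⟨h1.2.1, fun hxy _ => ?_⟩
    cases q with
    | nil =>
      refine ⟨trivial, le_of_eq rfl, ?_⟩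
      simp only [List.append_nil, List.cons_append, List.nil_append, ls]
      omega
    | cons t q =>
      have h2 : (y - 1 ≤ t ∧ (t - y) % 2 = 1) ∧ Ch (t :: q) := h1.2.2
      refine ⟨⟨⟨?_, ?_⟩, h2.2⟩, le_of_eq rfl, le_of_eq rfl⟩ <;> omega
  | z :: w :: p, x, y, q, h => by
    have h1 : (z - 1 ≤ w ∧ (w - z) % 2 = 1) ∧ Ch (w :: p ++ x :: y :: q) := h
    obtain ⟨h2, h3⟩ := Ch_remove (w :: p) h1.2
    refine ⟨h2, fun hxy _ => ?_⟩
    obtain ⟨h4, _, h6⟩ := h3 hxy (by simp)
    exact ⟨⟨h1.1, h4⟩, le_of_eq rfl, h6⟩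

theorem exists_split : ∀ (i : ℕ) (h : List ℤ), i + 2 ≤ h.length →
    ∃ p x y q, h = p ++ x :: y :: q ∧ p.length = i
  | 0, a :: b :: t, _ => ⟨[], a, b, t, rfl, rfl⟩
  | i + 1, a :: t, hh => by
    obtain ⟨p, x, y, q, h1, h2⟩ := exists_split i t (by simp at hh; omega)
    exact ⟨a :: p, x, y, q, by rw [h1]; rfl, by rw [List.length_cons, h2]⟩
  | 0, [], hh => by simp at hh
  | 0, [_], hh => by simp at hh
  | _ + 1, [], hh => by simp at hh

/-- the range of a chain of heights -/
theorem Ch_range : ∀ (h : List ℤ), h ≠ [] → Ch h → fs h - (h.length - 1 : ℤ) ≤ ls h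
  | [], hne, _ => absurd rfl hne
  | [a], _, _ => by simp [fs, ls]
  | a :: b :: t, _, h => by
    have h1 := Ch_range (b :: t) (by simp) h.2
    have h2 := h.1.1
    simp only [fs, ls, List.length_cons] at h1 ⊢
    push_cast at h1 ⊢
    omega

variable {K : Type*} [Field K] {V : Type*} [AddCommGroup V] [Module K V]

namespace HFam

variable {Tw : Tower K V} {ld : ℕ} (H : HFam Tw ld) (p : K)

/-- **few particles give zero** -/
theorem vanish (hld : 1 ≤ ld) : ∀ (k : ℕ) (h : List ℤ) {v : V}, v ∈ H.W (ld + 2 * k) →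
    h.length = ld + 2 * k → Ch h → ls h - fs h < 1 - (ld : ℤ) → H.F h v = 0 := by
  intro k
  induction k with
  | zero =>
    intro h v _ hl hc hlt
    exfalso
    have hne : h ≠ [] := by
      rintro rfl
      simp at hl
      omega
    have h1 := Ch_range h hne hc
    rw [hl] at h1
    push_cast at h1
    omega
  | succ k ih =>
    intro h v hv hl hc hlt
    refine Submodule.span_induction (p := fun v _ => H.F h v = 0) ?_ (map_zero _) ?_ ?_ (H.gen k hv)
    · rintro _ ⟨i, u, hi, hu, rfl⟩
      obtain ⟨p', x, y, q, rfl, hp⟩ := exists_split i h (by rw [hl]; omega)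
      obtain ⟨h1, h2⟩ := Ch_remove p' hc
      have hlen : p'.length + q.length = ld + 2 * k := by
        simp only [List.length_append, List.length_cons] at hl
        omega
      rw [← hp, H.cup p' q x y (by rw [hlen]; exact hu)]
      by_cases hxy : x + 1 ≤ y
      · have hne : p' ++ q ≠ [] := by
          intro h0
          have := congrArg List.length h0
          rw [List.length_append, hlen, List.length_nil] at this
          omega
        obtain ⟨h3, h4, h5⟩ := h2 hxy hne
        rw [ih (p' ++ q) hu (by rw [List.length_append, hlen]) h3 (by omega), mul_zero]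
      · have : y - x = -1 := by omega
        rw [this, kap_neg_one, Int.cast_zero, zero_mul]
    · intro x y _ _ hx hy
      rw [map_add, hx, hy, add_zero]
    · intro c x _ hx
      rw [map_smul, hx, smul_zero]

/-- the functional of the particle configuration `l` with the first height `a` -/
def Fn (a : ℤ) (l : List Bool) : V →ₗ[K] K := H.F (a :: hs a l)

theorem Ch_hs (a : ℤ) (l : List Bool) : Ch (a :: hs a l) := by
  induction l generalizing a with
  | nil => trivial
  | cons n l ih =>
    refine ⟨?_, ih _⟩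
    cases n <;> constructor <;> simp only [st_false, st_true] <;> omega

theorem ls_hs (a : ℤ) (l : List Bool) : ls (a :: hs a l) = a + 2 * cnt l - l.length := by
  induction l generalizing a with
  | nil => simp [hs, ls, cnt_nil]
  | cons n l ih =>
    rw [hs, ls_cons _ (by simp), ih, cnt_cons, List.length_cons]
    cases n <;> simp only [st_false, st_true, bn_false, bn_true] <;> push_cast <;> ring

/-- few particles -/
theorem Fn_zero (hld : 1 ≤ ld) {k m : ℕ} (hm : m + 1 = ld + 2 * k) (a : ℤ) {l : List Bool}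
    (hl : l.length = m) (hk : cnt l < k) {v : V} (hv : v ∈ H.W (m + 1)) : H.Fn a l v = 0 := by
  refine H.vanish hld k _ (by rw [← hm]; exact hv) ?_ (Ch_hs a l) ?_
  · rw [List.length_cons, hs_length, hl, hm]
  · rw [ls_hs, hl]
    simp only [fs]
    omega

/-! ### the left end -/

theorem recA1 (R : List ℤ) (s a b : ℤ) {v : V} (hv : v ∈ H.W (R.length + 3)) :
    H.F ((s + 2) :: a :: b :: R) v = H.F ((s + 1) :: a :: b :: R) v - H.F (s :: a :: b :: R) v := by
  have := H.rec2 [] (a :: b :: R) s (v := v) (by simpa [add_assoc] using hv)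
  simpa using this

theorem recA2 (R : List ℤ) (s a b : ℤ) {v : V} (hv : v ∈ H.W (R.length + 3)) :
    H.F (s :: (a + 2) :: b :: R) v = H.F (s :: (a + 1) :: b :: R) v - H.F (s :: a :: b :: R) v := by
  have := H.recA [s] R a b (v := v) (by
    rw [List.length_singleton, show 1 + R.length + 2 = R.length + 3 by ring]; exact hv)
  simpa using this

theorem recA3 (R : List ℤ) (s a b : ℤ) {v : V} (hv : v ∈ H.W (R.length + 3)) :
    H.F (s :: a :: (b + 2) :: R) v = H.F (s :: a :: (b + 1) :: R) v - H.F (s :: a :: b :: R) v := by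
  have := H.recB [s] R a b (v := v) (by
    rw [List.length_singleton, show 1 + R.length + 2 = R.length + 3 by ring]; exact hv)
  simpa using this

theorem reflL (a : ℤ) (R : List ℤ) {u : V} (hu : u ∈ H.W (R.length + 3)) :
    H.F (a :: R) (Tw.k 0 (Tw.X 1 p u)) = H.chi p [a, a - 1] a R true u +
      p * H.chi p [a + 2, a + 1] a R false u + H.chi p [a, a + 1] a R false u := by
  have hX : Tw.X 1 p u ∈ H.W (R.length + 3) := H.X_mem hu (by omega) p
  have h1 := H.cap [] (a :: R) (a + 1) (v := Tw.X 1 p u) (by simpa [add_assoc] using hX)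
  simp only [List.nil_append, List.length_nil] at h1
  rw [h1]
  have hu' : u ∈ H.W (([a + 1] : List ℤ).length + R.length + 2) := by
    rw [List.length_singleton, show 1 + R.length + 2 = R.length + 3 by ring]; exact hu
  have h2 := H.F_X [a + 1] R (a + 1) a a p hu'
  have h3 := H.F_X [a + 1 - 1] R (a + 1 + 1) a a p hu'
  simp only [List.singleton_append, List.length_singleton] at h2 h3
  rw [h2, h3, show a - (a + 1) = (-1 : ℤ) by ring, show a - (a + 1 + 1) = (-2 : ℤ) by ring,
    show a + 1 - 1 = a by ring, show a + 1 + 1 = a + 2 by ring, kap_neg_one, kap_neg_two]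
  simp only [chi, if_true, Bool.false_eq_true, if_false, List.cons_append, List.nil_append]
  have e1 := H.recA3 R a (a - 1) a hu
  have e2 := H.recA1 R a (a + 1) a hu
  have e3 := H.recA2 R a a a hu
  have e4 := H.recA2 R a (a - 1) a hu
  rw [show a - 1 + 2 = a + 1 by ring, show a - 1 + 1 = a by ring] at e4
  push_cast
  linear_combination (1 - p) * e1 - p * e2 - p * e3 - e4

/-- left boundary weights -/
def kL (p : K) : Bool → K
  | false => 1
  | true => 1 - p

/-- right boundary weights -/
def kR (p : K) : Bool → K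
  | false => p
  | true => 1

/-- the double row matrix before the sum over the intermediate configuration -/
def Dq (p : K) (l l' l'' : List Bool) : K :=
  kL p false * (kR p false * (T p l l' false false * T2 p l' l'' false false) +
    kR p true * (T p l l' false true * T2 p l' l'' false true)) +
  kL p true * (kR p false * (T p l l' true false * T2 p l' l'' true false) +
    kR p true * (T p l l' true true * T2 p l' l'' true true))

/-- the double row matrix in the particle basis -/
def Dp (p : K) (m : ℕ) (l l'' : List Bool) : K := sm m (fun l' => Dq p l l' l'')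

theorem F_Dh (hld : 1 ≤ ld) {k m : ℕ} (hm : m + 1 = ld + 2 * k) (a : ℤ) {l : List Bool}
    (hl : l.length = m) (hk : cnt l = k) {v : V} (hv : v ∈ H.W (m + 1)) :
    H.Fn a l (Tw.Dh (m + 1) 0 p v) = sm m (fun l'' => Dp p m l l'' * H.Fn a l'' v) := by
  have hc : Tw.c 0 v ∈ H.W (m + 3) := H.c_mem hv (by omega)
  have hw : XL Tw p 1 (m + 1) (Tw.c 0 v) ∈ H.W (m + 3) := H.XL_mem p hc (by omega)
  have hu : XR Tw p 2 m (XL Tw p 1 (m + 1) (Tw.c 0 v)) ∈ H.W (m + 3) := H.XR_mem p hw (by omega)
  -- the value of the cup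
  have cup0 : ∀ (s b : ℤ) (R : List ℤ), R.length = m + 1 →
      H.F (s :: b :: R) (Tw.c 0 v) = (kap (b - s) : K) * H.F R v := by
    intro s b R hR
    have := H.cup [] R s b (v := v) (by rw [hR]; simpa using hv)
    simpa using this
  have oL : ∀ (s b : ℤ) (μ : Bool) (l'' : List Bool), l''.length = m →
      H.outL p [s] b (Tw.c 0 v) μ l'' =
        (if μ then p * (kap (b - s) : K) - (1 - p) * (kap (b - 2 - s) : K) else (kap (b - s) : K)) *
          H.Fn (b + sg μ) l'' v := by
    intro s b μ l'' hl''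
    unfold outL chi'
    have hlen : (((b + sg μ) :: hs (b + sg μ) l'') : List ℤ).length = m + 1 := by
      rw [List.length_cons, hs_length, hl'']
    simp only [List.singleton_append]
    cases μ
    · simp only [Bool.false_eq_true, if_false]
      rw [cup0 _ _ _ hlen]
      rfl
    · simp only [if_true]
      rw [cup0 _ _ _ hlen, cup0 _ _ _ hlen]
      unfold Fn
      ring
  have row : ∀ (s b : ℤ) (ν : Bool) (l' : List Bool), l'.length = m →
      H.outR p [s, b] b (XL Tw p 1 (m + 1) (Tw.c 0 v)) ν l' =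
      sm m (fun l'' =>
        rm p ν false * (T2 p l' l'' false false * H.outL p [s] b (Tw.c 0 v) false l'' +
          T2 p l' l'' true false * H.outL p [s] b (Tw.c 0 v) true l'') +
        rm p ν true * (T2 p l' l'' false true * H.outL p [s] b (Tw.c 0 v) false l'' +
          T2 p l' l'' true true * H.outL p [s] b (Tw.c 0 v) true l'')) := by
    intro s b ν l' hl'
    have := H.rowL p l' [s] b ν (v := Tw.c 0 v) (by
      rw [List.length_singleton, hl', show 1 + m + 2 = m + 3 by ring]; exact hc)
    rw [List.length_singleton, hl'] at this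
    exact this
  have fwd : ∀ (s : ℤ) (μ : Bool), H.chi p [s, a - sg μ] a (hs a l) μ
      (XR Tw p 2 m (XL Tw p 1 (m + 1) (Tw.c 0 v))) =
      sm m (fun l' => T p l l' μ false * H.outR p [s, a - sg μ] (a - sg μ) (XL Tw p 1 (m + 1) (Tw.c 0 v)) false l' +
        T p l l' μ true * H.outR p [s, a - sg μ] (a - sg μ) (XL Tw p 1 (m + 1) (Tw.c 0 v)) true l') := by
    intro s μ
    have := H.rowR p l [s, a - sg μ] a μ (v := XL Tw p 1 (m + 1) (Tw.c 0 v)) (by
      rw [hl, show ([s, a - sg μ] : List ℤ).length + m + 1 = m + 3 by simp; ring]; exact hw)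
    rw [hl] at this
    exact this
  have h1 : H.Fn a l (Tw.Dh (m + 1) 0 p v) =
      H.F (a :: hs a l) (Tw.k 0 (Tw.X 1 p (XR Tw p 2 m (XL Tw p 1 (m + 1) (Tw.c 0 v))))) := by
    rw [Dh_eq]
    rfl
  have hR : (hs a l).length + 3 = m + 3 := by rw [hs_length, hl]
  rw [h1, H.reflL p a (hs a l) (by rw [hR]; exact hu)]
  have f1 := fwd a true
  have f2 := fwd (a + 2) false
  have f3 := fwd a false
  rw [sg_true] at f1
  rw [sg_false, show a - -1 = a + 1 by ring] at f2 f3
  rw [f1, f2, f3, ← sm_mul, ← sm_add, ← sm_add]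
  -- the right hand side as a double sum
  have h2 : sm m (fun l'' => Dp p m l l'' * H.Fn a l'' v) =
      sm m (fun l' => sm m (fun l'' => Dq p l l' l'' * H.Fn a l'' v)) := by
    rw [sm_comm]
    refine sm_congr fun l'' _ => ?_
    rw [Dp, ← sm_mul_right]
  rw [h2]
  refine sm_congr fun l' hl' => ?_
  rw [row _ _ _ _ hl', row _ _ _ _ hl', row _ _ _ _ hl', row _ _ _ _ hl', row _ _ _ _ hl',
    row _ _ _ _ hl']
  simp only [← sm_mul, ← sm_add]
  refine sm_congr fun l'' hl'' => ?_
  rw [oL _ _ _ _ hl'', oL _ _ _ _ hl'', oL _ _ _ _ hl'', oL _ _ _ _ hl'', oL _ _ _ _ hl'',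
    oL _ _ _ _ hl'']
  simp only [if_true, Bool.false_eq_true, if_false, sg_true, sg_false]
  rw [show a - 1 - a = (-1 : ℤ) by ring, show a - 1 - 2 - a = (-3 : ℤ) by ring,
    show a + 1 - (a + 2) = (-1 : ℤ) by ring, show a + 1 - 2 - (a + 2) = (-3 : ℤ) by ring,
    show a + 1 - a = (1 : ℤ) by ring, show a + 1 - 2 - a = (-1 : ℤ) by ring,
    show a - 1 + -1 = a - 2 by ring, show a - 1 + 1 = a by ring, show a + 1 + -1 = a by ring,
    show a + 1 + 1 = a + 2 by ring, kap_neg_one, kap_neg_three, kap_one]
  -- the terms with too few particles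
  have z1 : ∀ b : ℤ, T p l l' true true * T2 p l' l'' true false * H.Fn b l'' v = 0 := by
    intro b
    by_cases h : T p l l' true true * T2 p l' l'' true false = 0
    · rw [h, zero_mul]
    · have c1 := T_cons (left_ne_zero_of_mul h)
      have c2 := T2_cons (right_ne_zero_of_mul h)
      rw [bn_true] at c1 c2
      rw [bn_false] at c2
      rw [H.Fn_zero hld hm b hl'' (by omega) hv, mul_zero]
  have z2 : ∀ b : ℤ, T p l l' false false * T2 p l' l'' true false * H.Fn b l'' v = 0 := by
    intro b
    by_cases h : T p l l' false false * T2 p l' l'' true false = 0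
    · rw [h, zero_mul]
    · have c1 := T_cons (left_ne_zero_of_mul h)
      have c2 := T2_cons (right_ne_zero_of_mul h)
      rw [bn_false] at c1 c2
      rw [bn_true] at c2
      rw [H.Fn_zero hld hm b hl'' (by omega) hv, mul_zero]
  have z3 : ∀ b : ℤ, T p l l' false true * T2 p l' l'' true true * H.Fn b l'' v = 0 := by
    intro b
    by_cases h : T p l l' false true * T2 p l' l'' true true = 0
    · rw [h, zero_mul]
    · have c1 := T_cons (left_ne_zero_of_mul h)
      have c2 := T2_cons (right_ne_zero_of_mul h)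
      rw [bn_false, bn_true] at c1
      rw [bn_true] at c2
      rw [H.Fn_zero hld hm b hl'' (by omega) hv, mul_zero]
  have z4 : ∀ b : ℤ, T p l l' false true * T2 p l' l'' true false * H.Fn b l'' v = 0 := by
    intro b
    by_cases h : T p l l' false true * T2 p l' l'' true false = 0
    · rw [h, zero_mul]
    · have c1 := T_cons (left_ne_zero_of_mul h)
      have c2 := T2_cons (right_ne_zero_of_mul h)
      rw [bn_false, bn_true] at c1
      rw [bn_true, bn_false] at c2
      rw [H.Fn_zero hld hm b hl'' (by omega) hv, mul_zero]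
  have z5 : ∀ b : ℤ, T p l l' false true * T2 p l' l'' false false * H.Fn b l'' v = 0 := by
    intro b
    by_cases h : T p l l' false true * T2 p l' l'' false false = 0
    · rw [h, zero_mul]
    · have c1 := T_cons (left_ne_zero_of_mul h)
      have c2 := T2_cons (right_ne_zero_of_mul h)
      rw [bn_false, bn_true] at c1
      rw [bn_false] at c2
      rw [H.Fn_zero hld hm b hl'' (by omega) hv, mul_zero]
  simp only [rm, Dq, kL, kR]
  push_cast
  linear_combination (1 - p ^ 2) * (1 - p) * z1 a + p * (1 - p) * p * z2 (a + 2) +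
    p * (1 - p) * z3 (a + 2) + p * (1 - p) * (1 - p ^ 2) * z4 (a + 2) + p * p * z2 (a + 2) +
    p * z3 (a + 2) + p * (1 - p ^ 2) * z4 (a + 2) + (1 - p ^ 2) * z5 a

end HFam

end Pool.Agent.Rect.Herm
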