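import Pool.Agent.Rect.Herm.HSweep

/-!
# Rows: the auxiliary line through the whole chain, forward and backward
-/

namespace Pool.Agent.Rect.Herm

open Pool.Agent.Helper9.DR

variable {K : Type*} [Field K] {V : Type*} [AddCommGroup V] [Module K V]

/-- `X i * X (i+1) * ... * X (i+m-1)` -/
def XR (Tw : Tower K V) (p : K) : ℕ → ℕ → Module.End K V
  | _, 0 => 1
  | i, m + 1 => Tw.X i p * XR Tw p (i + 1) m

/-- `X (i+m-1) * ... * X (i+1) * X i` -/
def XL (Tw : Tower K V) (p : K) : ℕ → ℕ → Module.End K V
  | _, 0 => 1
  | i, m + 1 => XL Tw p (i + 1) m * Tw.X i p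

theorem Ah_eq (Tw : Tower K V) (p : K) (m : ℕ) : ∀ i : ℕ, Tw.Ah m i p = XR Tw p i m * XL Tw p i m := by
  induction m with
  | zero => intro i; simp [Tower.Ah, XR, XL]
  | succ m ih =>
    intro i
    rw [Tower.Ah_succ, ih, XR, XL]
    simp only [mul_assoc]

theorem Dh_eq (Tw : Tower K V) (p : K) (m : ℕ) :
    Tw.Dh m 0 p = Tw.k 0 * (XR Tw p 1 m * XL Tw p 1 m) * Tw.c 0 := by
  rw [← Ah_eq, Tower.Dh_def, Tower.Ah, Tower.cap]

namespace HFam

variable {Tw : Tower K V} {ld : ℕ} (H : HFam Tw ld) (p : K)

theorem XR_mem {N m : ℕ} : ∀ {i : ℕ} {v : V}, v ∈ H.W N → i + m + 1 ≤ N → XR Tw p i m v ∈ H.W N := by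
  induction m with
  | zero => intro i v hv _; simpa [XR] using hv
  | succ m ih =>
    intro i v hv h
    rw [XR, Module.End.mul_apply]
    exact H.X_mem (ih hv (by omega)) (by omega) p

theorem XL_mem {N m : ℕ} : ∀ {i : ℕ} {v : V}, v ∈ H.W N → i + m + 1 ≤ N → XL Tw p i m v ∈ H.W N := by
  induction m with
  | zero => intro i v hv _; simpa [XL] using hv
  | succ m ih =>
    intro i v hv h
    rw [XL, Module.End.mul_apply]
    exact ih (H.X_mem hv (by omega) p) (by omega)

/-- the heights agree when the vertex is admissible -/
theorem wt_st (a : ℤ) (n μ n' μ' : Bool) (G : ℤ → K) :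
    wt p n μ n' μ' * G (st a n - sg μ') = wt p n μ n' μ' * G (st (a - sg μ) n') := by
  cases n <;> cases μ <;> cases n' <;> cases μ' <;> simp [wt]

/-- the same for the backward row -/
theorem wt_st' (a : ℤ) (n μ n' μ' : Bool) (G : ℤ → K) :
    wt p n μ n' μ' * G (st a n + sg μ) = wt p n μ n' μ' * G (st (a + sg μ') n') := by
  have e : a - 1 + -1 = a + -1 - 1 := by ring
  cases n <;> cases μ <;> cases n' <;> cases μ' <;> simp [wt, e]

/-- what the forward row does after the first vertices -/
def outR (L : List ℤ) (a : ℤ) (v : V) (ν : Bool) (l' : List Bool) : K :=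
  H.chi p (L ++ hs a l') (lst a l' + sg ν) [] ν v

theorem outR_cons (L : List ℤ) (a : ℤ) (v : V) (ν n' : Bool) (l' : List Bool) :
    H.outR p L a v ν (n' :: l') = H.outR p (L ++ [st a n']) (st a n') v ν l' := by
  unfold outR
  simp [hs, lst]

/-- **the forward row** -/
theorem rowR (l : List Bool) : ∀ (L : List ℤ) (a : ℤ) (μ : Bool) {v : V},
    v ∈ H.W (L.length + l.length + 1) →
    H.chi p L a (hs a l) μ (XR Tw p L.length l.length v) =
      sm l.length (fun l' => T p l l' μ false * H.outR p L (a - sg μ) v false l' +
        T p l l' μ true * H.outR p L (a - sg μ) v true l') := by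
  induction l with
  | nil =>
    intro L a μ v hv
    simp only [hs, List.length_nil, XR, sm, Module.End.one_apply, outR, lst, T, List.append_nil]
    cases μ
    · simp
    · simp
  | cons n l ih =>
    intro L a μ v hv
    have hv1 : XR Tw p (L.length + 1) l.length v ∈ H.W (L.length + (hs (st a n) l).length + 2) := by
      rw [hs_length]
      refine H.XR_mem p ?_ (by omega)
      rw [List.length_cons] at hv
      rw [show L.length + l.length + 2 = L.length + (l.length + 1) + 1 by ring]
      exact hv
    rw [hs, List.length_cons, XR, Module.End.mul_apply, H.crossR p L (hs (st a n) l) a n μ hv1]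
    have key : ∀ n' μ' : Bool, wt p n μ n' μ' *
        H.chi p (L ++ [st (a - sg μ) n']) (st a n) (hs (st a n) l) μ' (XR Tw p (L.length + 1) l.length v) =
        sm l.length (fun l' => wt p n μ n' μ' * (T p l l' μ' false * H.outR p L (a - sg μ) v false (n' :: l') +
          T p l l' μ' true * H.outR p L (a - sg μ) v true (n' :: l'))) := by
      intro n' μ'
      have h1 := ih (L ++ [st (a - sg μ) n']) (st a n) μ' (v := v) (by
        rw [List.length_append, List.length_singleton]
        rw [List.length_cons] at hv
        rw [show L.length + 1 + l.length + 1 = L.length + (l.length + 1) + 1 by ring]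
        exact hv)
      rw [List.length_append, List.length_singleton] at h1
      rw [h1, ← sm_mul]
      refine sm_congr fun l' _ => ?_
      rw [outR_cons, outR_cons]
      exact wt_st p a n μ n' μ' (fun b => T p l l' μ' false * H.outR p (L ++ [st (a - sg μ) n']) b v false l' +
        T p l l' μ' true * H.outR p (L ++ [st (a - sg μ) n']) b v true l')
    rw [key, key, key, key, sm, ← sm_add, ← sm_add]
    congr 1 <;>
    · refine sm_congr fun l' _ => ?_
      simp only [T]
      ring

/-- what the backward row does -/
def outL (L : List ℤ) (a : ℤ) (v : V) (μ : Bool) (l' : List Bool) : K :=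
  H.chi' p L a ((a + sg μ) :: hs (a + sg μ) l') μ v

/-- **the backward row**, with the reflection at the right end -/
theorem rowL (l : List Bool) : ∀ (L : List ℤ) (a : ℤ) (ν : Bool) {v : V},
    v ∈ H.W (L.length + l.length + 2) →
    H.outR p (L ++ [a]) a (XL Tw p L.length (l.length + 1) v) ν l =
      sm l.length (fun l' =>
        rm p ν false * (T2 p l l' false false * H.outL p L a v false l' +
          T2 p l l' true false * H.outL p L a v true l') +
        rm p ν true * (T2 p l l' false true * H.outL p L a v false l' +
          T2 p l l' true true * H.outL p L a v true l')) := by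
  induction l with
  | nil =>
    intro L a ν v hv
    have := H.reflR p L a ν (v := v) (by simpa using hv)
    simp only [outR, outL, hs, lst, List.append_nil, List.length_nil, sm, T2, XL, one_mul]
    rw [this]
    simp
  | cons n l ih =>
    intro L a ν v hv
    rw [List.length_cons] at hv
    have hv1 : v ∈ H.W (L.length + (l.length + 1) + 2) := hv
    have hX : Tw.X L.length p v ∈ H.W (L.length + 1 + l.length + 2) := by
      rw [show L.length + 1 + l.length + 2 = L.length + (l.length + 1) + 2 by ring]
      exact H.X_mem hv1 (by omega) p
    have h1 := ih (L ++ [a]) (st a n) ν (v := Tw.X L.length p v) (by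
      rw [List.length_append, List.length_singleton]
      exact hX)
    rw [List.length_append, List.length_singleton] at h1
    rw [outR_cons, List.length_cons, XL, Module.End.mul_apply, h1]
    have key : ∀ (μ : Bool) (l' : List Bool), l'.length = l.length →
        H.outL p (L ++ [a]) (st a n) (Tw.X L.length p v) μ l' =
        wt p n μ false false * H.outL p L a v false (false :: l') +
        wt p n μ false true * H.outL p L a v true (false :: l') +
        (wt p n μ true false * H.outL p L a v false (true :: l') +
        wt p n μ true true * H.outL p L a v true (true :: l')) := by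
      intro μ l' hl'
      unfold outL
      rw [H.crossL p L ((st a n + sg μ) :: hs (st a n + sg μ) l') a n μ (v := v) (by
        rw [List.length_cons, hs_length, hl']
        exact hv1)]
      simp only [hs]
      rw [wt_st' p a n μ false false (fun b => H.chi' p L a ((a + sg false) :: b :: hs b l') false v),
        wt_st' p a n μ false true (fun b => H.chi' p L a ((a + sg true) :: b :: hs b l') true v),
        wt_st' p a n μ true false (fun b => H.chi' p L a ((a + sg false) :: b :: hs b l') false v),
        wt_st' p a n μ true true (fun b => H.chi' p L a ((a + sg true) :: b :: hs b l') true v)]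
    rw [sm, ← sm_add]
    refine sm_congr fun l' hl' => ?_
    rw [key false l' hl', key true l' hl']
    simp only [T2]
    ring

end HFam

end Pool.Agent.Rect.Herm
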