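import Mathlib

/-!
# Rows of the six vertex model on lists of bits

`wt p n μ n' μ'`: weight of the vertex with occupation `n → n'` and auxiliary spin `μ → μ'`
(`a = p`, `b = 1 - p`, `c, c' = 1, 1 - p + p²`).  `T p x z μ ν`: one row, the head of the lists is
the first vertex.  `T2` is the row run backwards.  `sm m f` is the sum of `f` over all lists of
length `m`.  `Dp` is the double row matrix.
-/

namespace Pool.Agent.Rect.Herm

variable {K : Type*} [Field K]

/-- the second weight of type `c` -/
def c2 (p : K) : K := 1 - p + p ^ 2

/-- six vertex weights -/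
def wt (p : K) : Bool → Bool → Bool → Bool → K
  | false, false, false, false => p
  | true, true, true, true => p
  | true, false, true, false => 1 - p
  | false, true, false, true => 1 - p
  | true, false, false, true => 1
  | false, true, true, false => c2 p
  | _, _, _, _ => 0

/-- a row of the six vertex model, auxiliary spin `μ` on the left, `ν` on the right -/
def T (p : K) : List Bool → List Bool → Bool → Bool → K
  | [], [], μ, ν => if μ = ν then 1 else 0
  | n :: l, n' :: l', μ, ν => wt p n μ n' false * T p l l' false ν + wt p n μ n' true * T p l l' true ν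
  | _, _, _, _ => 0

/-- a row run from the right to the left, auxiliary spin `ν` on the right, `μ` on the left -/
def T2 (p : K) : List Bool → List Bool → Bool → Bool → K
  | [], [], μ, ν => if μ = ν then 1 else 0
  | n :: l, n' :: l', μ, ν => wt p n false n' μ * T2 p l l' false ν + wt p n true n' μ * T2 p l l' true ν
  | _, _, _, _ => 0

/-- sum over the lists of length `m` -/
def sm : ℕ → (List Bool → K) → K
  | 0, f => f []
  | m + 1, f => sm m (fun l => f (false :: l)) + sm m (fun l => f (true :: l))

theorem sm_add (m : ℕ) (f g : List Bool → K) : sm m (fun l => f l + g l) = sm m f + sm m g := by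
  induction m generalizing f g with
  | zero => rfl
  | succ m ih =>
    simp only [sm]
    rw [ih, ih]
    ring

theorem sm_mul (m : ℕ) (c : K) (f : List Bool → K) : sm m (fun l => c * f l) = c * sm m f := by
  induction m generalizing f with
  | zero => rfl
  | succ m ih =>
    simp only [sm]
    rw [ih, ih]
    ring

theorem sm_mul_right (m : ℕ) (c : K) (f : List Bool → K) : sm m (fun l => f l * c) = sm m f * c := by
  rw [mul_comm, ← sm_mul]
  congr 1
  funext l
  ring

theorem sm_zero (m : ℕ) : sm m (fun _ => (0 : K)) = 0 := by
  induction m with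
  | zero => rfl
  | succ m ih =>
    simp only [sm]
    rw [ih]
    ring

theorem sm_congr {m : ℕ} {f g : List Bool → K} (h : ∀ l, l.length = m → f l = g l) :
    sm m f = sm m g := by
  induction m generalizing f g with
  | zero => exact h [] rfl
  | succ m ih =>
    simp only [sm]
    rw [ih (f := fun l => f (false :: l)) (g := fun l => g (false :: l)) fun l hl => h _ (by simp [hl]),
      ih (f := fun l => f (true :: l)) (g := fun l => g (true :: l)) fun l hl => h _ (by simp [hl])]

theorem sm_comm (m k : ℕ) (f : List Bool → List Bool → K) :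
    sm m (fun x => sm k (fun y => f x y)) = sm k (fun y => sm m (fun x => f x y)) := by
  induction m generalizing f with
  | zero => rfl
  | succ m ih =>
    simp only [sm]
    rw [ih, ih, ← sm_add]

/-- number of particles -/
def cnt (l : List Bool) : ℕ := l.count true

theorem cnt_nil : cnt [] = 0 := rfl
theorem cnt_false (l : List Bool) : cnt (false :: l) = cnt l := by simp [cnt]
theorem cnt_true (l : List Bool) : cnt (true :: l) = cnt l + 1 := by simp [cnt]

/-- `1` for `true` -/
def bn (b : Bool) : ℕ := if b then 1 else 0

theorem bn_false : bn false = 0 := rfl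
theorem bn_true : bn true = 1 := rfl

theorem cnt_cons (n : Bool) (l : List Bool) : cnt (n :: l) = bn n + cnt l := by
  cases n
  · rw [cnt_false, bn_false, zero_add]
  · rw [cnt_true, bn_true, add_comm]

theorem wt_cons {p : K} {n μ n' μ' : Bool} (h : wt p n μ n' μ' ≠ 0) : bn n + bn μ = bn n' + bn μ' := by
  cases n <;> cases μ <;> cases n' <;> cases μ' <;> simp_all [wt, bn]

/-- conservation of particles -/
theorem T_cons {p : K} : ∀ {x z : List Bool} {μ ν : Bool}, T p x z μ ν ≠ 0 →
    cnt x + bn μ = cnt z + bn ν
  | [], [], μ, ν, h => by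
    simp only [T] at h
    split_ifs at h with h1
    · rw [h1]
    · exact absurd rfl h
  | n :: l, n' :: l', μ, ν, h => by
    simp only [T] at h
    rw [cnt_cons, cnt_cons]
    by_cases h1 : wt p n μ n' false * T p l l' false ν = 0
    · rw [h1, zero_add] at h
      have h2 := wt_cons (left_ne_zero_of_mul h)
      have h3 := T_cons (right_ne_zero_of_mul h)
      omega
    · have h2 := wt_cons (left_ne_zero_of_mul h1)
      have h3 := T_cons (right_ne_zero_of_mul h1)
      omega
  | [], _ :: _, _, _, h => absurd rfl h
  | _ :: _, [], _, _, h => absurd rfl h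

theorem T2_cons {p : K} : ∀ {x z : List Bool} {μ ν : Bool}, T2 p x z μ ν ≠ 0 →
    cnt x + bn ν = cnt z + bn μ
  | [], [], μ, ν, h => by
    simp only [T2] at h
    split_ifs at h with h1
    · rw [h1]
    · exact absurd rfl h
  | n :: l, n' :: l', μ, ν, h => by
    simp only [T2] at h
    rw [cnt_cons, cnt_cons]
    by_cases h1 : wt p n false n' μ * T2 p l l' false ν = 0
    · rw [h1, zero_add] at h
      have h2 := wt_cons (left_ne_zero_of_mul h)
      have h3 := T2_cons (right_ne_zero_of_mul h)
      omega
    · have h2 := wt_cons (left_ne_zero_of_mul h1)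
      have h3 := T2_cons (right_ne_zero_of_mul h1)
      omega
  | [], _ :: _, _, _, h => absurd rfl h
  | _ :: _, [], _, _, h => absurd rfl h

/-- the gauge factor `c2 ^ (ν - μ)` -/
def gg (p : K) (μ ν : Bool) : K := if μ = ν then 1 else if ν then c2 p else (c2 p)⁻¹

theorem wt_rev {p : K} (hp : c2 p ≠ 0) (n μ n' μ' : Bool) : wt p n' μ' n μ = gg p μ μ' * wt p n μ n' μ' := by
  cases n <;> cases μ <;> cases n' <;> cases μ' <;> simp [wt, gg, hp]

theorem gg_mul {p : K} (hp : c2 p ≠ 0) (μ μ' ν : Bool) : gg p μ μ' * gg p μ' ν = gg p μ ν := by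
  cases μ <;> cases μ' <;> cases ν <;> simp [gg, hp]

/-- the backward row is the transposed forward row up to a gauge factor -/
theorem T2_eq {p : K} (hp : c2 p ≠ 0) : ∀ (z x : List Bool) (μ ν : Bool),
    T2 p z x μ ν = gg p μ ν * T p x z μ ν
  | [], [], μ, ν => by cases μ <;> cases ν <;> simp [T2, T, gg]
  | n' :: l', n :: l, μ, ν => by
    simp only [T2, T]
    rw [wt_rev hp n μ n' false, wt_rev hp n μ n' true, T2_eq hp l' l false ν, T2_eq hp l' l true ν,
      ← gg_mul hp μ false ν]
    rw [show gg p μ false * wt p n μ n' false * (gg p false ν * T p l l' false ν) +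
      gg p μ true * wt p n μ n' true * (gg p true ν * T p l l' true ν) =
      (gg p μ false * gg p false ν) * (wt p n μ n' false * T p l l' false ν) +
      (gg p μ true * gg p true ν) * (wt p n μ n' true * T p l l' true ν) by ring, gg_mul hp,
      gg_mul hp]
    ring
  | [], _ :: _, μ, ν => by simp [T2, T]
  | _ :: _, [], μ, ν => by simp [T2, T]

end Pool.Agent.Rect.Herm
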