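import Pool.Agent.Rect.Herm.Height
import Pool.Agent.Rect.Herm.Rows
import Pool.Agent.Helper9.DR.Poly

/-!
# The double row matrix in the height functionals: rows of the six vertex model
-/

set_option linter.unusedSimpArgs false

namespace Pool.Agent.Rect.Herm

open Pool.Agent.Helper9.DR

variable {K : Type*} [Field K] {V : Type*} [AddCommGroup V] [Module K V]

/-- one step of the height -/
def st (a : ℤ) (n : Bool) : ℤ := if n then a + 1 else a - 1

/-- `±1` -/
def sg (μ : Bool) : ℤ := if μ then 1 else -1

@[simp] theorem st_false (a : ℤ) : st a false = a - 1 := rfl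
@[simp] theorem st_true (a : ℤ) : st a true = a + 1 := rfl
@[simp] theorem sg_false : sg false = -1 := rfl
@[simp] theorem sg_true : sg true = 1 := rfl

/-- the heights after `a` for the occupation numbers `l` -/
def hs : ℤ → List Bool → List ℤ
  | _, [] => []
  | a, n :: l => st a n :: hs (st a n) l

/-- the last height -/
def lst : ℤ → List Bool → ℤ
  | a, [] => a
  | a, n :: l => lst (st a n) l

@[simp] theorem hs_length (a : ℤ) (l : List Bool) : (hs a l).length = l.length := by
  induction l generalizing a with
  | nil => rfl
  | cons n l ih => simp [hs, ih]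

namespace HFam

variable {Tw : Tower K V} {ld : ℕ} (H : HFam Tw ld) (p : K)

/-- the auxiliary covector moving to the right -/
def chi (L : List ℤ) (a : ℤ) (R : List ℤ) (μ : Bool) (v : V) : K :=
  if μ then p * H.F (L ++ a :: R) v - (1 - p) * H.F (L ++ (a + 2) :: R) v else H.F (L ++ a :: R) v

/-- the auxiliary covector moving to the left -/
def chi' (L : List ℤ) (a : ℤ) (R : List ℤ) (μ : Bool) (v : V) : K :=
  if μ then p * H.F (L ++ a :: R) v - (1 - p) * H.F (L ++ (a - 2) :: R) v else H.F (L ++ a :: R) v

theorem recA (L R : List ℤ) (a b : ℤ) {v : V} (hv : v ∈ H.W (L.length + R.length + 2)) :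
    H.F (L ++ (a + 2) :: b :: R) v = H.F (L ++ (a + 1) :: b :: R) v - H.F (L ++ a :: b :: R) v :=
  H.rec2 L (b :: R) a (by simpa [add_assoc] using hv)

theorem recB (L R : List ℤ) (a b : ℤ) {v : V} (hv : v ∈ H.W (L.length + R.length + 2)) :
    H.F (L ++ a :: (b + 2) :: R) v = H.F (L ++ a :: (b + 1) :: R) v - H.F (L ++ a :: b :: R) v := by
  have := H.rec2 (L ++ [a]) R b (v := v) (by
    rw [List.length_append, List.length_singleton, show L.length + 1 + R.length + 1 =
      L.length + R.length + 2 by ring]
    exact hv)
  simpa using this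

/-- crossing a site, to the right -/
theorem crossR (L R : List ℤ) (a : ℤ) (n μ : Bool) {v : V} (hv : v ∈ H.W (L.length + R.length + 2)) :
    H.chi p L a (st a n :: R) μ (Tw.X L.length p v) =
      wt p n μ false false * H.chi p (L ++ [st (a - sg μ) false]) (st a n) R false v +
      wt p n μ false true * H.chi p (L ++ [st (a - sg μ) false]) (st a n) R true v +
      (wt p n μ true false * H.chi p (L ++ [st (a - sg μ) true]) (st a n) R false v +
      wt p n μ true true * H.chi p (L ++ [st (a - sg μ) true]) (st a n) R true v) := by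
  cases n <;> cases μ
  · -- hole, 0
    simp only [chi, wt, st_false, st_true, sg_false, Bool.false_eq_true, if_false, List.append_assoc,
      List.singleton_append, if_true]
    rw [H.F_X L R a (a - 1) 0 p hv, show a - 1 - a = (-1 : ℤ) by ring, kap_neg_one,
      show a - -1 - 1 = a by ring]
    push_cast
    ring
  · -- hole, 1
    simp only [chi, wt, st_false, st_true, sg_true, Bool.false_eq_true, if_false, List.append_assoc,
      List.singleton_append, if_true]
    rw [H.F_X L R a (a - 1) 0 p hv, H.F_X L R (a + 2) (a - 1) (a - 1) p hv,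
      show a - 1 - a = (-1 : ℤ) by ring, show a - 1 - (a + 2) = (-3 : ℤ) by ring, kap_neg_one,
      kap_neg_three, show a - 1 - 1 = a - 2 by ring, show a - 1 + 1 = a by ring,
      show a - 1 + 2 = a + 1 by ring]
    have e1 := H.recA L R a (a - 1) hv
    have e2 := H.recA L R (a - 1) (a - 1) hv
    have e3 := H.recA L R (a - 2) (a - 1) hv
    have e4 := H.recB L R (a - 2) (a - 1) hv
    rw [show a - 1 + 2 = a + 1 by ring, show a - 1 + 1 = a by ring] at e2 e4
    rw [show a - 2 + 2 = a by ring, show a - 2 + 1 = a - 1 by ring] at e3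
    unfold c2
    push_cast
    rw [e4, e1, e2]
    linear_combination (p - 1) * e3
  · -- particle, 0
    simp only [chi, wt, st_false, st_true, sg_false, Bool.false_eq_true, if_false, List.append_assoc,
      List.singleton_append, if_true]
    rw [H.F_X L R a (a + 1) (a + 1) p hv, show a + 1 - a = (1 : ℤ) by ring, kap_one,
      show a + 1 - 1 = a by ring, show a - -1 - 1 = a by ring, show a - -1 + 1 = a + 2 by ring,
      show a + 1 + 1 = a + 2 by ring, show a + 1 + 2 = a + 3 by ring]
    have e1 := H.recA L R a (a + 1) hv
    have e2 := H.recB L R a (a + 1) hv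
    rw [show a + 1 + 2 = a + 3 by ring, show a + 1 + 1 = a + 2 by ring] at e2
    rw [e1, e2]
    push_cast
    ring
  · -- particle, 1
    simp only [chi, wt, st_false, st_true, sg_true, Bool.false_eq_true, if_false, List.append_assoc,
      List.singleton_append, if_true]
    rw [H.F_X L R a (a + 1) (a + 1) p hv, H.F_X L R (a + 2) (a + 1) (a + 1) p hv,
      show a + 1 - a = (1 : ℤ) by ring, show a + 1 - (a + 2) = (-1 : ℤ) by ring, kap_one, kap_neg_one,
      show a + 1 - 1 = a by ring, show a - 1 + 1 = a by ring,
      show a + 1 + 1 = a + 2 by ring, show a + 1 + 2 = a + 3 by ring]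
    have e1 := H.recA L R a (a + 1) hv
    have e2 := H.recB L R a (a + 1) hv
    rw [show a + 1 + 2 = a + 3 by ring, show a + 1 + 1 = a + 2 by ring] at e2
    rw [e1, e2]
    push_cast
    ring

/-- crossing a site, to the left -/
theorem crossL (L R : List ℤ) (a : ℤ) (n μ : Bool) {v : V} (hv : v ∈ H.W (L.length + R.length + 2)) :
    H.chi' p (L ++ [a]) (st a n) R μ (Tw.X L.length p v) =
      wt p n μ false false * H.chi' p L a ((a + sg false) :: R) false v +
      wt p n μ false true * H.chi' p L a ((a + sg true) :: R) true v +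
      (wt p n μ true false * H.chi' p L a ((a + sg false) :: R) false v +
      wt p n μ true true * H.chi' p L a ((a + sg true) :: R) true v) := by
  cases n <;> cases μ
  · simp only [chi', wt, st_false, st_true, sg_false, Bool.false_eq_true, if_false, List.append_assoc,
      List.singleton_append, if_true, sg_true]
    rw [H.F_X L R a (a - 1) 0 p hv, show a - 1 - a = (-1 : ℤ) by ring, kap_neg_one,
      show a + -1 = a - 1 by ring]
    push_cast
    ring
  · simp only [chi', wt, st_false, st_true, sg_true, Bool.false_eq_true, if_false, List.append_assoc,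
      List.singleton_append, if_true, sg_false]
    rw [H.F_X L R a (a - 1) 0 p hv, H.F_X L R a (a - 1 - 2) a p hv,
      show a - 1 - a = (-1 : ℤ) by ring, show a - 1 - 2 - a = (-3 : ℤ) by ring, kap_neg_one,
      kap_neg_three, show a + -1 = a - 1 by ring, show a - 1 - 2 = a - 3 by ring]
    have e1 := H.recA L R (a - 2) (a + 1) hv
    have e2 := H.recB L R a (a - 1) hv
    have e3 := H.recB L R a (a - 2) hv
    have e4 := H.recB L R a (a - 3) hv
    rw [show a - 2 + 2 = a by ring, show a - 2 + 1 = a - 1 by ring] at e1
    rw [show a - 1 + 2 = a + 1 by ring, show a - 1 + 1 = a by ring] at e2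
    rw [show a - 2 + 2 = a by ring, show a - 2 + 1 = a - 1 by ring] at e3
    rw [show a - 3 + 2 = a - 1 by ring, show a - 3 + 1 = a - 2 by ring] at e4
    unfold c2
    push_cast
    linear_combination (1 - p) ^ 2 * e1 + (-(1 - p) * p - (1 - p) ^ 2) * e2 - p * (1 - p) * e3 - p * (1 - p) * e4
  · simp only [chi', wt, st_false, st_true, sg_false, Bool.false_eq_true, if_false, List.append_assoc,
      List.singleton_append, if_true, sg_true]
    rw [H.F_X L R a (a + 1) a p hv, show a + 1 - a = (1 : ℤ) by ring, kap_one,
      show a + -1 = a - 1 by ring]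
    have e1 := H.recA L R (a - 2) (a + 1) hv
    have e2 := H.recB L R a (a - 1) hv
    rw [show a - 2 + 2 = a by ring, show a - 2 + 1 = a - 1 by ring] at e1
    rw [show a - 1 + 2 = a + 1 by ring, show a - 1 + 1 = a by ring] at e2
    push_cast
    linear_combination (1 - p) * e1 + (p - 1) * e2
  · simp only [chi', wt, st_false, st_true, sg_true, Bool.false_eq_true, if_false, List.append_assoc,
      List.singleton_append, if_true, sg_false]
    rw [H.F_X L R a (a + 1) a p hv, H.F_X L R a (a + 1 - 2) a p hv,
      show a + 1 - a = (1 : ℤ) by ring, show a + 1 - 2 - a = (-1 : ℤ) by ring, kap_one, kap_neg_one,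
      show a + 1 - 2 = a - 1 by ring]
    have e1 := H.recA L R (a - 2) (a + 1) hv
    have e2 := H.recB L R a (a - 1) hv
    rw [show a - 2 + 2 = a by ring, show a - 2 + 1 = a - 1 by ring] at e1
    rw [show a - 1 + 2 = a + 1 by ring, show a - 1 + 1 = a by ring] at e2
    push_cast
    linear_combination (p * (1 - p)) * e1 + (p * (p - 1)) * e2

/-- reflection at the right end -/
def rm (p : K) : Bool → Bool → K
  | false, false => p
  | true, true => 1
  | true, false => 1 - p ^ 2
  | false, true => 0

theorem reflR (L : List ℤ) (a : ℤ) (ν : Bool) {v : V} (hv : v ∈ H.W (L.length + 2)) :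
    H.chi p (L ++ [a]) (a + sg ν) [] ν (Tw.X L.length p v) =
      rm p ν false * H.chi' p L a [a + sg false] false v +
      rm p ν true * H.chi' p L a [a + sg true] true v := by
  have hv' : v ∈ H.W (L.length + ([] : List ℤ).length + 2) := by simpa using hv
  cases ν
  · simp only [chi, chi', rm, sg_false, Bool.false_eq_true, if_false, List.append_assoc,
      List.singleton_append, if_true, sg_true]
    rw [H.F_X L [] a (a + -1) 0 p hv', show a + -1 - a = (-1 : ℤ) by ring, kap_neg_one]
    push_cast
    ring
  · simp only [chi, chi', rm, sg_true, Bool.false_eq_true, if_false, List.append_assoc,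
      List.singleton_append, if_true, sg_false]
    rw [H.F_X L [] a (a + 1) a p hv', H.F_X L [] a (a + 1 + 2) a p hv',
      show a + 1 - a = (1 : ℤ) by ring, show a + 1 + 2 - a = (3 : ℤ) by ring, kap_one, kap_three,
      show a + -1 = a - 1 by ring, show a + 1 + 2 = a + 3 by ring]
    have e1 := H.recA L [] (a - 2) (a + 1) hv'
    have e2 := H.recB L [] a (a - 1) hv'
    have e3 := H.recB L [] a a hv'
    have e4 := H.recB L [] a (a + 1) hv'
    rw [show a - 2 + 2 = a by ring, show a - 2 + 1 = a - 1 by ring] at e1
    rw [show a - 1 + 2 = a + 1 by ring, show a - 1 + 1 = a by ring] at e2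
    rw [show a + 1 + 2 = a + 3 by ring, show a + 1 + 1 = a + 2 by ring] at e4
    push_cast
    linear_combination (1 - p) * e1 + (p ^ 2 - 1) * e2 - p * (1 - p) * e3 - p * (1 - p) * e4

end HFam

end Pool.Agent.Rect.Herm
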