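import Pool.Agent.Helper9.DR.Alg

/-!
# Height functionals on a planar tower (loop weight 1)

`kap : ℤ → ℤ` has period `6` and the values `1, 1, 0, -1, -1, 0`.
`HFam T l`: a family of functionals `F h`, `h` a list of heights (one for each strand), on the
subspaces `W N` (`N` strands, `l` defects) of a tower, with three rules:
* `rec`: `F` is linear in each height in the sense `F (a+1) = F a - F (a-1)`;
* `cup`: `F (p ++ a :: b :: q) (c i v) = kap (b - a) * F (p ++ q) v`, `i = p.length`;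
* `cap`: `F (p ++ q) (k i v) = F (p ++ g :: g :: q) v - F (p ++ (g-1) :: (g+1) :: q) v`.
For link patterns with two defects `F h w = kap (h d1 + h d2 + 1) * ∏ kap (h c - h a)` (product over
the arcs `a < c`).
-/

namespace Pool.Agent.Rect.Herm

open Pool.Agent.Helper9.DR

/-- period `6`: `1, 1, 0, -1, -1, 0` -/
def kap (m : ℤ) : ℤ :=
  if m % 6 = 0 ∨ m % 6 = 1 then 1 else if m % 6 = 3 ∨ m % 6 = 4 then -1 else 0

theorem kap_rec (m : ℤ) : kap (m + 1) = kap m - kap (m - 1) := by
  unfold kap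
  split_ifs <;> omega

theorem kap_add_three (m : ℤ) : kap (m + 3) = -kap m := by
  unfold kap
  split_ifs <;> omega

theorem kap_add_six (m : ℤ) : kap (m + 6) = kap m := by
  unfold kap
  split_ifs <;> omega

@[simp] theorem kap_zero : kap 0 = 1 := rfl
@[simp] theorem kap_one : kap 1 = 1 := rfl
@[simp] theorem kap_two : kap 2 = 0 := rfl
@[simp] theorem kap_three : kap 3 = -1 := rfl
@[simp] theorem kap_neg_one : kap (-1) = 0 := rfl
@[simp] theorem kap_neg_two : kap (-2) = -1 := rfl
@[simp] theorem kap_neg_three : kap (-3) = -1 := rfl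

variable {K : Type*} [Field K] {V : Type*} [AddCommGroup V] [Module K V]

/-- height functionals on a tower; `l` = number of defects -/
structure HFam (T : Tower K V) (l : ℕ) where
  /-- the vectors with `N` strands -/
  W : ℕ → Submodule K V
  /-- the functional of a list of heights -/
  F : List ℤ → V →ₗ[K] K
  c_mem : ∀ {N i : ℕ} {v : V}, v ∈ W N → i ≤ N → T.c i v ∈ W (N + 2)
  k_mem : ∀ {N i : ℕ} {v : V}, v ∈ W (N + 2) → i ≤ N → T.k i v ∈ W N
  rec' : ∀ (p q : List ℤ) (a : ℤ) {v : V}, v ∈ W (p.length + q.length + 1) →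
    F (p ++ (a + 1) :: q) v = F (p ++ a :: q) v - F (p ++ (a - 1) :: q) v
  cup : ∀ (p q : List ℤ) (a b : ℤ) {v : V}, v ∈ W (p.length + q.length) →
    F (p ++ a :: b :: q) (T.c p.length v) = (kap (b - a) : K) * F (p ++ q) v
  cap : ∀ (p q : List ℤ) (g : ℤ) {v : V}, v ∈ W (p.length + q.length + 2) →
    F (p ++ q) (T.k p.length v) = F (p ++ g :: g :: q) v - F (p ++ (g - 1) :: (g + 1) :: q) v
  /-- a vector with an arc is a combination of cups -/
  gen : ∀ (k : ℕ) {v : V}, v ∈ W (l + 2 * (k + 1)) →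
    v ∈ Submodule.span K {x | ∃ i u, i ≤ l + 2 * k ∧ u ∈ W (l + 2 * k) ∧ x = T.c i u}

namespace HFam

variable {T : Tower K V} {l : ℕ} (H : HFam T l)

theorem e_mem {N i : ℕ} {v : V} (hv : v ∈ H.W N) (hi : i + 2 ≤ N) : T.e i v ∈ H.W N := by
  obtain ⟨M, rfl⟩ : ∃ M, N = M + 2 := ⟨N - 2, by omega⟩
  exact H.c_mem (H.k_mem hv (by omega)) (by omega)

theorem X_mem {N i : ℕ} {v : V} (hv : v ∈ H.W N) (hi : i + 2 ≤ N) (p : K) : T.X i p v ∈ H.W N := by
  rw [T.X_def]
  simp only [LinearMap.add_apply, LinearMap.smul_apply, Module.End.one_apply]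
  exact add_mem (Submodule.smul_mem _ _ hv) (Submodule.smul_mem _ _ (H.e_mem hv hi))

/-- the action of a generator -/
theorem F_e (p q : List ℤ) (a b g : ℤ) {v : V} (hv : v ∈ H.W (p.length + q.length + 2)) :
    H.F (p ++ a :: b :: q) (T.e p.length v) =
      (kap (b - a) : K) * (H.F (p ++ g :: g :: q) v - H.F (p ++ (g - 1) :: (g + 1) :: q) v) := by
  rw [T.e_def, Module.End.mul_apply, H.cup p q a b (H.k_mem hv (by omega)), H.cap p q g hv]

/-- the action of a tile -/
theorem F_X (p q : List ℤ) (a b g : ℤ) (x : K) {v : V} (hv : v ∈ H.W (p.length + q.length + 2)) :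
    H.F (p ++ a :: b :: q) (T.X p.length x v) = x * H.F (p ++ a :: b :: q) v + (1 - x) *
      ((kap (b - a) : K) * (H.F (p ++ g :: g :: q) v - H.F (p ++ (g - 1) :: (g + 1) :: q) v)) := by
  rw [T.X_def]
  simp only [LinearMap.add_apply, LinearMap.smul_apply, Module.End.one_apply, map_add, map_smul,
    smul_eq_mul]
  rw [H.F_e p q a b g hv]

/-- the rule `rec` in the form of a three term relation -/
theorem rec2 (p q : List ℤ) (a : ℤ) {v : V} (hv : v ∈ H.W (p.length + q.length + 1)) :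
    H.F (p ++ (a + 2) :: q) v = H.F (p ++ (a + 1) :: q) v - H.F (p ++ a :: q) v := by
  have := H.rec' p q (a + 1) hv
  rw [show a + 1 + 1 = a + 2 by ring, show a + 1 - 1 = a by ring] at this
  exact this

theorem rec3 (p q : List ℤ) (a : ℤ) {v : V} (hv : v ∈ H.W (p.length + q.length + 1)) :
    H.F (p ++ (a + 3) :: q) v = -H.F (p ++ a :: q) v := by
  have h1 := H.rec2 p q (a + 1) hv
  have h2 := H.rec2 p q a hv
  rw [show a + 1 + 2 = a + 3 by ring, show a + 1 + 1 = a + 2 by ring] at h1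
  rw [h1, h2]
  ring

end HFam

end Pool.Agent.Rect.Herm
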