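import Pool.Agent.Rect.Herm.Fam
import Pool.Agent.Rect.Herm.CBound

/-!
# From the Hermitian family to the spectral data of the crossing probabilities

`Fam.Input.data`: the family `H` (helper97) on the standard module with two defects, the dictionary
with the three probabilities `pA`, `P`, `pB`, positivity and the functional relations for the joint
eigenvalues give `HermData n`.
-/

set_option autoImplicit false

namespace Pool.Agent.Rect.Herm

open Module Polynomial Finset H47Perc.RC

variable {V : Type*} [AddCommGroup V] [Module ℝ V] {I : Type*} [Fintype I] {m : ℕ}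

/-- what is needed about a family besides the structure `Fam` -/
structure Fam.Input (H : Fam V I m) (n : ℕ) : Prop where
  /-- `D (1/2)` is positive semidefinite -/
  psd : ∀ x, 0 ≤ H.B x (H.D (1 / 2) x)
  /-- the Hamiltonian has nonnegative entries -/
  hnn : ∀ i j, 0 ≤ H.e.repr (H.h (H.e j)) i
  /-- `D (1/2)` dominates `ε (1 + h)` -/
  big : ∃ ε : ℝ, 0 < ε ∧ ∀ i j, ε * (H.e.repr (H.h (H.e j)) i + H.e.repr (H.e j) i) ≤
      H.e.repr (H.D (1 / 2) (H.e j)) i
  /-- column sums of the Hamiltonian -/
  col : ∀ j, ∑ i, H.e.repr (H.h (H.e j)) i ≤ H.c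
  /-- some particles are lost -/
  col' : ∃ j, ∑ i, H.e.repr (H.h (H.e j)) i < H.c
  /-- the functional relations of the joint eigenvalues -/
  sol : ∀ (v : V) (d : ℝ[X]), v ≠ 0 → d.natDegree ≤ m → (∀ p, H.D p v = d.eval p • v) →
    DR.Sol (2 * n) (d.map (algebraMap ℝ ℂ)) ∧
      ∀ p : ℂ, p ^ 2 - p + 1 = 0 → (d.map (algebraMap ℝ ℂ)).eval p = -2
  /-- the probability that all upper sites are joined to the lower side -/
  all : ∀ M : ℕ, pA n M = H.B H.b (((H.D (1 / 2)) ^ M) H.b)
  /-- the crossing probability -/
  cross : ∀ M : ℕ, P n M = H.F H.b (((H.D (1 / 2)) ^ M) H.b)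
  /-- the merged events -/
  merge : ∃ (s : ℝ) (z : V), 0 < s ∧ (∀ x, H.B z x = s * H.F H.b (H.c • x - H.h x)) ∧
    ∀ M : ℕ, pB n M = H.F z (((H.D (1 / 2)) ^ M) H.b)

/-- the spectral data -/
theorem Fam.Input.data {H : Fam V I m} {n : ℕ} (X : H.Input n) : Nonempty (HermData n) := by
  obtain ⟨S⟩ := H.exists_spec
  obtain ⟨ε, hε, hbig⟩ := X.big
  obtain ⟨s, z, hs, hz, hzM⟩ := X.merge
  have hl : ∀ M : ℕ, ((List.replicate M (1 / 2 : ℝ)).map H.D).prod = (H.D (1 / 2)) ^ M := by
    intro M
    rw [List.map_replicate, List.prod_replicate]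
  have hr : ∀ (M : ℕ) (k : Fin (finrank ℝ V)),
      ((List.replicate M (1 / 2 : ℝ)).map fun p => (S.d k).eval p).prod =
        (S.d k).eval (1 / 2) ^ M := by
    intro M k
    rw [List.map_replicate, List.prod_replicate]
  refine ⟨{ K := Fin (finrank ℝ V)
            fin := inferInstance
            μ := S.mu
            γ := S.g
            L := fun k => s * S.L k
            d := S.d
            k0 := S.k0
            sol := fun k => (X.sol (S.v k) (S.d k) (S.v.ne_zero k) (S.deg k) (S.ev k)).1
            braid := fun k => (X.sol (S.v k) (S.d k) (S.v.ne_zero k) (S.deg k) (S.ev k)).2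
            μ_nonneg := S.mu_nonneg
            μ_pos := S.mu_zero
            γ_pos := S.g_zero
            L_pos := mul_pos hs (S.L_zero X.col X.col')
            L_le := fun k => mul_le_mul_of_nonneg_left (S.L_min k) hs.le
            lam_nonneg := S.nonneg_of_psd X.psd
            dom := fun k hk => (le_abs_self _).trans_lt (S.top_strict hε X.hnn hbig k hk)
            all_eq := fun M => ?_
            cross_eq := fun M => ?_
            merge_eq := fun M => ?_ }⟩
  · rw [X.all, ← hl, S.word]
    exact sum_congr rfl fun k _ => by rw [hr]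
  · rw [X.cross, ← hl, S.wordF]
    exact sum_congr rfl fun k _ => by rw [hr]
  · rw [hzM, ← hl, S.wordZs hz]
    exact sum_congr rfl fun k _ => by rw [hr]

end Pool.Agent.Rect.Herm
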