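import Pool.Agent.Rect.Herm.TauDefs

/-!
# `t0` commutes with the double row matrix
-/

namespace Pool.Agent.Rect.Herm

open Matrix

variable {K : Type*} [Field K]

/-- the eight exchange relations between the row `t` and the double row -/
structure Rel (x : K) (m : ℕ) : Prop where
  r1 : (1 + x) • ((mono x m).A * t0 K m) + x • ((mono x m).B * t0 K m)
      = (1 + x) • (t0 K m * (mono x m).A) + x • (t0 K m * (mono x m).B)
  r2 : (x ^ 2 + x + 1) • ((mono x m).C * t1 K m)
      = t0 K m * (mono x m).A - (1 + x) • ((mono x m).B * t0 K m)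
  r3 : (x ^ 2 + x + 1) • (t1 K m * (mono x m).Ct)
      = (1 + x) • (t0 K m * (mono x m).B) - (mono x m).A * t0 K m
  r4 : (1 + x) • ((mono x m).B * t1 K m) + x • ((mono x m).A * t1 K m)
      = (1 + x) • (t1 K m * (mono x m).B) + x • (t1 K m * (mono x m).A)
  r5 : (x ^ 2 + x + 1) • ((mono x m).Ct * t0 K m)
      = t1 K m * (mono x m).B - (1 + x) • ((mono x m).A * t1 K m)
  r6 : (x ^ 2 + x + 1) • (t0 K m * (mono x m).C)
      = (1 + x) • (t1 K m * (mono x m).A) - (mono x m).B * t1 K m
  r7 : (mono x m).C * t0 K m = -(t0 K m * (mono x m).Ct)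
  r8 : (mono x m).Ct * t1 K m = -(t1 K m * (mono x m).C)

lemma mono_A_succ (x : K) (m : ℕ) : (mono x (m + 1)).A =
    blk (mono x m).A ((x ^ 2 + x + 1) • (mono x m).Ct) ((x ^ 2 + x + 1) • (mono x m).C)
      ((x ^ 2 + x + 1) • (mono x m).B + x ^ 2 • (mono x m).A) := rfl
lemma mono_B_succ (x : K) (m : ℕ) : (mono x (m + 1)).B =
    blk ((x ^ 2 + x + 1) • (mono x m).A + x ^ 2 • (mono x m).B) ((x ^ 2 + x + 1) • (mono x m).Ct)
      ((x ^ 2 + x + 1) • (mono x m).C) (mono x m).B := rfl
lemma mono_C_succ (x : K) (m : ℕ) : (mono x (m + 1)).C =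
    blk (x • (mono x m).C) (x • ((mono x m).A + (mono x m).B)) 0 (x • (mono x m).C) := rfl
lemma mono_Ct_succ (x : K) (m : ℕ) : (mono x (m + 1)).Ct =
    blk (x • (mono x m).Ct) 0 (x • ((mono x m).A + (mono x m).B)) (x • (mono x m).Ct) := rfl

lemma rel_zero (x : K) : Rel x 0 := by
  constructor <;> simp [mono, t0_zero, t1_zero]

set_option linter.unusedSimpArgs false

lemma rel_succ {x : K} (hc : x ^ 2 + x + 1 ≠ 0) {m : ℕ} (h : Rel x m) : Rel x (m + 1) := by
  obtain ⟨h1, h2, h3, h4, h5, h6, h7, h8⟩ := h
  have cancel : ∀ u v : Op K m, (x ^ 2 + x + 1) • u = (x ^ 2 + x + 1) • v → u = v :=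
    fun u v huv => by
      have := congrArg (fun z => (x ^ 2 + x + 1)⁻¹ • z) huv
      simpa [smul_smul, inv_mul_cancel₀ hc] using this
  constructor
  · rw [mono_A_succ, mono_B_succ, t0_succ]
    simp only [blk_mul, blk_smul, blk_add, blk_sub, blk_neg]
    apply blk_congr
    · simp only [mul_add, add_mul, mul_sub, sub_mul, smul_mul_assoc, mul_smul_comm, smul_add,
        smul_sub, mul_zero, zero_mul, mul_neg, neg_mul, smul_neg, neg_add_rev, neg_neg, smul_zero,
        neg_zero, sub_zero, zero_sub, add_zero, zero_add]
      linear_combination (norm := module) (1 + 2 * x) • h5 + (1 + 2 * x) • h6 + (x ^ 2 - x - 1) • h4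
    · simp only [mul_add, add_mul, mul_sub, sub_mul, smul_mul_assoc, mul_smul_comm, smul_add,
        smul_sub, mul_zero, zero_mul, mul_neg, neg_mul, smul_neg, neg_add_rev, neg_neg, smul_zero,
        neg_zero, sub_zero, zero_sub, add_zero, zero_add]
      linear_combination (norm := module) -(1 + 2 * x) • h3 - x ^ 2 • h1
    · simp only [mul_add, add_mul, mul_sub, sub_mul, smul_mul_assoc, mul_smul_comm, smul_add,
        smul_sub, mul_zero, zero_mul, mul_neg, neg_mul, smul_neg, neg_add_rev, neg_neg, smul_zero,
        neg_zero, sub_zero, zero_sub, add_zero, zero_add]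
      linear_combination (norm := module) (1 + 2 * x) • h2 + x ^ 2 • h1
    · simp only [mul_add, add_mul, mul_sub, sub_mul, smul_mul_assoc, mul_smul_comm, smul_add,
        smul_sub, mul_zero, zero_mul, mul_neg, neg_mul, smul_neg, neg_add_rev, neg_neg, smul_zero,
        neg_zero, sub_zero, zero_sub, add_zero, zero_add]
      linear_combination (norm := module) (-(1 + 2 * x) * (x ^ 2 + x + 1)) • h7
  · rw [mono_C_succ, mono_A_succ, mono_B_succ, t0_succ, t1_succ]
    simp only [blk_mul, blk_smul, blk_add, blk_sub, blk_neg]
    apply blk_congr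
    · simp only [mul_add, add_mul, mul_sub, sub_mul, smul_mul_assoc, mul_smul_comm, smul_add,
        smul_sub, mul_zero, zero_mul, mul_neg, neg_mul, smul_neg, neg_add_rev, neg_neg, smul_zero,
        neg_zero, sub_zero, zero_sub, add_zero, zero_add]
      linear_combination (norm := module) (1 : K) • h6 + (1 + x) • h5 - (1 : K) • h4
    · simp only [mul_add, add_mul, mul_sub, sub_mul, smul_mul_assoc, mul_smul_comm, smul_add,
        smul_sub, mul_zero, zero_mul, mul_neg, neg_mul, smul_neg, neg_add_rev, neg_neg, smul_zero,
        neg_zero, sub_zero, zero_sub, add_zero, zero_add]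
      linear_combination (norm := module) x • h2 - (1 : K) • h3 - x • h1
    · simp only [mul_add, add_mul, mul_sub, sub_mul, smul_mul_assoc, mul_smul_comm, smul_add,
        smul_sub, mul_zero, zero_mul, mul_neg, neg_mul, smul_neg, neg_add_rev, neg_neg, smul_zero,
        neg_zero, sub_zero, zero_sub, add_zero, zero_add]
      linear_combination (norm := module) (1 : K) • h2
    · simp only [mul_add, add_mul, mul_sub, sub_mul, smul_mul_assoc, mul_smul_comm, smul_add,
        smul_sub, mul_zero, zero_mul, mul_neg, neg_mul, smul_neg, neg_add_rev, neg_neg, smul_zero,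
        neg_zero, sub_zero, zero_sub, add_zero, zero_add]
      linear_combination (norm := module) (-(x ^ 2 + x + 1)) • h7
  · rw [mono_Ct_succ, mono_A_succ, mono_B_succ, t0_succ, t1_succ]
    simp only [blk_mul, blk_smul, blk_add, blk_sub, blk_neg]
    apply blk_congr
    · simp only [mul_add, add_mul, mul_sub, sub_mul, smul_mul_assoc, mul_smul_comm, smul_add,
        smul_sub, mul_zero, zero_mul, mul_neg, neg_mul, smul_neg, neg_add_rev, neg_neg, smul_zero,
        neg_zero, sub_zero, zero_sub, add_zero, zero_add]
      linear_combination (norm := module) (1 + x) • h6 + (1 : K) • h5 - (1 : K) • h4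
    · simp only [mul_add, add_mul, mul_sub, sub_mul, smul_mul_assoc, mul_smul_comm, smul_add,
        smul_sub, mul_zero, zero_mul, mul_neg, neg_mul, smul_neg, neg_add_rev, neg_neg, smul_zero,
        neg_zero, sub_zero, zero_sub, add_zero, zero_add]
      linear_combination (norm := module) -(1 : K) • h3
    · simp only [mul_add, add_mul, mul_sub, sub_mul, smul_mul_assoc, mul_smul_comm, smul_add,
        smul_sub, mul_zero, zero_mul, mul_neg, neg_mul, smul_neg, neg_add_rev, neg_neg, smul_zero,
        neg_zero, sub_zero, zero_sub, add_zero, zero_add]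
      linear_combination (norm := module) -x • h3 + (1 : K) • h2 + x • h1
    · simp only [mul_add, add_mul, mul_sub, sub_mul, smul_mul_assoc, mul_smul_comm, smul_add,
        smul_sub, mul_zero, zero_mul, mul_neg, neg_mul, smul_neg, neg_add_rev, neg_neg, smul_zero,
        neg_zero, sub_zero, zero_sub, add_zero, zero_add]
      linear_combination (norm := module) (-(x ^ 2 + x + 1)) • h7
  · rw [mono_A_succ, mono_B_succ, t1_succ]
    simp only [blk_mul, blk_smul, blk_add, blk_sub, blk_neg]
    apply blk_congr
    · simp only [mul_add, add_mul, mul_sub, sub_mul, smul_mul_assoc, mul_smul_comm, smul_add,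
        smul_sub, mul_zero, zero_mul, mul_neg, neg_mul, smul_neg, neg_add_rev, neg_neg, smul_zero,
        neg_zero, sub_zero, zero_sub, add_zero, zero_add]
      linear_combination (norm := module) (-(1 + 2 * x) * (x ^ 2 + x + 1)) • h8
    · simp only [mul_add, add_mul, mul_sub, sub_mul, smul_mul_assoc, mul_smul_comm, smul_add,
        smul_sub, mul_zero, zero_mul, mul_neg, neg_mul, smul_neg, neg_add_rev, neg_neg, smul_zero,
        neg_zero, sub_zero, zero_sub, add_zero, zero_add]
      linear_combination (norm := module) (1 + 2 * x) • h5 + x ^ 2 • h4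
    · simp only [mul_add, add_mul, mul_sub, sub_mul, smul_mul_assoc, mul_smul_comm, smul_add,
        smul_sub, mul_zero, zero_mul, mul_neg, neg_mul, smul_neg, neg_add_rev, neg_neg, smul_zero,
        neg_zero, sub_zero, zero_sub, add_zero, zero_add]
      linear_combination (norm := module) -(1 + 2 * x) • h6 - x ^ 2 • h4
    · simp only [mul_add, add_mul, mul_sub, sub_mul, smul_mul_assoc, mul_smul_comm, smul_add,
        smul_sub, mul_zero, zero_mul, mul_neg, neg_mul, smul_neg, neg_add_rev, neg_neg, smul_zero,
        neg_zero, sub_zero, zero_sub, add_zero, zero_add]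
      linear_combination (norm := module) (1 + 2 * x) • h2 + (1 + 2 * x) • h3 + (x ^ 2 - x - 1) • h1
  · rw [mono_Ct_succ, mono_A_succ, mono_B_succ, t0_succ, t1_succ]
    simp only [blk_mul, blk_smul, blk_add, blk_sub, blk_neg]
    apply blk_congr
    · simp only [mul_add, add_mul, mul_sub, sub_mul, smul_mul_assoc, mul_smul_comm, smul_add,
        smul_sub, mul_zero, zero_mul, mul_neg, neg_mul, smul_neg, neg_add_rev, neg_neg, smul_zero,
        neg_zero, sub_zero, zero_sub, add_zero, zero_add]
      linear_combination (norm := module) (-(x ^ 2 + x + 1)) • h8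
    · simp only [mul_add, add_mul, mul_sub, sub_mul, smul_mul_assoc, mul_smul_comm, smul_add,
        smul_sub, mul_zero, zero_mul, mul_neg, neg_mul, smul_neg, neg_add_rev, neg_neg, smul_zero,
        neg_zero, sub_zero, zero_sub, add_zero, zero_add]
      linear_combination (norm := module) (1 : K) • h5
    · simp only [mul_add, add_mul, mul_sub, sub_mul, smul_mul_assoc, mul_smul_comm, smul_add,
        smul_sub, mul_zero, zero_mul, mul_neg, neg_mul, smul_neg, neg_add_rev, neg_neg, smul_zero,
        neg_zero, sub_zero, zero_sub, add_zero, zero_add]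
      linear_combination (norm := module) x • h5 - (1 : K) • h6 - x • h4
    · simp only [mul_add, add_mul, mul_sub, sub_mul, smul_mul_assoc, mul_smul_comm, smul_add,
        smul_sub, mul_zero, zero_mul, mul_neg, neg_mul, smul_neg, neg_add_rev, neg_neg, smul_zero,
        neg_zero, sub_zero, zero_sub, add_zero, zero_add]
      linear_combination (norm := module) (1 : K) • h3 + (1 + x) • h2 - (1 : K) • h1
  · rw [mono_C_succ, mono_A_succ, mono_B_succ, t0_succ, t1_succ]
    simp only [blk_mul, blk_smul, blk_add, blk_sub, blk_neg]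
    apply blk_congr
    · simp only [mul_add, add_mul, mul_sub, sub_mul, smul_mul_assoc, mul_smul_comm, smul_add,
        smul_sub, mul_zero, zero_mul, mul_neg, neg_mul, smul_neg, neg_add_rev, neg_neg, smul_zero,
        neg_zero, sub_zero, zero_sub, add_zero, zero_add]
      linear_combination (norm := module) (-(x ^ 2 + x + 1)) • h8
    · simp only [mul_add, add_mul, mul_sub, sub_mul, smul_mul_assoc, mul_smul_comm, smul_add,
        smul_sub, mul_zero, zero_mul, mul_neg, neg_mul, smul_neg, neg_add_rev, neg_neg, smul_zero,
        neg_zero, sub_zero, zero_sub, add_zero, zero_add]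
      linear_combination (norm := module) -x • h6 + (1 : K) • h5 + x • h4
    · simp only [mul_add, add_mul, mul_sub, sub_mul, smul_mul_assoc, mul_smul_comm, smul_add,
        smul_sub, mul_zero, zero_mul, mul_neg, neg_mul, smul_neg, neg_add_rev, neg_neg, smul_zero,
        neg_zero, sub_zero, zero_sub, add_zero, zero_add]
      linear_combination (norm := module) -(1 : K) • h6
    · simp only [mul_add, add_mul, mul_sub, sub_mul, smul_mul_assoc, mul_smul_comm, smul_add,
        smul_sub, mul_zero, zero_mul, mul_neg, neg_mul, smul_neg, neg_add_rev, neg_neg, smul_zero,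
        neg_zero, sub_zero, zero_sub, add_zero, zero_add]
      linear_combination (norm := module) (1 + x) • h3 + (1 : K) • h2 - (1 : K) • h1

  · rw [mono_C_succ, mono_Ct_succ, t0_succ]
    simp only [blk_mul, blk_smul, blk_add, blk_sub, blk_neg]
    apply blk_congr
    · apply cancel
      simp only [mul_add, add_mul, mul_sub, sub_mul, smul_mul_assoc, mul_smul_comm, smul_add,
        smul_sub, mul_zero, zero_mul, mul_neg, neg_mul, smul_neg, neg_add_rev, neg_neg, smul_zero,
        neg_zero, sub_zero, zero_sub, add_zero, zero_add]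
      linear_combination (norm := module) x • h2 + x • h3 + x ^ 2 • h1
    · simp only [mul_add, add_mul, mul_sub, sub_mul, smul_mul_assoc, mul_smul_comm, smul_add,
        smul_sub, mul_zero, zero_mul, mul_neg, neg_mul, smul_neg, neg_add_rev, neg_neg, smul_zero,
        neg_zero, sub_zero, zero_sub, add_zero, zero_add]
      linear_combination (norm := module) -x • h7
    · simp only [mul_add, add_mul, mul_sub, sub_mul, smul_mul_assoc, mul_smul_comm, smul_add,
        smul_sub, mul_zero, zero_mul, mul_neg, neg_mul, smul_neg, neg_add_rev, neg_neg, smul_zero,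
        neg_zero, sub_zero, zero_sub, add_zero, zero_add]
      linear_combination (norm := module) x • h7
    · simp only [mul_add, add_mul, mul_sub, sub_mul, smul_mul_assoc, mul_smul_comm, smul_add,
        smul_sub, mul_zero, zero_mul, mul_neg, neg_mul, smul_neg, neg_add_rev, neg_neg, smul_zero,
        neg_zero, sub_zero, zero_sub, add_zero, zero_add]
  · rw [mono_C_succ, mono_Ct_succ, t1_succ]
    simp only [blk_mul, blk_smul, blk_add, blk_sub, blk_neg]
    apply blk_congr
    · simp only [mul_add, add_mul, mul_sub, sub_mul, smul_mul_assoc, mul_smul_comm, smul_add,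
        smul_sub, mul_zero, zero_mul, mul_neg, neg_mul, smul_neg, neg_add_rev, neg_neg, smul_zero,
        neg_zero, sub_zero, zero_sub, add_zero, zero_add]
    · simp only [mul_add, add_mul, mul_sub, sub_mul, smul_mul_assoc, mul_smul_comm, smul_add,
        smul_sub, mul_zero, zero_mul, mul_neg, neg_mul, smul_neg, neg_add_rev, neg_neg, smul_zero,
        neg_zero, sub_zero, zero_sub, add_zero, zero_add]
      linear_combination (norm := module) x • h8
    · simp only [mul_add, add_mul, mul_sub, sub_mul, smul_mul_assoc, mul_smul_comm, smul_add,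
        smul_sub, mul_zero, zero_mul, mul_neg, neg_mul, smul_neg, neg_add_rev, neg_neg, smul_zero,
        neg_zero, sub_zero, zero_sub, add_zero, zero_add]
      linear_combination (norm := module) -x • h8
    · apply cancel
      simp only [mul_add, add_mul, mul_sub, sub_mul, smul_mul_assoc, mul_smul_comm, smul_add,
        smul_sub, mul_zero, zero_mul, mul_neg, neg_mul, smul_neg, neg_add_rev, neg_neg, smul_zero,
        neg_zero, sub_zero, zero_sub, add_zero, zero_add]
      linear_combination (norm := module) x • h5 + x • h6 + x ^ 2 • h4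

theorem rel {x : K} (hc : x ^ 2 + x + 1 ≠ 0) : ∀ m, Rel x m
  | 0 => rel_zero x
  | (m + 1) => rel_succ hc (rel hc m)

/-- `t0` commutes with the double row matrix -/
theorem t0_comm {x : K} (hc : x ^ 2 + x + 1 ≠ 0) (m : ℕ) :
    Dp x m * t0 K m = t0 K m * Dp x m := by
  have h := (rel hc m).r1
  simpa only [Dp, add_mul, mul_add, smul_mul_assoc, mul_smul_comm] using h

end Pool.Agent.Rect.Herm
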