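import Mathlib

/-!
# The six vertex space of the strip and the row operator `t0`

`Cfg m` = configurations of `m` sites (`inl` = last site empty, `inr` = last site occupied).
`A x m`, `B x m`, `C x m`, `Ct x m` : blocks of the double row monodromy, weights `1, x, x^2+x+1`;
`Dp x m = (1+x) A + x B` the symmetric double row matrix; `t0 m`, `t1 m` : one row with the
weights `1, -1, 1` followed by the particle-hole flip, auxiliary state `1` at the left.
-/

namespace Pool.Agent.Rect.Herm

open Matrix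

/-- configurations of `m` sites -/
def Cfg : ℕ → Type
  | 0 => Unit
  | (m + 1) => Cfg m ⊕ Cfg m

instance instFintypeCfg : ∀ m, Fintype (Cfg m)
  | 0 => inferInstanceAs (Fintype Unit)
  | (m + 1) =>
    letI := instFintypeCfg m
    inferInstanceAs (Fintype (Cfg m ⊕ Cfg m))

instance instDecidableEqCfg : ∀ m, DecidableEq (Cfg m)
  | 0 => inferInstanceAs (DecidableEq Unit)
  | (m + 1) =>
    letI := instDecidableEqCfg m
    inferInstanceAs (DecidableEq (Cfg m ⊕ Cfg m))

/-- operators on the six vertex space of `m` sites -/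
abbrev Op (R : Type*) (m : ℕ) := Matrix (Cfg m) (Cfg m) R

/-- block operator: last site as block index -/
def blk {R : Type*} {m : ℕ} (P Q S T : Op R m) : Op R (m + 1) :=
  (Matrix.fromBlocks P Q S T : Matrix (Cfg m ⊕ Cfg m) (Cfg m ⊕ Cfg m) R)

section blk
variable {R : Type*} [CommRing R] {m : ℕ} (P Q S T P' Q' S' T' : Op R m)

lemma blk_mul : blk P Q S T * blk P' Q' S' T' =
    blk (P * P' + Q * S') (P * Q' + Q * T') (S * P' + T * S') (S * Q' + T * T') := by
  exact Matrix.fromBlocks_multiply P Q S T P' Q' S' T'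

lemma blk_add : blk P Q S T + blk P' Q' S' T' =
    blk (P + P') (Q + Q') (S + S') (T + T') := by
  exact Matrix.fromBlocks_add P Q S T P' Q' S' T'

lemma blk_smul (a : R) : a • blk P Q S T = blk (a • P) (a • Q) (a • S) (a • T) := by
  exact Matrix.fromBlocks_smul a P Q S T

lemma blk_neg : -blk P Q S T = blk (-P) (-Q) (-S) (-T) := by
  exact Matrix.fromBlocks_neg P Q S T

lemma blk_transpose : (blk P Q S T)ᵀ = blk Pᵀ Sᵀ Qᵀ Tᵀ := by
  exact Matrix.fromBlocks_transpose P Q S T

lemma blk_sub : blk P Q S T - blk P' Q' S' T' =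
    blk (P - P') (Q - Q') (S - S') (T - T') := by
  rw [sub_eq_add_neg, blk_neg, blk_add]; simp only [sub_eq_add_neg]

lemma blk_congr {P Q S T P' Q' S' T' : Op R m} (h1 : P = P') (h2 : Q = Q') (h3 : S = S')
    (h4 : T = T') : blk P Q S T = blk P' Q' S' T' := by
  rw [h1, h2, h3, h4]

end blk

variable {R : Type*} [CommRing R]

/-- the four blocks of the double row monodromy -/
structure Mono (R : Type*) (m : ℕ) where
  A : Op R m
  B : Op R m
  C : Op R m
  Ct : Op R m

/-- the double row monodromy at the point `x` -/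
def mono (x : R) : (m : ℕ) → Mono R m
  | 0 => ⟨1, (1 + x) • 1, 0, 0⟩
  | (m + 1) =>
    let M := mono x m
    let c := x ^ 2 + x + 1
    ⟨blk M.A (c • M.Ct) (c • M.C) (c • M.B + x ^ 2 • M.A),
      blk (c • M.A + x ^ 2 • M.B) (c • M.Ct) (c • M.C) M.B,
      blk (x • M.C) (x • (M.A + M.B)) 0 (x • M.C),
      blk (x • M.Ct) 0 (x • (M.A + M.B)) (x • M.Ct)⟩

/-- the symmetric double row matrix -/
def Dp (x : R) (m : ℕ) : Op R m := (1 + x) • (mono x m).A + x • (mono x m).B

/-- one row with weights `1, -1, 1`, then flip -/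
def tau (R : Type*) [CommRing R] : (m : ℕ) → Op R m × Op R m
  | 0 => (0, 1)
  | (m + 1) =>
    let t := tau R m
    (blk t.2 (-t.1) t.1 0, blk 0 t.2 (-t.2) t.1)

/-- the operator `T` with `T^2 = - D'(-1)` -/
def t0 (R : Type*) [CommRing R] (m : ℕ) : Op R m := (tau R m).1

def t1 (R : Type*) [CommRing R] (m : ℕ) : Op R m := (tau R m).2

lemma t0_succ (m : ℕ) : t0 R (m + 1) = blk (t1 R m) (-t0 R m) (t0 R m) 0 := rfl
lemma t1_succ (m : ℕ) : t1 R (m + 1) = blk 0 (t1 R m) (-t1 R m) (t0 R m) := rfl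
lemma t0_zero : t0 R 0 = 0 := rfl
lemma t1_zero : t1 R 0 = 1 := rfl

end Pool.Agent.Rect.Herm
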