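import Pool.Agent.Rect.Herm.Tau

/-!
# `t0` is symmetric (odd `m`), `t0 ^ 2 = - D'(-1)`, `t0 g = (-1)^p b`
-/

namespace Pool.Agent.Rect.Herm

open Matrix

set_option linter.unusedSimpArgs false

variable {R : Type*} [CommRing R]

lemma blk_zero {m : ℕ} : blk (0 : Op R m) 0 0 0 = 0 := by
  exact Matrix.fromBlocks_zero

lemma tau_transpose (m : ℕ) :
    (t0 R m)ᵀ = (-1 : R) ^ (m + 1) • t0 R m ∧ (t1 R m)ᵀ = (-1 : R) ^ m • t1 R m := by
  induction m with
  | zero => constructor <;> simp [t0_zero, t1_zero]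
  | succ m ih =>
    obtain ⟨h0, h1⟩ := ih
    constructor
    · rw [t0_succ, blk_transpose, blk_smul]
      apply blk_congr
      · rw [h1, pow_succ, pow_succ]; simp
      · rw [h0]; module
      · rw [transpose_neg, h0]; module
      · simp
    · rw [t1_succ, blk_transpose, blk_smul]
      apply blk_congr
      · simp
      · rw [transpose_neg, h1, pow_succ]; simp
      · rw [h1, pow_succ]; simp
      · rw [h0]

/-- `t0` is symmetric for an odd number of sites -/
lemma t0_symm {m : ℕ} (hm : Odd m) : (t0 R m)ᵀ = t0 R m := by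
  rw [(tau_transpose m).1, Even.neg_one_pow (by simpa using hm.add_one), one_smul]

lemma mono_neg_one (m : ℕ) :
    (mono (-1 : R) m).A = (t1 R m)ᵀ * t1 R m ∧ (mono (-1 : R) m).B = (t0 R m)ᵀ * t0 R m ∧
    (mono (-1 : R) m).C = -((t0 R m)ᵀ * t1 R m) ∧ (mono (-1 : R) m).Ct = -((t1 R m)ᵀ * t0 R m) := by
  induction m with
  | zero => refine ⟨?_, ?_, ?_, ?_⟩ <;> simp [mono, t0_zero, t1_zero]
  | succ m ih =>
    obtain ⟨hA, hB, hC, hT⟩ := ih
    have e1 : ((-1 : R) ^ 2 + -1 + 1) = 1 := by ring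
    have e2 : ((-1 : R) ^ 2) = 1 := by ring
    refine ⟨?_, ?_, ?_, ?_⟩
    · rw [t1_succ, blk_transpose, blk_mul]
      simp only [mono, e1, e2, one_smul]
      apply blk_congr <;> simp [hA, hB, hC, hT, add_comm]
    · rw [t0_succ, blk_transpose, blk_mul]
      simp only [mono, e1, e2, one_smul]
      apply blk_congr <;> simp [hA, hB, hC, hT, add_comm]
    · rw [t0_succ, t1_succ, blk_transpose, blk_mul, blk_neg]
      simp only [mono, e1, e2, one_smul]
      apply blk_congr <;> simp [hA, hB, hC, hT, add_comm]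
    · rw [t0_succ, t1_succ, blk_transpose, blk_mul, blk_neg]
      simp only [mono, e1, e2, one_smul]
      apply blk_congr <;> simp [hA, hB, hC, hT, add_comm]

/-- `D'(-1) = - t0^T t0` -/
lemma Dp_neg_one (m : ℕ) : Dp (-1 : R) m = -((t0 R m)ᵀ * t0 R m) := by
  rw [Dp, (mono_neg_one m).2.1]; simp

/-- `t0 ^ 2 = - D'(-1)` for an odd number of sites -/
lemma t0_sq {m : ℕ} (hm : Odd m) : t0 R m * t0 R m = -Dp (-1 : R) m := by
  rw [Dp_neg_one, t0_symm hm, neg_neg]

lemma mono_transpose (x : R) (m : ℕ) :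
    (mono x m).Aᵀ = (mono x m).A ∧ (mono x m).Bᵀ = (mono x m).B ∧
    (mono x m).Cᵀ = (mono x m).Ct ∧ (mono x m).Ctᵀ = (mono x m).C := by
  induction m with
  | zero => refine ⟨?_, ?_, ?_, ?_⟩ <;> simp [mono]
  | succ m ih =>
    obtain ⟨hA, hB, hC, hT⟩ := ih
    refine ⟨?_, ?_, ?_, ?_⟩
    · simp only [mono]; rw [blk_transpose]; apply blk_congr <;> simp [hA, hB, hC, hT]
    · simp only [mono]; rw [blk_transpose]; apply blk_congr <;> simp [hA, hB, hC, hT]
    · simp only [mono]; rw [blk_transpose]; apply blk_congr <;> simp [hA, hB, hC, hT]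
    · simp only [mono]; rw [blk_transpose]; apply blk_congr <;> simp [hA, hB, hC, hT]

/-- the double row matrix is symmetric -/
lemma Dp_symm (x : R) (m : ℕ) : (Dp x m)ᵀ = Dp x m := by
  rw [Dp, transpose_add, transpose_smul, transpose_smul, (mono_transpose x m).1,
    (mono_transpose x m).2.1]

/-! ### Vectors -/

/-- block vector: first component = last site empty -/
def vblk {m : ℕ} (u v : Cfg m → R) : Cfg (m + 1) → R := (Sum.elim u v : Cfg m ⊕ Cfg m → R)

lemma blk_mulVec {m : ℕ} (P Q S T : Op R m) (u v : Cfg m → R) :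
    (blk P Q S T).mulVec (vblk u v) = vblk (P.mulVec u + Q.mulVec v) (S.mulVec u + T.mulVec v) := by
  have h := Matrix.fromBlocks_mulVec P Q S T (Sum.elim u v)
  simp only [Sum.elim_comp_inl, Sum.elim_comp_inr] at h
  exact h

lemma vblk_add {m : ℕ} (u v u' v' : Cfg m → R) :
    vblk u v + vblk u' v' = vblk (u + u') (v + v') := by
  funext i; rcases i with i | i <;> rfl

lemma vblk_smul {m : ℕ} (a : R) (u v : Cfg m → R) : a • vblk u v = vblk (a • u) (a • v) := by
  funext i; rcases i with i | i <;> rfl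

lemma vblk_zero {m : ℕ} : vblk (0 : Cfg m → R) 0 = 0 := by
  funext i; rcases i with i | i <;> rfl

/-- `v ⊗ z`, `z = (10) + (01)` -/
def oz {m : ℕ} (v : Cfg m → R) : Cfg (m + 2) → R := vblk (vblk 0 v) (vblk v 0)

/-- `v ⊗ (00)` -/
def oo {m : ℕ} (v : Cfg m → R) : Cfg (m + 2) → R := vblk (vblk v 0) (vblk 0 0)

/-- `v ⊗ (10)` -/
def ou {m : ℕ} (v : Cfg m → R) : Cfg (m + 2) → R := vblk (vblk 0 v) (vblk 0 0)

/-- the vector `b` : particles at the sites `2, 4, ..., 2p` of `2p+1` sites -/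
def bvec (R : Type*) [CommRing R] : (p : ℕ) → Cfg (2 * p + 1) → R
  | 0 => vblk (fun _ => 1) 0
  | (p + 1) => ou (bvec R p)

/-- `K_p = (1) z z ... z` -/
def kvec (R : Type*) [CommRing R] : (p : ℕ) → Cfg (2 * p + 1) → R
  | 0 => vblk 0 (fun _ => 1)
  | (p + 1) => oz (kvec R p)

/-- the crossing vector `g` -/
def gvec (R : Type*) [CommRing R] : (p : ℕ) → Cfg (2 * p + 1) → R
  | 0 => vblk (fun _ => 1) 0
  | (p + 1) => oz (gvec R p) + oo (kvec R p)

end Pool.Agent.Rect.Herm
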