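import Pool.Agent.Rect.Herm.TauSq

/-!
# `t0 K = 0`, `t1 K = (-1)^p b`, `t0 g = (-1)^p b`
-/

namespace Pool.Agent.Rect.Herm

open Matrix

set_option linter.unusedSimpArgs false

variable {R : Type*} [CommRing R]

lemma t0_oz {m : ℕ} (v : Cfg m → R) :
    (t0 R (m + 2)).mulVec (oz v) = vblk 0 (vblk (-(t0 R m).mulVec v) 0) := by
  rw [t0_succ, oz, blk_mulVec, t1_succ, t0_succ, Matrix.neg_mulVec, blk_mulVec, blk_mulVec,
    blk_mulVec]
  simp only [Matrix.mulVec_zero, Matrix.neg_mulVec, Matrix.zero_mulVec, zero_add, add_zero,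
    neg_zero, vblk_zero]
  have h : vblk ((t1 R m).mulVec v) ((t0 R m).mulVec v) +
      -vblk ((t1 R m).mulVec v) ((t0 R m).mulVec v) = 0 := add_neg_cancel _
  rw [h]

lemma t1_oz {m : ℕ} (v : Cfg m → R) :
    (t1 R (m + 2)).mulVec (oz v) = vblk (vblk 0 (-(t1 R m).mulVec v)) 0 := by
  rw [t1_succ, oz, blk_mulVec, t1_succ, t0_succ, Matrix.neg_mulVec, blk_mulVec, blk_mulVec,
    blk_mulVec, Matrix.neg_mulVec]
  simp only [Matrix.mulVec_zero, Matrix.neg_mulVec, Matrix.zero_mulVec, zero_add, add_zero,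
    neg_zero, vblk_zero]
  have h : -vblk ((t1 R m).mulVec v) ((t0 R m).mulVec v) +
      vblk ((t1 R m).mulVec v) ((t0 R m).mulVec v) = 0 := neg_add_cancel _
  rw [h]

lemma t0_oo {m : ℕ} (v : Cfg m → R) :
    (t0 R (m + 2)).mulVec (oo v) =
      vblk (vblk 0 (-(t1 R m).mulVec v)) (vblk ((t1 R m).mulVec v) ((t0 R m).mulVec v)) := by
  rw [t0_succ, oo, vblk_zero, blk_mulVec, t1_succ, t0_succ, blk_mulVec, blk_mulVec]
  simp only [Matrix.mulVec_zero, Matrix.neg_mulVec, Matrix.zero_mulVec, zero_add, add_zero,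
    neg_zero, vblk_zero]

lemma smul_ou {m : ℕ} (a : R) (v : Cfg m → R) : a • ou v = ou (a • v) := by
  simp only [ou, vblk_smul, smul_zero]

lemma kvec_t (p : ℕ) : (t0 R (2 * p + 1)).mulVec (kvec R p) = 0 ∧
    (t1 R (2 * p + 1)).mulVec (kvec R p) = (-1 : R) ^ p • bvec R p := by
  induction p with
  | zero =>
    constructor
    · show (t0 R (0 + 1)).mulVec (vblk 0 (fun _ => 1)) = 0
      rw [t0_succ, blk_mulVec, t0_zero, t1_zero]
      simp [vblk_zero]
    · show (t1 R (0 + 1)).mulVec (vblk 0 (fun _ => 1)) = (-1 : R) ^ 0 • vblk (fun _ => 1) 0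
      rw [t1_succ, blk_mulVec, t0_zero, t1_zero]
      simp
  | succ p ih =>
    obtain ⟨h0, h1⟩ := ih
    constructor
    · show (t0 R (2 * p + 1 + 2)).mulVec (oz (kvec R p)) = 0
      rw [t0_oz, h0]; simp [vblk_zero]
    · show (t1 R (2 * p + 1 + 2)).mulVec (oz (kvec R p)) = (-1 : R) ^ (p + 1) • ou (bvec R p)
      rw [t1_oz, h1, smul_ou, ou, vblk_zero, pow_succ]
      simp [neg_smul]

/-- `t0 g = (-1)^p b` -/
theorem t0_gvec (p : ℕ) :
    (t0 R (2 * p + 1)).mulVec (gvec R p) = (-1 : R) ^ p • bvec R p := by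
  induction p with
  | zero =>
    show (t0 R (0 + 1)).mulVec (vblk (fun _ => 1) 0) = (-1 : R) ^ 0 • vblk (fun _ => 1) 0
    rw [t0_succ, blk_mulVec, t0_zero, t1_zero]
    simp
  | succ p ih =>
    show (t0 R (2 * p + 1 + 2)).mulVec (oz (gvec R p) + oo (kvec R p)) =
      (-1 : R) ^ (p + 1) • ou (bvec R p)
    rw [Matrix.mulVec_add, t0_oz, t0_oo, ih, (kvec_t p).1, (kvec_t p).2, vblk_add, vblk_add,
      smul_ou, ou, pow_succ]
    simp [neg_smul, vblk_zero]

end Pool.Agent.Rect.Herm
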