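import Pool.Agent.Rect.Herm.CBound
import Pool.Agent.Rect.Perc.Fkg
import Pool.Agent.Rect.Perc.Rsw
import Pool.Agent.Rect.Mod.Lattice

/-!
From the spectral data `HermData n` and the quantisation of the levels to the field `spec` of
`RectMod.Lattice`.
-/

set_option autoImplicit false

namespace H47Perc.RC
open Finset H47Perc Filter Polynomial

/-- the statement of the quantisation theorem (block SPEC): `N` strands -/
def Quant : Prop := ∀ K δ : ℝ, 0 < δ → ∀ᶠ N : ℕ in atTop, ∀ d : ℝ[X],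
  DR.Sol N (d.map (algebraMap ℝ ℂ)) →
  (∀ p : ℂ, p ^ 2 - p + 1 = 0 → (d.map (algebraMap ℝ ℂ)).eval p = -2) →
  Real.exp (-(K / N)) ≤ d.eval (1 / 2) →
  ∃ m : ℕ, |-(N * Real.log (d.eval (1 / 2))) - 2 * Real.pi * (1 / 3 + m)| < δ

/-- **(C) from the data** -/
theorem HermData.bound {n : ℕ} (D : HermData n) (hn : 1 ≤ n) {M : ℕ} (hM : 1 ≤ M) :
    ∑ k, |D.c k| * D.lam k ^ M ≤ 1 / P M n :=
  D.abs_le' P_pos hn hM fun _ h _ hI => fkg_I h hI

/-- the data without the states with eigenvalue zero -/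
theorem HermData.pos_data {n : ℕ} (D : HermData n) (hn : 1 ≤ n) :
    ∃ (K : Type) (_ : Fintype K) (c : K → ℝ) (q : K → ℝ[X]),
      (∀ k, 0 < (q k).eval (1 / 2) ∧ (q k).eval (1 / 2) ≤ 1) ∧
      (∀ M, 1 ≤ M → P n M = ∑ k, c k * (q k).eval (1 / 2) ^ M) ∧
      (∀ M, 1 ≤ M → ∑ k, |c k| * (q k).eval (1 / 2) ^ M ≤ 1 / P M n) ∧
      (∀ k, DR.Sol (2 * n) ((q k).map (algebraMap ℝ ℂ))) ∧
      (∀ k (p : ℂ), p ^ 2 - p + 1 = 0 → ((q k).map (algebraMap ℝ ℂ)).eval p = -2) := by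
  classical
  have key : ∀ (f : D.K → ℝ) (M : ℕ), 1 ≤ M → ∑ k : {k : D.K // 0 < D.lam k}, f k * D.lam k ^ M =
      ∑ k, f k * D.lam k ^ M := by
    intro f M hM
    have h1 : ∑ k : {k : D.K // 0 < D.lam k}, f k * D.lam k ^ M =
        ∑ k ∈ univ.filter (fun k : D.K => 0 < D.lam k), f k * D.lam k ^ M := by
      rw [← Finset.sum_subtype_eq_sum_filter]
      exact (Finset.sum_congr (by ext; simp) fun _ _ => rfl)
    rw [h1]
    apply Finset.sum_filter_of_ne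
    intro k _ hk
    rcases (D.lam_nn k).lt_or_eq with h | h
    · exact h
    · exfalso
      apply hk
      rw [← h, zero_pow (by omega), mul_zero]
  refine ⟨{k : D.K // 0 < D.lam k}, inferInstance, fun k => D.c k, fun k => D.d k, ?_, ?_, ?_, ?_, ?_⟩
  · intro k
    exact ⟨k.2, D.lam_le_one (fun M => P_pos n M hn) k⟩
  · intro M hM
    exact (D.P_eq M).trans (key D.c M hM).symm
  · intro M hM
    exact le_trans (le_of_eq (key (fun k => |D.c k|) M hM)) (D.bound hn hM)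
  · exact fun k => D.sol k
  · exact fun k => D.braid k

/-- **the field `spec` of `RectMod.Lattice`** -/
theorem spec_of (hD : ∀ n : ℕ, 1 ≤ n → Nonempty (HermData n)) (hQ : Quant) :
    ∃ (K : ℕ → Type) (_ : ∀ n, Fintype (K n)) (c d : ∀ n, K n → ℝ),
    (∀ n k, 1 ≤ n → 0 < d n k ∧ d n k ≤ 1) ∧
    (∀ n M, 1 ≤ n → 1 ≤ M → P n M = ∑ k, c n k * d n k ^ M) ∧
    (∀ n M, 1 ≤ n → 1 ≤ M → ∑ k, |c n k| * d n k ^ M ≤ 1 / P M n) ∧
    ∀ K₀ δ : ℝ, 0 < δ → ∀ᶠ n : ℕ in atTop, ∀ k, c n k ≠ 0 → -(n * Real.log (d n k)) ≤ K₀ →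
      ∃ m : ℕ, |-(n * Real.log (d n k)) - RectMod.lev m| < δ := by
  have key : ∀ n : ℕ, ∃ (K : Type) (_ : Fintype K) (c : K → ℝ) (q : K → ℝ[X]), 1 ≤ n →
      (∀ k, 0 < (q k).eval (1 / 2) ∧ (q k).eval (1 / 2) ≤ 1) ∧
      (∀ M, 1 ≤ M → P n M = ∑ k, c k * (q k).eval (1 / 2) ^ M) ∧
      (∀ M, 1 ≤ M → ∑ k, |c k| * (q k).eval (1 / 2) ^ M ≤ 1 / P M n) ∧
      (∀ k, DR.Sol (2 * n) ((q k).map (algebraMap ℝ ℂ))) ∧
      (∀ k (p : ℂ), p ^ 2 - p + 1 = 0 → ((q k).map (algebraMap ℝ ℂ)).eval p = -2) := by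
    intro n
    by_cases h : 1 ≤ n
    · obtain ⟨D⟩ := hD n h
      obtain ⟨K, hK, c, q, h1⟩ := D.pos_data h
      exact ⟨K, hK, c, q, fun _ => h1⟩
    · exact ⟨Empty, inferInstance, fun _ => 0, fun _ => 0, fun h' => absurd h' h⟩
  choose K hK c q h using key
  refine ⟨K, hK, c, fun n k => (q n k).eval (1 / 2), fun n k hn => (h n hn).1 k,
    fun n M hn hM => (h n hn).2.1 M hM, fun n M hn hM => (h n hn).2.2.1 M hM, ?_⟩
  intro K₀ δ hδ
  have h2 : Tendsto (fun n : ℕ => 2 * n) atTop atTop :=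
    tendsto_atTop_mono (fun n => (by show n ≤ 2 * n; omega)) tendsto_id
  filter_upwards [h2.eventually (hQ (2 * K₀) (2 * δ) (by linarith)), eventually_ge_atTop 1] with n h3 hn
  intro k _ hk
  obtain ⟨h4, -, -, h5, h6⟩ := h n hn
  have h7 : 0 < (q n k).eval (1 / 2) := (h4 k).1
  have hn0 : (0 : ℝ) < n := by exact_mod_cast hn
  obtain ⟨m, hm⟩ := h3 (q n k) (h5 k) (h6 k) (by
    rw [← Real.le_log_iff_exp_le h7]
    push_cast
    rw [mul_div_mul_left _ _ (two_ne_zero), ← neg_div, div_le_iff₀ hn0]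
    linarith)
  refine ⟨m, ?_⟩
  unfold RectMod.lev
  push_cast at hm
  rw [abs_lt] at hm ⊢
  constructor <;> linarith [hm.1, hm.2]

end H47Perc.RC
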