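import Pool.Agent.Rect.Herm.Height

/-!
# The vector `z`: its height coordinates (first part)

`tau k` (`2k + 2` strands) is given by a recursion with cups; `z k = (1 + e 1)(1 - e 0) (tau k)`.
For a `0/1` configuration `x` of the `2k + 1` bonds, `F_x (z k) = val x`, the value of a small
automaton.
-/

set_option autoImplicit false

namespace Pool.Agent.Rect.Herm

open Pool.Agent.Helper9.DR

variable {K : Type*} [Field K] {V : Type*} [AddCommGroup V] [Module K V]

/-- `0` or `1` -/
def bi (b : Bool) : ℤ := if b then 1 else 0

@[simp] theorem bi_true : bi true = 1 := rfl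
@[simp] theorem bi_false : bi false = 0 := rfl

/-- heights of the strands, the bonds given by a list of pairs -/
def hq : ℤ → List (Bool × Bool) → List ℤ
  | a, [] => [a]
  | a, (y, x) :: r => a :: (a + 2 * bi y - 1) :: hq (a + 2 * bi y + 2 * bi x - 2) r

theorem hq_length (a : ℤ) (r : List (Bool × Bool)) : (hq a r).length = 2 * r.length + 1 := by
  induction r generalizing a with
  | nil => rfl
  | cons p r ih =>
    obtain ⟨y, x⟩ := p
    simp only [hq, List.length_cons, ih]
    ring

/-- number of particles -/
def smp : List (Bool × Bool) → ℤ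
  | [] => 0
  | (y, x) :: r => bi y + bi x + smp r

/-- the automaton -/
def vv : ℤ → List (Bool × Bool) → ℤ
  | s, [] => if s = 0 then 1 else 0
  | s, (y, x) :: r =>
    if y then (if s = 1 ∨ s = -1 then vv (s + bi x) r else 0)
    else (if s = 0 ∨ s = 1 then vv (s - 1 + bi x) r else 0)

theorem vv_two {s : ℤ} (hs : 2 ≤ s) (r : List (Bool × Bool)) : vv s r = 0 := by
  cases r with
  | nil => simp only [vv]; rw [if_neg (by omega)]
  | cons p r =>
    obtain ⟨y, x⟩ := p
    cases y
    · simp only [vv, Bool.false_eq_true, if_false]; rw [if_neg (by omega)]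
    · simp only [vv, if_true]; rw [if_neg (by omega)]

theorem vv_sum {s : ℤ} {r : List (Bool × Bool)} (h : vv s r ≠ 0) : s + smp r = r.length := by
  induction r generalizing s with
  | nil =>
    by_cases hs : s = 0
    · simp [hs, smp]
    · simp [vv, hs] at h
  | cons p r ih =>
    obtain ⟨y, x⟩ := p
    cases y
    · by_cases hs : s = 0 ∨ s = 1
      · simp only [vv, Bool.false_eq_true, if_false, if_pos hs] at h
        have := ih h
        simp only [smp, bi_false, List.length_cons]
        push_cast
        linarith
      · simp only [vv, Bool.false_eq_true, if_false, if_neg hs] at h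
        exact absurd rfl h
    · by_cases hs : s = 1 ∨ s = -1
      · simp only [vv, if_true, if_pos hs] at h
        have := ih h
        simp only [smp, bi_true, List.length_cons]
        push_cast
        linarith
      · simp only [vv, if_true, if_neg hs] at h
        exact absurd rfl h

namespace HFam

variable {T : Tower K V} {l : ℕ} (H : HFam T l)

/-- the action of a generator on a particle -/
theorem F_e_one (p q : List ℤ) (a : ℤ) {v : V} (hv : v ∈ H.W (p.length + q.length + 2)) :
    H.F (p ++ a :: (a + 1) :: q) (T.e p.length v) = H.F (p ++ (a + 2) :: (a + 1) :: q) v +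
      H.F (p ++ a :: (a + 1) :: q) v + H.F (p ++ a :: (a - 1) :: q) v := by
  rw [H.F_e p q a (a + 1) a hv, show a + 1 - a = 1 by ring, kap_one]
  have h1 := H.rec' (p ++ [a]) q a (v := v) (by simpa [add_assoc, add_comm, add_left_comm] using hv)
  have h2 := H.rec' p ((a + 1) :: q) a (v := v)
    (by simpa [add_assoc, add_comm, add_left_comm] using hv)
  have h3 := H.rec2 p ((a + 1) :: q) a (v := v)
    (by simpa [add_assoc, add_comm, add_left_comm] using hv)
  simp only [List.append_assoc, List.cons_append, List.nil_append] at h1
  push_cast
  linear_combination -h1 - h2 - h3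

/-- a generator kills an empty bond -/
theorem F_e_zero (p q : List ℤ) (a b : ℤ) (hb : b = a - 1) {v : V}
    (hv : v ∈ H.W (p.length + q.length + 2)) : H.F (p ++ a :: b :: q) (T.e p.length v) = 0 := by
  rw [H.F_e p q a b 0 hv, hb, show a - 1 - a = -1 by ring, kap_neg_one]
  simp

end HFam

end Pool.Agent.Rect.Herm
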