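import Pool.Agent.Rect.Herm.Z2a

/-!
# The vectors `tau k` and their height coordinates
-/

set_option autoImplicit false

namespace Pool.Agent.Rect.Herm

open Pool.Agent.Helper9.DR

variable {K : Type*} [Field K] {V : Type*} [AddCommGroup V] [Module K V]

/-- the vectors `tau k` with `2k + 2` strands -/
def tau2 (T : Tower K V) (Om : V) : ℕ → V
  | 0 => Om
  | 1 => T.c 2 Om - T.c 1 Om
  | (k + 2) => T.c 2 (tau2 T Om (k + 1)) + T.c 3 (tau2 T Om (k + 1)) - T.c 1 (tau2 T Om (k + 1)) -
      T.c 1 (T.e 1 (tau2 T Om (k + 1)))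

/-- the list of heights with bond numbers `n0, n1, n2` and then the pairs `r` -/
def hl (a n0 n1 n2 : ℤ) (r : List (Bool × Bool)) : List ℤ :=
  a :: (a + 2 * n0 - 1) :: (a + 2 * n0 + 2 * n1 - 2) :: hq (a + 2 * n0 + 2 * n1 + 2 * n2 - 3) r

/-- the closed formula -/
def tc (n0 n1 n2 : ℤ) (r : List (Bool × Bool)) : ℤ :=
  if n0 = 0 then (if n1 = 0 then vv (n2 - 1) r else if n1 = 1 then -vv n2 r else 0) else 0

namespace HFam

variable {T : Tower K V} (H : HFam T 2) {Om : V}

theorem tau_mem (hOm : Om ∈ H.W 2) : ∀ k : ℕ, tau2 T Om k ∈ H.W (2 * k + 2)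
  | 0 => hOm
  | 1 => sub_mem (H.c_mem hOm (by omega)) (H.c_mem hOm (by omega))
  | (k + 2) => by
    have ih := tau_mem hOm (k + 1)
    have h1 : ∀ i, i ≤ 2 * (k + 1) + 2 → T.c i (tau2 T Om (k + 1)) ∈ H.W (2 * (k + 2) + 2) :=
      fun i hi => H.c_mem ih hi
    have h2 : T.c 1 (T.e 1 (tau2 T Om (k + 1))) ∈ H.W (2 * (k + 2) + 2) :=
      H.c_mem (H.e_mem ih (by omega)) (by omega)
    exact sub_mem (sub_mem (add_mem (h1 2 (by omega)) (h1 3 (by omega))) (h1 1 (by omega))) h2

/-- one step of the recursion -/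
theorem tau_step (hOm : Om ∈ H.W 2) (k : ℕ) (a n0 n1 n2 : ℤ) (y x : Bool) (r : List (Bool × Bool))
    (hr : r.length = k) :
    H.F (hl a n0 n1 n2 ((y, x) :: r)) (tau2 T Om (k + 2)) =
      (kap (2 * n2 - 1) : K) * H.F (hl a n0 (n1 + n2 + bi y - 1) (bi x) r) (tau2 T Om (k + 1)) +
      (kap (2 * bi y - 1) : K) * H.F (hl a n0 n1 (n2 + bi y + bi x - 1) r) (tau2 T Om (k + 1)) -
      (kap (2 * n1 - 1) : K) * (H.F (hl a (n0 + n1 + n2 - 1) (bi y) (bi x) r) (tau2 T Om (k + 1)) +
        (if y then H.F (hl a (n0 + n1 + n2) 0 (bi x) r) (tau2 T Om (k + 1)) +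
          H.F (hl a (n0 + n1 + n2 - 1) 1 (bi x) r) (tau2 T Om (k + 1)) +
          H.F (hl a (n0 + n1 + n2 - 1) 0 (bi x + 1) r) (tau2 T Om (k + 1)) else 0)) := by
  set t := tau2 T Om (k + 1) with ht
  have hm : t ∈ H.W (2 * k + 4) := H.tau_mem hOm (k + 1)
  have hlen : ∀ b, (hq b r).length = 2 * k + 1 := fun b => by rw [hq_length, hr]
  have e0 : tau2 T Om (k + 2) = T.c 2 t + T.c 3 t - T.c 1 t - T.c 1 (T.e 1 t) := rfl
  rw [e0]
  simp only [map_sub, map_add]
  set h1 := a + 2 * n0 - 1 with hh1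
  set h2 := a + 2 * n0 + 2 * n1 - 2 with hh2
  set h3 := a + 2 * n0 + 2 * n1 + 2 * n2 - 3 with hh3
  set h4 := h3 + 2 * bi y - 1 with hh4
  set h5 := h3 + 2 * bi y + 2 * bi x - 2 with hh5
  have eL : hl a n0 n1 n2 ((y, x) :: r) = a :: h1 :: h2 :: h3 :: h4 :: hq h5 r := rfl
  rw [eL]
  -- c 2
  have c2 : H.F (a :: h1 :: h2 :: h3 :: h4 :: hq h5 r) (T.c 2 t) =
      (kap (2 * n2 - 1) : K) * H.F (hl a n0 (n1 + n2 + bi y - 1) (bi x) r) t := by
    have := H.cup [a, h1] (h4 :: hq h5 r) h2 h3 (v := t)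
      (by simp only [List.length_cons, List.length_nil, hlen]; convert hm using 2; ring)
    simp only [List.cons_append, List.nil_append, List.length_cons, List.length_nil] at this
    rw [this]
    have e1 : h3 - h2 = 2 * n2 - 1 := by rw [hh3, hh2]; ring
    have e2 : hl a n0 (n1 + n2 + bi y - 1) (bi x) r = a :: h1 :: h4 :: hq h5 r := by
      unfold hl
      congr 3
      · rw [hh4, hh3]; ring
      · congr 1
        rw [hh5, hh3]; ring
    rw [e1, e2]
  have c3 : H.F (a :: h1 :: h2 :: h3 :: h4 :: hq h5 r) (T.c 3 t) =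
      (kap (2 * bi y - 1) : K) * H.F (hl a n0 n1 (n2 + bi y + bi x - 1) r) t := by
    have := H.cup [a, h1, h2] (hq h5 r) h3 h4 (v := t)
      (by simp only [List.length_cons, List.length_nil, hlen]; convert hm using 2; ring)
    simp only [List.cons_append, List.nil_append, List.length_cons, List.length_nil] at this
    rw [this]
    have e1 : h4 - h3 = 2 * bi y - 1 := by rw [hh4]; ring
    have e2 : hl a n0 n1 (n2 + bi y + bi x - 1) r = a :: h1 :: h2 :: hq h5 r := by
      unfold hl
      congr 4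
      rw [hh5, hh3]; ring
    rw [e1, e2]
  have c1 : ∀ s, s ∈ H.W (2 * k + 4) → H.F (a :: h1 :: h2 :: h3 :: h4 :: hq h5 r) (T.c 1 s) =
      (kap (2 * n1 - 1) : K) * H.F (a :: h3 :: h4 :: hq h5 r) s := by
    intro s hs
    have := H.cup [a] (h3 :: h4 :: hq h5 r) h1 h2 (v := s)
      (by simp only [List.length_cons, List.length_nil, hlen]; convert hs using 2; ring)
    simp only [List.cons_append, List.nil_append, List.length_cons, List.length_nil] at this
    rw [this]
    have e1 : h2 - h1 = 2 * n1 - 1 := by rw [hh2, hh1]; ring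
    rw [e1]
  have e3 : hl a (n0 + n1 + n2 - 1) (bi y) (bi x) r = a :: h3 :: h4 :: hq h5 r := by
    unfold hl
    congr 2
    · rw [hh3]; ring
    · congr 1
      · rw [hh4, hh3]; ring
      · congr 1
        rw [hh5, hh3]; ring
  have ce : H.F (a :: h3 :: h4 :: hq h5 r) (T.e 1 t) =
      if y then H.F (hl a (n0 + n1 + n2) 0 (bi x) r) t +
          H.F (hl a (n0 + n1 + n2 - 1) 1 (bi x) r) t +
          H.F (hl a (n0 + n1 + n2 - 1) 0 (bi x + 1) r) t else 0 := by
    cases y
    · have := H.F_e_zero [a] (hq h5 r) h3 h4 (by rw [hh4, bi_false]; ring) (v := t)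
        (by simp only [List.length_cons, List.length_nil, hlen]; convert hm using 2; ring)
      simp only [List.cons_append, List.nil_append, List.length_cons, List.length_nil] at this
      rw [this]; rfl
    · have hh4' : h4 = h3 + 1 := by rw [hh4, bi_true]; ring
      have hh5' : h5 = h3 + 2 * bi x := by rw [hh5, bi_true]; ring
      have := H.F_e_one [a] (hq h5 r) h3 (v := t)
        (by simp only [List.length_cons, List.length_nil, hlen]; convert hm using 2; ring)
      simp only [List.cons_append, List.nil_append, List.length_cons, List.length_nil] at this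
      rw [hh4', this, if_pos rfl]
      have f1 : hl a (n0 + n1 + n2) 0 (bi x) r = a :: (h3 + 2) :: (h3 + 1) :: hq h5 r := by
        unfold hl
        congr 2
        · rw [hh3]; ring
        · congr 1
          · rw [hh3]; ring
          · congr 1
            rw [hh5', hh3]; ring
      have f2 : hl a (n0 + n1 + n2 - 1) 1 (bi x) r = a :: h3 :: (h3 + 1) :: hq h5 r := by
        unfold hl
        congr 2
        · rw [hh3]; ring
        · congr 1
          · rw [hh3]; ring
          · congr 1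
            rw [hh5', hh3]; ring
      have f3 : hl a (n0 + n1 + n2 - 1) 0 (bi x + 1) r = a :: h3 :: (h3 - 1) :: hq h5 r := by
        unfold hl
        congr 2
        · rw [hh3]; ring
        · congr 1
          · rw [hh3]; ring
          · congr 1
            rw [hh5', hh3]; ring
      rw [f1, f2, f3]
  rw [c2, c3, c1 t hm, c1 (T.e 1 t) (H.e_mem hm (by omega)), ce, e3]
  ring

end HFam

end Pool.Agent.Rect.Herm
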