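import Pool.Agent.Rect.Herm.Z2b

/-!
# Closed formula for the height coordinates of `tau k` and of `z k`
-/

set_option autoImplicit false

namespace Pool.Agent.Rect.Herm

open Pool.Agent.Helper9.DR

variable {K : Type*} [Field K] {V : Type*} [AddCommGroup V] [Module K V]

theorem smp_nonneg (r : List (Bool × Bool)) : 0 ≤ smp r := by
  induction r with
  | nil => exact le_rfl
  | cons p r ih =>
    obtain ⟨y, x⟩ := p
    simp only [smp]
    cases y <;> cases x <;> simp <;> omega

theorem bi_nonneg (b : Bool) : 0 ≤ bi b := by cases b <;> simp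

theorem bi_le (b : Bool) : bi b ≤ 1 := by cases b <;> simp

theorem tc_zero {n0 n1 n2 : ℤ} {r : List (Bool × Bool)} (h : n0 ≠ 0 ∨ (n1 ≠ 0 ∧ n1 ≠ 1)) :
    tc n0 n1 n2 r = 0 := by
  unfold tc
  rcases h with h | ⟨h, h'⟩
  · rw [if_neg h]
  · rw [if_neg h, if_neg h']
    split_ifs <;> rfl

@[simp] theorem tc00 (n2 : ℤ) (r : List (Bool × Bool)) : tc 0 0 n2 r = vv (n2 - 1) r := by
  simp [tc]

@[simp] theorem tc01 (n2 : ℤ) (r : List (Bool × Bool)) : tc 0 1 n2 r = -vv n2 r := by
  simp [tc]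

/-- the closed formula satisfies the recursion -/
theorem tc_step (n0 n1 n2 : ℤ) (h0 : 0 ≤ n0) (h1 : 0 ≤ n1) (h2 : 0 ≤ n2) (y x : Bool)
    (r : List (Bool × Bool)) :
    tc n0 n1 n2 ((y, x) :: r) = kap (2 * n2 - 1) * tc n0 (n1 + n2 + bi y - 1) (bi x) r +
      kap (2 * bi y - 1) * tc n0 n1 (n2 + bi y + bi x - 1) r -
      kap (2 * n1 - 1) * (tc (n0 + n1 + n2 - 1) (bi y) (bi x) r +
        (if y then tc (n0 + n1 + n2) 0 (bi x) r + tc (n0 + n1 + n2 - 1) 1 (bi x) r +
          tc (n0 + n1 + n2 - 1) 0 (bi x + 1) r else 0)) := by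
  have hy := bi_nonneg y
  have hx := bi_nonneg x
  by_cases hn0 : n0 = 0
  swap
  · have a1 : ∀ n1' n2', tc n0 n1' n2' r = 0 := fun _ _ => tc_zero (Or.inl hn0)
    rw [tc_zero (Or.inl hn0), a1, a1]
    by_cases hn1 : n1 = 0
    · subst hn1; simp
    · have a2 : ∀ n1' n2', tc (n0 + n1 + n2 - 1) n1' n2' r = 0 :=
        fun _ _ => tc_zero (Or.inl (by omega))
      have a3 : ∀ n1' n2', tc (n0 + n1 + n2) n1' n2' r = 0 :=
        fun _ _ => tc_zero (Or.inl (by omega))
      simp only [a2, a3]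
      cases y <;> simp
  · subst hn0
    rcases (by omega : n1 = 0 ∨ n1 = 1 ∨ 2 ≤ n1) with rfl | rfl | hn1
    · rcases (by omega : n2 = 0 ∨ n2 = 1 ∨ n2 = 2 ∨ 3 ≤ n2) with rfl | rfl | rfl | hn2
      · cases y
        · simp [vv]
        · simp [vv]; ring_nf
      · cases y
        · simp [vv]; ring_nf
        · simp [vv]
          rw [show 2 + bi x - 1 - 1 = bi x by ring]; ring
      · cases y
        · simp [vv]
        · simp [vv, tc_zero]; ring_nf
      · have a1 : tc 0 (0 + n2 + bi y - 1) (bi x) r = 0 := tc_zero (Or.inr ⟨by omega, by omega⟩)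
        rw [a1]
        simp only [tc00]
        rw [vv_two (by omega : (2 : ℤ) ≤ n2 - 1)]
        cases y
        · simp
        · rw [vv_two (by simp; omega)]; simp
    · rcases (by omega : n2 = 0 ∨ n2 = 1 ∨ 2 ≤ n2) with rfl | rfl | hn2
      · cases y
        · simp [vv]; ring_nf
        · simp [vv, tc_zero]
      · cases y
        · simp [vv, tc_zero]
        · simp [vv, tc_zero]; ring_nf
      · have a1 : tc 0 (1 + n2 + bi y - 1) (bi x) r = 0 := tc_zero (Or.inr ⟨by omega, by omega⟩)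
        have a2 : ∀ n1' n2', tc (0 + 1 + n2 - 1) n1' n2' r = 0 :=
          fun _ _ => tc_zero (Or.inl (by omega))
        have a3 : ∀ n1' n2', tc (0 + 1 + n2) n1' n2' r = 0 :=
          fun _ _ => tc_zero (Or.inl (by omega))
        rw [a1]
        simp only [a2, a3, tc01]
        rw [vv_two (by omega : (2 : ℤ) ≤ n2)]
        cases y
        · simp
        · rw [vv_two (by simp; omega)]; simp
    · have a0 : ∀ n2' (r' : List (Bool × Bool)), tc 0 n1 n2' r' = 0 :=
        fun _ _ => tc_zero (Or.inr ⟨by omega, by omega⟩)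
      have a2 : ∀ n1' n2', tc (0 + n1 + n2 - 1) n1' n2' r = 0 :=
        fun _ _ => tc_zero (Or.inl (by omega))
      have a3 : ∀ n1' n2', tc (0 + n1 + n2) n1' n2' r = 0 :=
        fun _ _ => tc_zero (Or.inl (by omega))
      rw [a0, a0]
      simp only [a2, a3]
      by_cases hn2 : n2 = 0
      · subst hn2; cases y <;> simp
      · have a1 : tc 0 (n1 + n2 + bi y - 1) (bi x) r = 0 := tc_zero (Or.inr ⟨by omega, by omega⟩)
        rw [a1]
        cases y <;> simp

namespace HFam

variable {T : Tower K V} (H : HFam T 2) {Om : V}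

theorem kap_eq_zero_of {n : ℤ} (h : n = 0) : (kap (2 * n - 1) : K) = 0 := by
  rw [h]; simp

/-- too few particles -/
theorem tau_van (hOm : Om ∈ H.W 2) : ∀ (k : ℕ) (a n0 n1 n2 : ℤ) (r : List (Bool × Bool)),
    0 ≤ n0 → 0 ≤ n1 → 0 ≤ n2 → r.length = k → n0 + n1 + n2 + smp r < k + 1 →
    H.F (hl a n0 n1 n2 r) (tau2 T Om (k + 1)) = 0 := by
  intro k
  induction k with
  | zero =>
    intro a n0 n1 n2 r h0 h1 h2 hr hs
    obtain rfl : r = [] := List.length_eq_zero_iff.1 hr
    simp only [smp] at hs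
    obtain rfl : n0 = 0 := by push_cast at hs; omega
    obtain rfl : n1 = 0 := by push_cast at hs; omega
    obtain rfl : n2 = 0 := by push_cast at hs; omega
    have e1 := H.cup [a, a - 1] [] (a - 2) (a - 3) (v := Om) hOm
    have e2 := H.cup [a] [a - 3] (a - 1) (a - 2) (v := Om) hOm
    simp only [List.cons_append, List.nil_append, List.length_cons, List.length_nil] at e1 e2
    rw [show a - 3 - (a - 2) = -1 by ring, kap_neg_one] at e1
    rw [show a - 2 - (a - 1) = -1 by ring, kap_neg_one] at e2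
    have e3 : hl a 0 0 0 [] = [a, a - 1, a - 2, a - 3] := by
      unfold hl hq
      simp
    have e4 : tau2 T Om (0 + 1) = T.c 2 Om - T.c 1 Om := rfl
    rw [e3, e4, map_sub, e1, e2]
    simp
  | succ k ih =>
    intro a n0 n1 n2 r h0 h1 h2 hr hs
    match r, hr, hs with
    | (y, x) :: r, hr, hs =>
      have hr' : r.length = k := by simpa using hr
      simp only [smp] at hs
      push_cast at hs
      have hy := bi_nonneg y
      have hx := bi_nonneg x
      have hy1 := bi_le y
      rw [H.tau_step hOm k a n0 n1 n2 y x r hr']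
      have t1 : (kap (2 * n2 - 1) : K) *
          H.F (hl a n0 (n1 + n2 + bi y - 1) (bi x) r) (tau2 T Om (k + 1)) = 0 := by
        by_cases h : n2 = 0
        · rw [kap_eq_zero_of h, zero_mul]
        · rw [ih a n0 _ _ r h0 (by omega) hx hr' (by omega), mul_zero]
      have t2 : (kap (2 * bi y - 1) : K) *
          H.F (hl a n0 n1 (n2 + bi y + bi x - 1) r) (tau2 T Om (k + 1)) = 0 := by
        by_cases h : bi y = 0
        · rw [kap_eq_zero_of h, zero_mul]
        · rw [ih a n0 _ _ r h0 h1 (by omega) hr' (by omega), mul_zero]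
      rw [t1, t2]
      by_cases h : n1 = 0
      · rw [kap_eq_zero_of h]; ring
      · rw [ih a _ _ _ r (by omega) hy hx hr' (by omega)]
        cases y
        · simp
        · simp only [bi_true] at hs
          rw [if_pos rfl, ih a _ 0 (bi x) r (by omega) le_rfl hx hr' (by omega),
            ih a _ 1 (bi x) r (by omega) (by omega) hx hr' (by omega),
            ih a _ 0 (bi x + 1) r (by omega) le_rfl (by omega) hr' (by omega)]
          ring

/-- **the height coordinates of `tau`** -/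
theorem tau_val (hOm : Om ∈ H.W 2) (hF : ∀ a b, H.F [a, b] Om = (kap (a + b + 1) : K)) :
    ∀ (k : ℕ) (n0 n1 n2 : ℤ) (r : List (Bool × Bool)),
    0 ≤ n0 → 0 ≤ n1 → 0 ≤ n2 → r.length = k → n0 + n1 + n2 + smp r = k + 1 →
    H.F (hl 0 n0 n1 n2 r) (tau2 T Om (k + 1)) = (tc n0 n1 n2 r : K) := by
  intro k
  induction k with
  | zero =>
    intro n0 n1 n2 r h0 h1 h2 hr hs
    obtain rfl : r = [] := List.length_eq_zero_iff.1 hr
    simp only [smp] at hs
    push_cast at hs
    have e1 := H.cup [0, 0 + 2 * n0 - 1] [] (0 + 2 * n0 + 2 * n1 - 2)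
      (0 + 2 * n0 + 2 * n1 + 2 * n2 - 3) (v := Om) hOm
    have e2 := H.cup [0] [0 + 2 * n0 + 2 * n1 + 2 * n2 - 3] (0 + 2 * n0 - 1)
      (0 + 2 * n0 + 2 * n1 - 2) (v := Om) hOm
    simp only [List.cons_append, List.nil_append, List.length_cons, List.length_nil, hF] at e1 e2
    have e3 : hl 0 n0 n1 n2 [] = [0, 0 + 2 * n0 - 1, 0 + 2 * n0 + 2 * n1 - 2,
      0 + 2 * n0 + 2 * n1 + 2 * n2 - 3] := rfl
    have e4 : tau2 T Om (0 + 1) = T.c 2 Om - T.c 1 Om := rfl
    rw [e3, e4, map_sub, e1, e2]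
    rcases (by omega : (n0 = 1 ∧ n1 = 0 ∧ n2 = 0) ∨ (n0 = 0 ∧ n1 = 1 ∧ n2 = 0) ∨
      (n0 = 0 ∧ n1 = 0 ∧ n2 = 1)) with ⟨rfl, rfl, rfl⟩ | ⟨rfl, rfl, rfl⟩ | ⟨rfl, rfl, rfl⟩
    · norm_num [tc]
    · norm_num [tc, vv]
    · norm_num [tc, vv]
  | succ k ih =>
    intro n0 n1 n2 r h0 h1 h2 hr hs
    match r, hr, hs with
    | (y, x) :: r, hr, hs =>
      have hr' : r.length = k := by simpa using hr
      simp only [smp] at hs
      push_cast at hs
      have hy := bi_nonneg y
      have hx := bi_nonneg x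
      have hy1 := bi_le y
      rw [H.tau_step hOm k 0 n0 n1 n2 y x r hr', tc_step n0 n1 n2 h0 h1 h2 y x r]
      push_cast
      have t1 : (kap (2 * n2 - 1) : K) *
          H.F (hl 0 n0 (n1 + n2 + bi y - 1) (bi x) r) (tau2 T Om (k + 1)) =
          (kap (2 * n2 - 1) : K) * (tc n0 (n1 + n2 + bi y - 1) (bi x) r : K) := by
        by_cases h : n2 = 0
        · rw [kap_eq_zero_of h, zero_mul, zero_mul]
        · rw [ih n0 _ _ r h0 (by omega) hx hr' (by omega)]
      have t2 : (kap (2 * bi y - 1) : K) *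
          H.F (hl 0 n0 n1 (n2 + bi y + bi x - 1) r) (tau2 T Om (k + 1)) =
          (kap (2 * bi y - 1) : K) * (tc n0 n1 (n2 + bi y + bi x - 1) r : K) := by
        by_cases h : bi y = 0
        · rw [kap_eq_zero_of h, zero_mul, zero_mul]
        · rw [ih n0 _ _ r h0 h1 (by omega) hr' (by omega)]
      rw [t1, t2]
      congr 1
      by_cases h : n1 = 0
      · rw [kap_eq_zero_of h]; ring
      · rw [ih _ _ _ r (by omega) hy hx hr' (by omega)]
        cases y
        · simp
        · simp only [bi_true] at hs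
          rw [if_pos rfl, if_pos rfl, ih _ 0 (bi x) r (by omega) le_rfl hx hr' (by omega),
            ih _ 1 (bi x) r (by omega) (by omega) hx hr' (by omega),
            ih _ 0 (bi x + 1) r (by omega) le_rfl (by omega) hr' (by omega)]

end HFam

end Pool.Agent.Rect.Herm
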