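import Pool.Agent.Rect.Herm.Z2c

/-!
# The vector `z k` and its height coordinates
-/

set_option autoImplicit false

namespace Pool.Agent.Rect.Herm

open Pool.Agent.Helper9.DR

variable {K : Type*} [Field K] {V : Type*} [AddCommGroup V] [Module K V]

/-- `(1 - e 0) (tau k)` -/
def uu2 (T : Tower K V) (Om : V) (k : ℕ) : V := tau2 T Om (k + 1) - T.e 0 (tau2 T Om (k + 1))

/-- the vector `z k` with `2k + 2` strands -/
def zz2 (T : Tower K V) (Om : V) : ℕ → V
  | 0 => Om
  | (k + 1) => uu2 T Om k + T.e 1 (uu2 T Om k)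

namespace HFam

variable {T : Tower K V} (H : HFam T 2) {Om : V}

theorem uu_mem (hOm : Om ∈ H.W 2) (k : ℕ) : uu2 T Om k ∈ H.W (2 * k + 4) :=
  sub_mem (H.tau_mem hOm (k + 1)) (H.e_mem (H.tau_mem hOm (k + 1)) (by omega))

theorem zz_mem (hOm : Om ∈ H.W 2) : ∀ k : ℕ, zz2 T Om k ∈ H.W (2 * k + 2)
  | 0 => hOm
  | (k + 1) => add_mem (H.uu_mem hOm k) (H.e_mem (H.uu_mem hOm k) (by omega))

/-- first bond empty -/
theorem uu_zero (hOm : Om ∈ H.W 2) (hF : ∀ a b, H.F [a, b] Om = (kap (a + b + 1) : K)) (k : ℕ)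
    (n1 n2 : ℤ) (r : List (Bool × Bool)) (h1 : 0 ≤ n1) (h2 : 0 ≤ n2) (hr : r.length = k)
    (hs : n1 + n2 + smp r = k + 1) : H.F (hl 0 0 n1 n2 r) (uu2 T Om k) = (tc 0 n1 n2 r : K) := by
  have hm := H.tau_mem hOm (k + 1)
  have hlen : ∀ b, (hq b r).length = 2 * k + 1 := fun b => by rw [hq_length, hr]
  have e1 := H.F_e_zero [] ((0 + 2 * 0 + 2 * n1 - 2) :: hq (0 + 2 * 0 + 2 * n1 + 2 * n2 - 3) r) 0
    (0 + 2 * 0 - 1) (by ring) (v := tau2 T Om (k + 1))
    (by simp only [List.length_cons, List.length_nil, hlen]; convert hm using 2; ring)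
  simp only [List.nil_append, List.length_nil] at e1
  rw [uu2, map_sub, H.tau_val hOm hF k 0 n1 n2 r le_rfl h1 h2 hr (by omega)]
  have e2 : H.F (hl 0 0 n1 n2 r) (T.e 0 (tau2 T Om (k + 1))) = 0 := e1
  rw [e2, sub_zero]

/-- first bond occupied -/
theorem uu_one (hOm : Om ∈ H.W 2) (hF : ∀ a b, H.F [a, b] Om = (kap (a + b + 1) : K)) (k : ℕ)
    (n1 n2 : ℤ) (r : List (Bool × Bool)) (h1 : 0 ≤ n1) (h2 : 0 ≤ n2) (hr : r.length = k)
    (hs : n1 + n2 + smp r = k) :
    H.F (hl 0 1 n1 n2 r) (uu2 T Om k) = -(tc 0 (n1 + 1) n2 r : K) := by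
  have hm := H.tau_mem hOm (k + 1)
  have hlen : ∀ b, (hq b r).length = 2 * k + 1 := fun b => by rw [hq_length, hr]
  have e1 := H.F_e_one [] ((0 + 2 * 1 + 2 * n1 - 2) :: hq (0 + 2 * 1 + 2 * n1 + 2 * n2 - 3) r) 0
    (v := tau2 T Om (k + 1))
    (by simp only [List.length_cons, List.length_nil, hlen]; convert hm using 2; ring)
  simp only [List.nil_append, List.length_nil] at e1
  have f1 : hl 2 0 n1 n2 r = (0 + 2) :: (0 + 1) :: (0 + 2 * 1 + 2 * n1 - 2) ::
      hq (0 + 2 * 1 + 2 * n1 + 2 * n2 - 3) r := by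
    unfold hl
    congr 4
  have f2 : hl 0 1 n1 n2 r = 0 :: (0 + 1) :: (0 + 2 * 1 + 2 * n1 - 2) ::
      hq (0 + 2 * 1 + 2 * n1 + 2 * n2 - 3) r := rfl
  have f3 : hl 0 0 (n1 + 1) n2 r = 0 :: (0 - 1) :: (0 + 2 * 1 + 2 * n1 - 2) ::
      hq (0 + 2 * 1 + 2 * n1 + 2 * n2 - 3) r := by
    unfold hl
    congr 4 <;> ring
  rw [← f1, ← f2, ← f3, H.tau_van hOm k 2 0 n1 n2 r le_rfl h1 h2 hr (by omega),
    H.tau_val hOm hF k 0 (n1 + 1) n2 r le_rfl (by omega) h2 hr (by omega)] at e1
  rw [uu2, map_sub, e1]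
  ring

/-- two particles on the first bond -/
theorem uu_two (hOm : Om ∈ H.W 2) (k : ℕ) (n2 : ℤ) (r : List (Bool × Bool)) (h2 : 0 ≤ n2)
    (hr : r.length = k) (hs : 2 + n2 + smp r = k + 1) :
    H.F (hl 0 2 0 n2 r) (uu2 T Om k) = 0 := by
  have hm := H.tau_mem hOm (k + 1)
  have hlen : ∀ b, (hq b r).length = 2 * k + 1 := fun b => by rw [hq_length, hr]
  set q : List ℤ := 2 :: hq (1 + 2 * n2) r with hq'
  have hq'' : q.length = 2 * k + 2 := by rw [hq', List.length_cons, hlen]
  have hmq : tau2 T Om (k + 1) ∈ H.W (([] : List ℤ).length + q.length + 2) := by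
    rw [hq'']; convert hm using 2; simp; ring
  have e1 := H.F_e_one [] q 0 (v := tau2 T Om (k + 1)) hmq
  have e2 := H.F_e [] q 0 1 0 (v := tau2 T Om (k + 1)) hmq
  have e3 := H.F_e [] q 0 3 0 (v := tau2 T Om (k + 1)) hmq
  have e4 := H.rec' [0] q 0 (v := tau2 T Om (k + 1)) (by
    rw [hq'']; convert hm using 2; simp; ring)
  have e5 := H.rec3 [0] q 0 (v := tau2 T Om (k + 1)) (by
    rw [hq'']; convert hm using 2; simp; ring)
  simp only [List.nil_append, List.length_nil, List.cons_append] at e1 e2 e3 e4 e5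
  have f0 : hl 0 2 0 n2 r = 0 :: (0 + 3) :: q := by
    unfold hl
    rw [hq']
    congr 4
    ring
  have f1 : hl 2 0 1 n2 r = (0 + 2) :: (0 + 1) :: q := by
    unfold hl
    rw [hq']
    congr 4
    ring
  have e6 := H.tau_van hOm k 2 0 1 n2 r le_rfl (by omega) h2 hr (by omega)
  rw [f1] at e6
  rw [f0, uu2, map_sub]
  norm_num [kap_one, kap_three] at e1 e2 e3 e4 e5 e6 ⊢
  linear_combination e5 - e3 - e2 + e1 + e6 + e4

/-- **the height coordinates of `z`** -/
theorem zz_val (hOm : Om ∈ H.W 2) (hF : ∀ a b, H.F [a, b] Om = (kap (a + b + 1) : K)) :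
    ∀ (k : ℕ) (x : Bool) (r : List (Bool × Bool)), r.length = k → bi x + smp r = k →
    H.F (0 :: hq (2 * bi x - 1) r) (zz2 T Om k) = (vv (bi x) r : K) := by
  intro k x0 r hr hs
  match k, r, hr, hs with
  | 0, [], _, hs =>
    simp only [smp] at hs
    have : x0 = false := by
      cases x0
      · rfl
      · simp at hs
    subst this
    rw [zz2, hq, hF]
    norm_num [vv]
  | (k + 1), (y, x) :: r, hr, hs =>
    have hr' : r.length = k := by simpa using hr
    have hx := bi_nonneg x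
    simp only [smp] at hs
    push_cast at hs
    have hm := H.uu_mem hOm k
    have hlen : ∀ b, (hq b r).length = 2 * k + 1 := fun b => by rw [hq_length, hr']
    have e0 : (0 :: hq (2 * bi x0 - 1) ((y, x) :: r) : List ℤ) = hl 0 (bi x0) (bi y) (bi x) r := by
      rw [hq, hl]
      exact congrArg₂ List.cons rfl (congrArg₂ List.cons (by ring) (congrArg₂ List.cons (by ring)
        (congrArg (fun a => hq a r) (by ring))))
    rw [e0, zz2, map_add]
    cases y
    · have e1 := H.F_e_zero [0] (hq (0 + 2 * bi x0 + 2 * bi false + 2 * bi x - 3) r)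
        (0 + 2 * bi x0 - 1) (0 + 2 * bi x0 + 2 * bi false - 2) (by simp; ring) (v := uu2 T Om k)
        (by simp only [List.length_cons, List.length_nil, hlen]; convert hm using 2; ring)
      simp only [List.cons_append, List.nil_append, List.length_cons, List.length_nil] at e1
      have e2 : H.F (hl 0 (bi x0) (bi false) (bi x) r) (T.e 1 (uu2 T Om k)) = 0 := e1
      rw [e2, add_zero]
      cases x0
      · simp only [bi_false] at hs ⊢
        rw [H.uu_zero hOm hF k 0 (bi x) r le_rfl hx hr' (by omega)]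
        simp only [tc00, vv]
        norm_num
        rw [show bi x - 1 = -1 + bi x by ring]
      · simp only [bi_false, bi_true] at hs ⊢
        rw [H.uu_one hOm hF k 0 (bi x) r le_rfl hx hr' (by omega)]
        norm_num [vv]
    · have e1 := H.F_e_one [0] (hq (0 + 2 * bi x0 + 2 * bi true + 2 * bi x - 3) r)
        (0 + 2 * bi x0 - 1) (v := uu2 T Om k)
        (by simp only [List.length_cons, List.length_nil, hlen]; convert hm using 2; ring)
      simp only [List.cons_append, List.nil_append, List.length_cons, List.length_nil] at e1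
      have f0 : hl 0 (bi x0) (bi true) (bi x) r = 0 :: (0 + 2 * bi x0 - 1) ::
          (0 + 2 * bi x0 - 1 + 1) :: hq (0 + 2 * bi x0 + 2 * bi true + 2 * bi x - 3) r := by
        unfold hl
        congr 3
        simp
      have f1 : hl 0 (bi x0 + 1) 0 (bi x) r = 0 :: (0 + 2 * bi x0 - 1 + 2) ::
          (0 + 2 * bi x0 - 1 + 1) :: hq (0 + 2 * bi x0 + 2 * bi true + 2 * bi x - 3) r := by
        unfold hl
        congr 2
        · ring
        · congr 1
          · ring
          · congr 1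
            simp; ring
      have f3 : hl 0 (bi x0) 0 (bi x + 1) r = 0 :: (0 + 2 * bi x0 - 1) ::
          (0 + 2 * bi x0 - 1 - 1) :: hq (0 + 2 * bi x0 + 2 * bi true + 2 * bi x - 3) r := by
        unfold hl
        congr 3
        · ring
        · congr 1
          simp; ring
      rw [← f0, ← f1, ← f3] at e1
      rw [zero_add] at e1
      rw [e1]
      cases x0
      · simp only [bi_false, bi_true, zero_add] at hs ⊢
        rw [H.uu_zero hOm hF k 1 (bi x) r (by omega) hx hr' (by omega),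
          H.uu_zero hOm hF k 0 (bi x + 1) r (by omega) (by omega) hr' (by omega),
          H.uu_one hOm hF k 0 (bi x) r (by omega) hx hr' (by omega)]
        norm_num [vv]
      · simp only [bi_true] at hs ⊢
        rw [H.uu_one hOm hF k 1 (bi x) r (by omega) hx hr' (by omega),
          H.uu_one hOm hF k 0 (bi x + 1) r (by omega) (by omega) hr' (by omega),
          show (1 : ℤ) + 1 = 2 by ring,
          H.uu_two hOm k (bi x) r hx hr' (by omega)]
        norm_num [vv, tc_zero]
        ring_nf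

end HFam

end Pool.Agent.Rect.Herm
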