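import Pool.Agent.Rect.Herm.Z2d

/-!
# The sum of the height functionals with the weights `vv`
-/

set_option autoImplicit false

namespace Pool.Agent.Rect.Herm

open Pool.Agent.Helper9.DR

variable {K : Type*} [Field K] {V : Type*} [AddCommGroup V] [Module K V]

/-- sum over lists of pairs -/
def sp : ℕ → (List (Bool × Bool) → K) → K
  | 0, f => f []
  | k + 1, f => sp k (fun r => f ((false, false) :: r)) + sp k (fun r => f ((false, true) :: r)) +
      sp k (fun r => f ((true, false) :: r)) + sp k (fun r => f ((true, true) :: r))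

theorem sp_zero (k : ℕ) : sp k (fun _ => (0 : K)) = 0 := by
  induction k with
  | zero => rfl
  | succ k ih => simp only [sp, ih]; ring

theorem sp_congr {k : ℕ} {f g : List (Bool × Bool) → K} (h : ∀ r, r.length = k → f r = g r) :
    sp k f = sp k g := by
  induction k generalizing f g with
  | zero => exact h [] rfl
  | succ k ih =>
    simp only [sp]
    rw [ih fun r hr => h ((false, false) :: r) (by simp [hr]),
      ih fun r hr => h ((false, true) :: r) (by simp [hr]),
      ih fun r hr => h ((true, false) :: r) (by simp [hr]),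
      ih fun r hr => h ((true, true) :: r) (by simp [hr])]

/-- the end of the list -/
def tl : ℕ → List ℤ
  | 0 => []
  | l + 1 => List.replicate (2 * l + 1) (-2) ++ [-1]

theorem tl_length (l : ℕ) : (tl l).length = 2 * l := by
  cases l with
  | zero => rfl
  | succ l => simp [tl]; ring

namespace HFam

variable {T : Tower K V} (H : HFam T 2)

/-- the sum with state `s` and first heights `p` -/
def VV (s : ℤ) (p : List ℤ) (k : ℕ) (w : V) : K :=
  sp k (fun r => (vv s r : K) * H.F (p ++ hq (2 * s - 1) r) w)

theorem VV_nil (s : ℤ) (p : List ℤ) (w : V) :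
    H.VV s p 0 w = if s = 0 then H.F (p ++ [-1]) w else 0 := by
  by_cases hs : s = 0
  · subst hs; simp [VV, sp, vv, hq]
  · simp [VV, sp, vv, hq, hs]

theorem VV_two (s : ℤ) (hs : 2 ≤ s) (p : List ℤ) (k : ℕ) (w : V) : H.VV s p k w = 0 := by
  unfold VV
  rw [sp_congr (g := fun _ => 0) (fun r _ => by rw [vv_two hs]; simp), sp_zero]

theorem VV_step (s : ℤ) (p : List ℤ) (k : ℕ) (w : V) : H.VV s p (k + 1) w =
    (if s = 0 ∨ s = 1 then H.VV (s - 1) (p ++ [2 * s - 1, 2 * s - 2]) k w +
      H.VV s (p ++ [2 * s - 1, 2 * s - 2]) k w else 0) +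
    (if s = 1 ∨ s = -1 then H.VV s (p ++ [2 * s - 1, 2 * s]) k w +
      H.VV (s + 1) (p ++ [2 * s - 1, 2 * s]) k w else 0) := by
  have a1 : ∀ (y x : Bool) (t h : ℤ) (b : Bool),
      (∀ r, vv s ((y, x) :: r) = if b then vv t r else 0) →
      t = s + bi y + bi x - 1 → h = 2 * s - 2 + 2 * bi y →
      sp k (fun r => (vv s ((y, x) :: r) : K) * H.F (p ++ hq (2 * s - 1) ((y, x) :: r)) w) =
      if b then H.VV t (p ++ [2 * s - 1, h]) k w else 0 := by
    intro y x t h b hb ht hh
    subst ht
    subst hh
    cases b
    · rw [sp_congr (g := fun _ => 0) (fun r _ => by rw [hb]; simp), sp_zero]; simp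
    · simp only [hb, if_true, VV]
      refine sp_congr fun r _ => ?_
      rw [hq]
      have e1 : 2 * s - 1 + 2 * bi y - 1 = 2 * s - 2 + 2 * bi y := by ring
      have e2 : 2 * s - 1 + 2 * bi y + 2 * bi x - 2 = 2 * (s + bi y + bi x - 1) - 1 := by ring
      rw [e1, e2]
      simp only [List.append_assoc, List.cons_append, List.nil_append]
  have b1 := a1 false false (s - 1) (2 * s - 2) (decide (s = 0 ∨ s = 1))
    (fun r => by simp [vv, bi]) (by simp) (by simp)
  have b2 := a1 false true s (2 * s - 2) (decide (s = 0 ∨ s = 1))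
    (fun r => by simp [vv, bi]) (by simp) (by simp)
  have b3 := a1 true false s (2 * s) (decide (s = 1 ∨ s = -1))
    (fun r => by simp [vv, bi]) (by simp) (by simp)
  have b4 := a1 true true (s + 1) (2 * s) (decide (s = 1 ∨ s = -1))
    (fun r => by simp [vv, bi]) (by simp) (by simp)
  conv_lhs => unfold VV
  rw [sp, b1, b2, b3, b4]
  simp only [decide_eq_true_eq]
  split_ifs <;> ring

/-- linearity in one height -/
theorem rec_mid (p q : List ℤ) (a b c : ℤ) (h1 : b = a + 1) (h2 : c = a + 2) {w : V}
    (hw : w ∈ H.W (p.length + q.length + 1)) :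
    H.F (p ++ a :: q) w + H.F (p ++ c :: q) w = H.F (p ++ b :: q) w := by
  subst h1
  subst h2
  rw [H.rec2 p q a hw]
  ring

/-- the states `-1` and `0` together -/
theorem VV_low (k : ℕ) : ∀ (p : List ℤ) {w : V}, w ∈ H.W (p.length + 2 * k + 1) →
    H.VV (-1) p k w + H.VV 0 p k w = H.F (p ++ (List.replicate (2 * k) (-2) ++ [-1])) w := by
  induction k with
  | zero =>
    intro p w _
    rw [VV_nil, VV_nil]
    simp
  | succ k ih =>
    intro p w hw
    have h1 := ih (p ++ [-1, -2]) (w := w) (by
      rw [List.length_append]; convert hw using 2; simp; ring)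
    have h2 := ih (p ++ [-3, -2]) (w := w) (by
      rw [List.length_append]; convert hw using 2; simp; ring)
    have h3 := H.rec_mid p (-2 :: (List.replicate (2 * k) (-2) ++ [-1])) (-3) (-2) (-1)
      (by ring) (by ring) (w := w) (by convert hw using 2; simp; ring)
    rw [VV_step, VV_step]
    norm_num
    simp only [List.append_assoc, List.cons_append, List.nil_append] at h1 h2
    have e : List.replicate (2 * (k + 1)) (-2 : ℤ) ++ [-1] =
        -2 :: -2 :: (List.replicate (2 * k) (-2) ++ [-1]) := by
      rw [show 2 * (k + 1) = 2 * k + 1 + 1 by ring, List.replicate_succ, List.replicate_succ]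
      simp
    rw [e, ← h3, ← h1, ← h2]

theorem VV_zero (k : ℕ) (p : List ℤ) {w : V} (hw : w ∈ H.W (p.length + 2 * k + 1)) :
    H.VV 0 p k w = H.F (p ++ -1 :: tl k) w := by
  cases k with
  | zero => rw [VV_nil]; simp [tl]
  | succ k =>
    have h1 := H.VV_low k (p ++ [-1, -2]) (w := w) (by
      rw [List.length_append]; convert hw using 2; simp; ring)
    rw [VV_step]
    norm_num
    rw [h1, tl, List.replicate_succ]
    simp

theorem VV_one (k : ℕ) : ∀ (p : List ℤ) {w : V}, w ∈ H.W (p.length + 2 * k + 1) →
    H.VV 1 p k w = ∑ j ∈ Finset.range k,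
      H.F (p ++ (List.replicate (2 * j + 1) 1 ++ 0 :: -1 :: tl (k - 1 - j))) w := by
  induction k with
  | zero =>
    intro p w _
    rw [VV_nil]; simp
  | succ k ih =>
    intro p w hw
    have h1 := ih (p ++ [1, 0]) (w := w) (by
      rw [List.length_append]; convert hw using 2; simp; ring)
    have h2 := ih (p ++ [1, 2]) (w := w) (by
      rw [List.length_append]; convert hw using 2; simp; ring)
    have h0 := H.VV_zero k (p ++ [1, 0]) (w := w) (by
      rw [List.length_append]; convert hw using 2; simp; ring)
    rw [VV_step]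
    norm_num
    rw [h0, h1, h2, H.VV_two 2 le_rfl, add_zero, Finset.sum_range_succ']
    have h5 : ∑ j ∈ Finset.range k, H.F (p ++ [1, 0] ++
          (List.replicate (2 * j + 1) 1 ++ 0 :: -1 :: tl (k - 1 - j))) w +
        ∑ j ∈ Finset.range k, H.F (p ++ [1, 2] ++
          (List.replicate (2 * j + 1) 1 ++ 0 :: -1 :: tl (k - 1 - j))) w =
        ∑ j ∈ Finset.range k, H.F (p ++
          (List.replicate (2 * (j + 1) + 1) 1 ++ 0 :: -1 :: tl (k - (j + 1)))) w := by
      rw [← Finset.sum_add_distrib]
      refine Finset.sum_congr rfl fun j hj => ?_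
      have h3 := H.rec_mid (p ++ [1]) (List.replicate (2 * j + 1) 1 ++ 0 :: -1 :: tl (k - 1 - j)) 0 1 2
        (by ring) (by ring) (w := w) (by
          have : 2 * j + 2 * (k - 1 - j) + 2 = 2 * k := by
            have := Finset.mem_range.1 hj
            omega
          convert hw using 2
          simp [tl_length]
          omega)
      simp only [List.append_assoc, List.cons_append, List.nil_append] at h3 ⊢
      rw [h3, show k - (j + 1) = k - 1 - j by omega,
        show List.replicate (2 * (j + 1) + 1) (1 : ℤ) = 1 :: 1 :: List.replicate (2 * j + 1) 1 from rfl]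
      simp only [List.cons_append]
    rw [← h5]
    simp
    ring

end HFam

end Pool.Agent.Rect.Herm
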