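import Pool.Agent.Rect.Herm.Z2e

/-!
# Comparison of height functionals
-/

set_option autoImplicit false

namespace Pool.Agent.Rect.Herm

open Pool.Agent.Helper9.DR

variable {K : Type*} [Field K] {V : Type*} [AddCommGroup V] [Module K V]

/-- a class of lists standing to the left of the height `z` -/
structure LC (P : List ℤ → Prop) (z : ℤ) : Prop where
  split : ∀ L, P L → ∀ i, i + 2 ≤ L.length → ∃ p x y q, L = p ++ x :: y :: q ∧ p.length = i ∧
    kap (y - x) = 1 ∧ P (p ++ q)
  last : ∀ L, P L → L ≠ [] → ∃ p x, L = p ++ [x] ∧ kap (z - x) = 0

/-- a class of lists standing to the right of the height `z` -/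
structure RC (Q : List ℤ → Prop) (z : ℤ) : Prop where
  split : ∀ R, Q R → ∀ i, i + 2 ≤ R.length → ∃ p x y q, R = p ++ x :: y :: q ∧ p.length = i ∧
    kap (y - x) = 1 ∧ Q (p ++ q)
  first : ∀ R, Q R → R ≠ [] → ∃ x q, R = x :: q ∧ kap (x - z) = 0

/-- zeros -/
def Z0 (L : List ℤ) : Prop := L = List.replicate L.length 0

theorem Z0_rep (n : ℕ) : Z0 (List.replicate n 0) := by
  unfold Z0
  rw [List.length_replicate]

theorem Z0_split (L : List ℤ) (h : Z0 L) (i : ℕ) (hi : i + 2 ≤ L.length) :
    ∃ p x y q, L = p ++ x :: y :: q ∧ p.length = i ∧ kap (y - x) = 1 ∧ Z0 (p ++ q) := by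
  obtain ⟨m, hm⟩ : ∃ m, L.length = i + (m + 2) := ⟨L.length - i - 2, by omega⟩
  refine ⟨List.replicate i 0, 0, 0, List.replicate m 0, ?_, List.length_replicate, rfl, ?_⟩
  · rw [h, hm, List.replicate_add]
    rfl
  · rw [← List.replicate_add]
    exact Z0_rep _

theorem Z0_LC (z : ℤ) (hz : kap z = 0) : LC Z0 z where
  split := Z0_split
  last := by
    intro L h hL
    obtain ⟨m, hm⟩ : ∃ m, L.length = m + 1 := ⟨L.length - 1, by
      have := List.length_pos_iff.2 hL
      omega⟩
    refine ⟨List.replicate m 0, 0, ?_, by rw [sub_zero]; exact hz⟩
    rw [h, hm, List.replicate_succ']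

theorem Z0_RC (z : ℤ) (hz : kap (-z) = 0) : RC Z0 z where
  split := Z0_split
  first := by
    intro L h hL
    obtain ⟨m, hm⟩ : ∃ m, L.length = m + 1 := ⟨L.length - 1, by
      have := List.length_pos_iff.2 hL
      omega⟩
    refine ⟨0, List.replicate m 0, ?_, by rw [zero_sub]; exact hz⟩
    rw [h, hm, List.replicate_succ]

/-- the lists on the left -/
def LL (L : List ℤ) : Prop :=
  L = [] ∨ ∃ (a : ℤ) (m : ℕ), (a = 0 ∨ a = 1) ∧ L = a :: List.replicate (2 * m + 1) 1

/-- the lists on the right -/
def RR (R : List ℤ) : Prop :=
  R = [] ∨ ∃ (b : ℤ) (m : ℕ), (b = -1 ∨ b = -2) ∧ R = List.replicate (2 * m + 1) (-2) ++ [b]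

theorem LL_LC : LC LL 0 where
  split := by
    rintro L (rfl | ⟨a, m, ha, rfl⟩) i hi
    · simp at hi
    · simp only [List.length_cons, List.length_replicate] at hi
      cases i with
      | zero =>
        refine ⟨[], a, 1, List.replicate (2 * m) 1, rfl, rfl, ?_, ?_⟩
        · rcases ha with rfl | rfl <;> rfl
        · cases m with
          | zero => exact Or.inl rfl
          | succ m => exact Or.inr ⟨1, m, Or.inr rfl, rfl⟩
      | succ i =>
        obtain ⟨l, hl⟩ : ∃ l, 2 * m + 1 = i + (l + 2) := ⟨2 * m + 1 - i - 2, by omega⟩
        refine ⟨a :: List.replicate i 1, 1, 1, List.replicate l 1, ?_, by simp, rfl, ?_⟩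
        · rw [hl, List.replicate_add]
          rfl
        · refine Or.inr ⟨a, m - 1, ha, ?_⟩
          rw [List.cons_append, ← List.replicate_add]
          congr 2
          omega
  last := by
    rintro L (rfl | ⟨a, m, ha, rfl⟩) hL
    · exact absurd rfl hL
    · refine ⟨a :: List.replicate (2 * m) 1, 1, ?_, rfl⟩
      rw [List.replicate_succ']
      rfl

theorem RR_RC : RC RR (-1) where
  split := by
    rintro L (rfl | ⟨b, m, hb, rfl⟩) i hi
    · simp at hi
    · simp only [List.length_append, List.length_replicate, List.length_singleton] at hi
      by_cases hi2 : i = 2 * m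
      · subst hi2
        refine ⟨List.replicate (2 * m) (-2), -2, b, [], ?_, by simp, ?_, ?_⟩
        · rw [List.replicate_succ']
          simp
        · rcases hb with rfl | rfl <;> rfl
        · cases m with
          | zero => exact Or.inl rfl
          | succ m =>
            refine Or.inr ⟨-2, m, Or.inr rfl, ?_⟩
            rw [List.append_nil, ← List.replicate_succ']
            rfl
      · obtain ⟨l, hl⟩ : ∃ l, 2 * m + 1 = i + (l + 2) := ⟨2 * m + 1 - i - 2, by omega⟩
        refine ⟨List.replicate i (-2), -2, -2, List.replicate l (-2) ++ [b], ?_, by simp, rfl, ?_⟩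
        · rw [hl, List.replicate_add, List.append_assoc]
          rfl
        · refine Or.inr ⟨b, m - 1, hb, ?_⟩
          rw [← List.append_assoc, ← List.replicate_add]
          congr 2
          omega
  first := by
    rintro L (rfl | ⟨b, m, hb, rfl⟩) hL
    · exact absurd rfl hL
    · exact ⟨-2, List.replicate (2 * m) (-2) ++ [b], rfl, rfl⟩

theorem tl_RR (l : ℕ) : RR (tl l) := by
  cases l with
  | zero => exact Or.inl rfl
  | succ l => exact Or.inr ⟨-1, l, Or.inl rfl, rfl⟩

namespace HFam

variable {T : Tower K V} (H : HFam T 2)

/-- **comparison** -/
theorem cmp {P P' Q Q' : List ℤ → Prop} {a b a' b' : ℤ} (hP : LC P a) (hP' : LC P' a')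
    (hQ : RC Q b) (hQ' : RC Q' b') (hab : kap (b - a) = 0) (hab' : kap (b' - a') = 0) (c : K)
    (par : ℕ) (base : par = 0 → ∀ v ∈ H.W 2, H.F [a, b] v = c * H.F [a', b'] v) :
    ∀ (k : ℕ) (L L' R R' : List ℤ), P L → P' L' → L.length = L'.length → Q R → Q' R' →
      R.length = R'.length → L.length + R.length = 2 * k → L.length % 2 = par →
      ∀ {v : V}, v ∈ H.W (2 + 2 * k) →
      H.F (L ++ a :: b :: R) v = c * H.F (L' ++ a' :: b' :: R') v := by
  intro k
  induction k with
  | zero =>
    intro L L' R R' _ _ hl _ _ hr hk hpar v hv
    have h1 : L = [] := List.length_eq_zero_iff.1 (by omega)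
    have h2 : R = [] := List.length_eq_zero_iff.1 (by omega)
    have h3 : L' = [] := List.length_eq_zero_iff.1 (by omega)
    have h4 : R' = [] := List.length_eq_zero_iff.1 (by omega)
    subst h1 h2 h3 h4
    exact base (by simpa using hpar.symm) v hv
  | succ k ih =>
    intro L L' R R' hL hL' hl hR hR' hr hk hpar v hv
    refine Submodule.span_induction
      (p := fun v _ => H.F (L ++ a :: b :: R) v = c * H.F (L' ++ a' :: b' :: R') v)
      ?_ (by simp) ?_ ?_ (H.gen k hv)
    · rintro _ ⟨i, u, hi, hu, rfl⟩
      rcases Nat.lt_trichotomy (i + 1) L.length with h | h | h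
      · -- inside `L`
        obtain ⟨p, x, y, q, rfl, hp, hxy, hP1⟩ := hP.split L hL i (by omega)
        obtain ⟨p', x', y', q', rfl, hp', hxy', hP1'⟩ := hP'.split L' hL' i (by omega)
        simp only [List.length_append, List.length_cons] at hk hpar hl
        have e1 := H.cup p (q ++ a :: b :: R) x y (v := u) (by
          convert hu using 2
          simp only [List.length_append, List.length_cons]
          omega)
        have e2 := H.cup p' (q' ++ a' :: b' :: R') x' y' (v := u) (by
          convert hu using 2
          simp only [List.length_append, List.length_cons]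
          omega)
        rw [hp] at e1
        rw [hp'] at e2
        have e3 := ih (p ++ q) (p' ++ q') R R' hP1 hP1'
          (by simp only [List.length_append]; omega) hR hR' hr
          (by simp only [List.length_append]; omega)
          (by simp only [List.length_append]; omega) (v := u) hu
        simp only [List.append_assoc, List.cons_append] at e1 e2 e3 ⊢
        rw [e1, e2, hxy, hxy', e3]
        ring
      · -- the end of `L` and `a`
        obtain ⟨p, x, rfl, hx⟩ := hP.last L hL (by
          rintro rfl
          simp at h)
        obtain ⟨p', x', rfl, hx'⟩ := hP'.last L' hL' (by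
          rintro rfl
          simp at hl)
        simp only [List.length_append, List.length_cons, List.length_nil] at hk hpar hl h
        have e1 := H.cup p (b :: R) x a (v := u) (by
          convert hu using 2
          simp only [List.length_cons]
          omega)
        have e2 := H.cup p' (b' :: R') x' a' (v := u) (by
          convert hu using 2
          simp only [List.length_cons]
          omega)
        rw [show p.length = i by omega] at e1
        rw [show p'.length = i by omega] at e2
        simp only [List.append_assoc, List.cons_append, List.nil_append]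
        rw [e1, e2, hx, hx']
        simp
      · rcases (by omega : i = L.length ∨ i = L.length + 1 ∨ L.length + 2 ≤ i) with h' | h' | h'
        · subst h'
          have e1 := H.cup L R a b (v := u) (by convert hu using 2; omega)
          have e2 := H.cup L' R' a' b' (v := u) (by convert hu using 2; omega)
          rw [hl] at *
          rw [e1, e2, hab, hab']
          simp
        · -- `b` and the first of `R`
          subst h'
          obtain ⟨x, q, rfl, hx⟩ := hQ.first R hR (by
            rintro rfl
            simp at hk
            omega)
          obtain ⟨x', q', rfl, hx'⟩ := hQ'.first R' hR' (by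
            rintro rfl
            simp at hr)
          simp only [List.length_cons] at hk hr
          have e1 := H.cup (L ++ [a]) q b x (v := u) (by
            convert hu using 2
            simp only [List.length_append, List.length_cons, List.length_nil]
            omega)
          have e2 := H.cup (L' ++ [a']) q' b' x' (v := u) (by
            convert hu using 2
            simp only [List.length_append, List.length_cons, List.length_nil]
            omega)
          rw [show (L ++ [a]).length = L.length + 1 by simp] at e1
          rw [show (L' ++ [a']).length = L.length + 1 by simp [hl]] at e2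
          simp only [List.append_assoc, List.cons_append, List.nil_append] at e1 e2
          rw [e1, e2, hx, hx']
          simp
        · -- inside `R`
          obtain ⟨p, x, y, q, rfl, hp, hxy, hP1⟩ := hQ.split R hR (i - L.length - 2) (by omega)
          obtain ⟨p', x', y', q', rfl, hp', hxy', hP1'⟩ := hQ'.split R' hR' (i - L.length - 2)
            (by omega)
          simp only [List.length_append, List.length_cons] at hk hr
          have e1 := H.cup (L ++ a :: b :: p) q x y (v := u) (by
            convert hu using 2
            simp only [List.length_append, List.length_cons]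
            omega)
          have e2 := H.cup (L' ++ a' :: b' :: p') q' x' y' (v := u) (by
            convert hu using 2
            simp only [List.length_append, List.length_cons]
            omega)
          rw [show (L ++ a :: b :: p).length = i by
            simp only [List.length_append, List.length_cons]; omega] at e1
          rw [show (L' ++ a' :: b' :: p').length = i by
            simp only [List.length_append, List.length_cons]; omega] at e2
          have e3 := ih L L' (p ++ q) (p' ++ q') hL hL' hl hP1 hP1'
            (by simp only [List.length_append]; omega)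
            (by simp only [List.length_append]; omega) hpar (v := u) hu
          simp only [List.append_assoc, List.cons_append] at e1 e2 e3 ⊢
          rw [e1, e2, hxy, hxy', e3]
          ring
    · intro x y _ _ hx hy
      rw [map_add, map_add, hx, hy]
      ring
    · intro t x _ hx
      rw [map_smul, map_smul, hx]
      simp only [smul_eq_mul]
      ring

end HFam

end Pool.Agent.Rect.Herm
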