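import Pool.Agent.Rect.Herm.Z2f
import Pool.Agent.Rect.Herm.HForm

/-!
# The hidden form of `z`

`∑ F_x(z) F_x(w)`, the sum over the configurations `x` with `k` particles on the `2k + 1` bonds, is
`F_0 ((2k + 1) w - ∑ e_i w)`.
-/

set_option autoImplicit false

namespace Pool.Agent.Rect.Herm

open Pool.Agent.Helper9.DR

variable {K : Type*} [Field K] {V : Type*} [AddCommGroup V] [Module K V]

/-- the bonds as a list -/
def flat : List (Bool × Bool) → List Bool
  | [] => []
  | (y, x) :: r => y :: x :: flat r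

theorem sm_flat (k : ℕ) (g : List Bool → K) : sm (2 * k) g = sp k (fun r => g (flat r)) := by
  induction k generalizing g with
  | zero => rfl
  | succ k ih =>
    rw [show 2 * (k + 1) = 2 * k + 1 + 1 by ring]
    simp only [sm, sp, ih, flat]
    ring

theorem hq_flat (a : ℤ) (r : List (Bool × Bool)) : a :: hs a (flat r) = hq a r := by
  induction r generalizing a with
  | nil => rfl
  | cons p r ih =>
    obtain ⟨y, x⟩ := p
    rw [flat, hq, hs, hs]
    have e1 : st a y = a + 2 * bi y - 1 := by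
      cases y
      · simp [st, bi]
      · simp [st, bi]; ring
    have e2 : st (st a y) x = a + 2 * bi y + 2 * bi x - 2 := by
      rw [e1]
      cases x <;> simp [st, bi] <;> ring
    rw [e2, ih, e1]

theorem cnt_flat (r : List (Bool × Bool)) : (cnt (flat r) : ℤ) = smp r := by
  induction r with
  | nil => rfl
  | cons p r ih =>
    obtain ⟨y, x⟩ := p
    rw [flat, smp, cnt_cons, cnt_cons]
    push_cast
    rw [ih]
    cases y <;> cases x <;> simp [bn, bi] <;> ring

theorem sum_even_odd (k : ℕ) (G : ℕ → K) : ∑ i ∈ Finset.range (2 * k + 1), G i =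
    ∑ j ∈ Finset.range (k + 1), G (2 * j) + ∑ j ∈ Finset.range k, G (2 * j + 1) := by
  induction k with
  | zero => simp
  | succ k ih =>
    rw [show 2 * (k + 1) + 1 = 2 * k + 1 + 1 + 1 by ring, Finset.sum_range_succ,
      Finset.sum_range_succ, ih, Finset.sum_range_succ _ (k + 1),
      Finset.sum_range_succ (fun j => G (2 * j + 1)) k, show 2 * (k + 1) = 2 * k + 1 + 1 by ring]
    ring

namespace HFam

variable {T : Tower K V} (H : HFam T 2) {Om : V}

/-- the sum with the values of `z` -/
theorem Sf_zz (hOm : Om ∈ H.W 2) (hF : ∀ a b, H.F [a, b] Om = (kap (a + b + 1) : K)) (k : ℕ)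
    (w : V) : H.Sf (2 * k + 1) k (zz2 T Om k) w = H.VV 0 [0] k w + H.VV 1 [0] k w := by
  have key : ∀ (x : Bool) (r : List (Bool × Bool)), r.length = k →
      (if cnt (x :: flat r) = k then H.Fn 0 (x :: flat r) (zz2 T Om k) * H.Fn 0 (x :: flat r) w
        else 0) = (vv (bi x) r : K) * H.F ([0] ++ hq (2 * bi x - 1) r) w := by
    intro x r hr
    have e1 : (cnt (x :: flat r) : ℤ) = bi x + smp r := by
      rw [cnt_cons]
      push_cast
      rw [cnt_flat]
      cases x <;> rfl
    have e2 : (0 :: hs 0 (x :: flat r) : List ℤ) = 0 :: hq (2 * bi x - 1) r := by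
      rw [hs, ← hq_flat]
      have : st 0 x = 2 * bi x - 1 := by cases x <;> rfl
      rw [this]
    unfold Fn
    rw [e2]
    by_cases h : cnt (x :: flat r) = k
    · rw [if_pos h, H.zz_val hOm hF k x r hr (by rw [← e1, h])]
      rfl
    · rw [if_neg h]
      have : vv (bi x) r = 0 := by
        by_contra hne
        have := vv_sum hne
        rw [hr, ← e1] at this
        exact h (by exact_mod_cast this)
      rw [this]
      simp
  have e0 : H.Sf (2 * k + 1) k (zz2 T Om k) w =
      sp k (fun r => if cnt (false :: flat r) = k then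
        H.Fn 0 (false :: flat r) (zz2 T Om k) * H.Fn 0 (false :: flat r) w else 0) +
      sp k (fun r => if cnt (true :: flat r) = k then
        H.Fn 0 (true :: flat r) (zz2 T Om k) * H.Fn 0 (true :: flat r) w else 0) := by
    unfold Sf
    rw [sm, sm_flat, sm_flat]
  rw [e0, sp_congr (key false), sp_congr (key true)]
  rfl

/-- the functional with one bond `-1, 1` -/
def DD (k : ℕ) (w : V) (i : ℕ) : K :=
  H.F (List.replicate i 0 ++ -1 :: 1 :: List.replicate (2 * k - i) 0) w

theorem DD_odd (k : ℕ) {w : V} (hw : w ∈ H.W (2 + 2 * k)) (j : ℕ) (hj : j < k) :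
    H.DD k w (2 * j + 1) = 0 := by
  have h := H.cmp (P := Z0) (P' := Z0) (Q := Z0) (Q' := Z0) (a := -1) (b := 1) (a' := -1) (b' := 1)
    (Z0_LC (-1) rfl) (Z0_LC (-1) rfl) (Z0_RC 1 rfl) (Z0_RC 1 rfl) rfl rfl (0 : K) 1
    (fun h => absurd h (by omega)) k (List.replicate (2 * j + 1) 0) (List.replicate (2 * j + 1) 0)
    (List.replicate (2 * k - (2 * j + 1)) 0) (List.replicate (2 * k - (2 * j + 1)) 0)
    (Z0_rep _) (Z0_rep _) rfl (Z0_rep _) (Z0_rep _) rfl
    (by simp only [List.length_replicate]; omega) (by simp only [List.length_replicate]; omega)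
    hw
  rw [DD, h, zero_mul]

theorem DD_even (hF : ∀ a b, H.F [a, b] Om = (kap (a + b + 1) : K))
    (hW : ∀ v ∈ H.W 2, ∃ c : K, v = c • Om) (k : ℕ) {w : V} (hw : w ∈ H.W (2 + 2 * k))
    (L R : List ℤ) (hL : LL L) (hR : RR R) (j : ℕ) (hj : L.length = 2 * j)
    (hk : L.length + R.length = 2 * k) : H.F (L ++ 0 :: -1 :: R) w = H.DD k w (2 * j) := by
  have h := H.cmp (P := LL) (P' := Z0) (Q := RR) (Q' := Z0) (a := 0) (b := -1) (a' := -1) (b' := 1)
    LL_LC (Z0_LC (-1) rfl) RR_RC (Z0_RC 1 rfl) rfl rfl (1 : K) 0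
    (fun _ v hv => by
      obtain ⟨c, rfl⟩ := hW v hv
      rw [map_smul, map_smul, hF, hF]
      norm_num) k L (List.replicate (2 * j) 0) R (List.replicate (2 * k - 2 * j) 0)
    hL (Z0_rep _) (by simp [hj]) hR (Z0_rep _) (by simp only [List.length_replicate]; omega)
    hk (by omega) hw
  rw [h, one_mul, DD]

/-- **(Z2)** -/
theorem Sf_zz_eq (hOm : Om ∈ H.W 2) (hF : ∀ a b, H.F [a, b] Om = (kap (a + b + 1) : K))
    (hW : ∀ v ∈ H.W 2, ∃ c : K, v = c • Om) (k : ℕ) {w : V} (hw : w ∈ H.W (2 * k + 2)) :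
    H.Sf (2 * k + 1) k (zz2 T Om k) w = H.F (List.replicate (2 * k + 2) 0)
      ((2 * k + 1 : K) • w - ∑ i ∈ Finset.range (2 * k + 1), T.e i w) := by
  have hw' : w ∈ H.W (2 + 2 * k) := by rwa [add_comm]
  have hw1 : w ∈ H.W (([0] : List ℤ).length + 2 * k + 1) := by
    convert hw using 2
    simp
    ring
  rw [H.Sf_zz hOm hF, H.VV_zero k [0] hw1, H.VV_one k [0] hw1]
  have e1 : H.F ([0] ++ -1 :: tl k) w = H.DD k w (2 * 0) :=
    H.DD_even hF hW k hw' [] (tl k) (Or.inl rfl) (tl_RR k) 0 rfl (by rw [tl_length]; simp)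
  have e2 : ∀ j ∈ Finset.range k,
      H.F ([0] ++ (List.replicate (2 * j + 1) 1 ++ 0 :: -1 :: tl (k - 1 - j))) w =
        H.DD k w (2 * (j + 1)) := by
    intro j hj
    have hj' := Finset.mem_range.1 hj
    have := H.DD_even hF hW k hw' (0 :: List.replicate (2 * j + 1) 1) (tl (k - 1 - j))
      (Or.inr ⟨0, j, Or.inl rfl, rfl⟩) (tl_RR _) (j + 1) (by simp; ring)
      (by simp only [List.length_cons, List.length_replicate, tl_length]; omega)
    rw [← this]
    rfl
  rw [e1, Finset.sum_congr rfl e2]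
  have e3 : ∀ i ∈ Finset.range (2 * k + 1), H.DD k w i =
      H.F (List.replicate (2 * k + 2) 0) (w - T.e i w) := by
    intro i hi
    have hi' := Finset.mem_range.1 hi
    have e4 : (List.replicate (2 * k + 2) 0 : List ℤ) =
        List.replicate i 0 ++ 0 :: 0 :: List.replicate (2 * k - i) 0 := by
      rw [show 2 * k + 2 = i + (2 * k - i + 2) by omega, List.replicate_add]
      rfl
    have e5 := H.F_e (List.replicate i 0) (List.replicate (2 * k - i) 0) 0 0 0 (v := w) (by
      simp only [List.length_replicate]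
      convert hw using 2
      omega)
    rw [List.length_replicate] at e5
    rw [map_sub, e4, e5, DD]
    norm_num
  have e6 : (2 * k + 1 : K) • w - ∑ i ∈ Finset.range (2 * k + 1), T.e i w =
      ∑ i ∈ Finset.range (2 * k + 1), (w - T.e i w) := by
    rw [Finset.sum_sub_distrib, Finset.sum_const, Finset.card_range, ← Nat.cast_smul_eq_nsmul K]
    push_cast
    rfl
  rw [e6, map_sum, ← Finset.sum_congr rfl e3, sum_even_odd,
    Finset.sum_congr rfl (fun j hj => H.DD_odd k hw' j (Finset.mem_range.1 hj)),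
    Finset.sum_range_succ' _ k]
  simp
  ring

end HFam

end Pool.Agent.Rect.Herm
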